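import Pool.Agent.Lib.MP_33b3f9_ag.M4.B2.ToTD
import Pool.Agent.Lib.MP_33b3f9_ag.M4.CP.Out

/-!
The theory in characteristic `p` applies to the reduced theta data.
-/

set_option autoImplicit false

namespace M4.B2

open Matrix Polynomial

noncomputable section

theorem eq_zero_of_line {P : Nat.Primes} {y : Vt P} (h : ∀ q : ℚ, q • y ∈ Lam P) : y = 0 := by
  refine Subtype.ext (funext fun i => eq_zero_of_psi fun q => psi_eq_one.2 ?_)
  have := mem_TA.1 (mem_Lam.1 (h q)) i
  rwa [Submodule.coe_smul, Pi.smul_apply, Algebra.smul_def] at this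

theorem Setup.outs {P : Nat.Primes} {ι : Type} [Fintype ι] (S : Setup P ι)
    {s : PadicAlgCl P ≃ₐ[ℚ_[P]] PadicAlgCl P} (hs : IsFrob s) : Outs (S.toTD hs) where
  sep _ _ _ h := (S.toTD hs).out_sep h
  card h j := (S.toTD hs).out_card h j
  main h δ m j d h1 h2 h3 h4 h5 := (S.toTD hs).out_main h δ m j d h1 h2 h3 h4 h5
  weil := by
    obtain ⟨h, h1, h2, h3, h4, h5⟩ := (S.toTD hs).out_weil
    refine ⟨h, h1, h2, fun a => (h3 a).trans ⟨fun H => ?_, fun H x => ?_⟩, fun N a hN H => ?_, h5⟩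
    · refine LinearMap.ext fun x => eq_zero_of_line fun q => ?_
      have e := map_rat_smul ((S.toTD hs).polV a).toAddMonoidHom q x
      exact e ▸ H (q • x)
    · rw [H]; exact zero_mem _
    · refine h4 N a hN fun x hx => ?_
      obtain ⟨y, hy, e⟩ := H _ hx
      have hN0 : N ≠ 0 := by rintro rfl; exact hN (dvd_zero _)
      rw [map_nsmul, ← Nat.cast_smul_eq_nsmul ℚ, ← Nat.cast_smul_eq_nsmul ℚ] at e
      rw [smul_right_injective _ (Nat.cast_ne_zero.2 hN0 : (N : ℚ) ≠ 0) e]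
      exact hy

end

end M4.B2
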