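import Pool.Agent.Lib.MP_33b3f9_ag.M4.B2.Main
import Pool.Agent.Lib.MP_33b3f9_ag.M4.B2.Outs

/-!
Frobenius elements at almost all places of degree one.
-/

set_option autoImplicit false

namespace M4.B2

theorem red {τ : Mat} {K : IntermediateField ℚ ℂ} {r : Rep K} (h : AV τ K r) : REDst τ r :=
  red_of (fun _ S _ hs => S.outs hs) h

end M4.B2
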