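import Pool.Agent.Lib.MP_33b3f9_ag.M4.B2.Ua

/-!
The theta line attached to an integral similitude.
-/

set_option autoImplicit false

namespace M4.B2

open Matrix Polynomial

noncomputable section

/-- An integral matrix over a ring. -/
def zM (R : Type) [CommRing R] (g : Matrix ν ν ℤ) : Matrix ν ν R := g.map (Int.cast : ℤ → R)

/-- The sign character on integral adelic vectors. -/
def chiA (a : VA) : ℂ := psi (qA (1 / 2) * ∑ i, a (Sum.inl i) * a (Sum.inr i))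

/-- `θ` is the theta function of the lattice `g⁻¹ ℤ ^ 8` composed with the doubling map, `v` its
vector of theta constants. -/
structure ThLine (Γ : ℕ → Submodule ℂ (VA → ℂ)) (g : Matrix ν ν ℤ) (M : ℕ) (θ : VA → ℂ)
    (v : (ν → Fin 2) → ℂ) : Prop where
  mem : θ ∈ Γ M
  eig : ∀ y : VA, 2 • (zM Af g *ᵥ y) ∈ TA → UA M y θ = chiA (2 • (zM Af g *ᵥ y)) • θ
  val : ∀ η, θ (qV fun i => ((η i : ℕ) : ℚ) / 4) = v η
  uniq : ∀ c : ℕ, 0 < c → ∀ f ∈ Γ (M * c ^ 2),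
    (∀ (i : ν) (y : ν → ℚ), (2 * c) • (zM ℚ g *ᵥ y) = Pi.single i 1 →
      UA (M * c ^ 2) (qV y) f = f) → ∃ κ : ℂ, ∀ z, f z = κ * θ (c • z)
  ne : ∃ η, v η ≠ 0
  bound : ∀ w : AbsoluteValue ℂ ℝ, IsNonarchimedean w → w 2 = 1 → ∀ x, ∃ η, w (θ x) ≤ w (v η)

end

end M4.B2
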