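import Pool.Agent.Lib.MP_33b3f9_ag.M4.DetD
import Pool.Agent.Lib.MP_33b3f9_ag.M4.B2.RedC
import Pool.Agent.Lib.MP_33b3f9_ag.M4.B2.LineDefs

/-!
Comparison of two theta lines after reduction.
-/

set_option autoImplicit false

namespace M4.B2

open Matrix Polynomial

noncomputable section

open Pool.Agent.M4.Det

variable {P : Nat.Primes} {ι : Type} [Fintype ι]

theorem chiA_add_two {a b : VA} (ha : a ∈ TA) (hb : b ∈ TA) : chiA (a + 2 • b) = chiA a := by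
  have h2 : qA (1 / 2) * 2 = 1 := by
    rw [← map_ofNat (algebraMap ℚ Af) 2, qA, ← map_mul]
    norm_num
  refine psi_congr ?_
  rw [← mul_sub, ← Finset.sum_sub_distrib, Finset.mul_sum]
  refine Zh.sum_mem fun i _ => ?_
  have e : qA (1 / 2) * ((a + 2 • b) (Sum.inl i) * (a + 2 • b) (Sum.inr i) -
      a (Sum.inl i) * a (Sum.inr i)) = a (Sum.inl i) * b (Sum.inr i) +
        b (Sum.inl i) * a (Sum.inr i) + 2 * (b (Sum.inl i) * b (Sum.inr i)) := by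
    simp only [two_nsmul, Pi.add_apply]
    linear_combination (a (Sum.inl i) * b (Sum.inr i) +
        b (Sum.inl i) * a (Sum.inr i) + 2 * (b (Sum.inl i) * b (Sum.inr i))) * h2
  rw [e]
  exact Zh.add_mem (Zh.add_mem (Zh.mul_mem (mem_TA.1 ha _) (mem_TA.1 hb _))
    (Zh.mul_mem (mem_TA.1 hb _) (mem_TA.1 ha _)))
    (Zh.mul_mem (ofNat_mem Zh 2) (Zh.mul_mem (mem_TA.1 hb _) (mem_TA.1 hb _)))

theorem cmp_single (i : ν) : (Pi.single i 1 : VA) ∈ TA := mem_TA.2 fun j => by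
  rw [Pi.single_apply]
  split_ifs
  · exact Zh.one_mem
  · exact Zh.zero_mem

theorem chiA_single {a b : VA} (i : ν) (hb : b ∈ TA) (h : a = Pi.single i 1 + 2 • b) :
    chiA a = 1 := by
  rw [h, chiA_add_two (cmp_single i) hb, chiA, Finset.sum_eq_zero, mul_zero, psi_zero]
  intro j _
  rcases i with i | i <;> simp

theorem cmp_J (R : Type) [CommRing R] : zM R (Matrix.J (Fin 4) ℤ) = Matrix.J (Fin 4) R :=
  Matrix.map_J (l := Fin 4) (R := ℤ) (Int.castRingHom R)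

theorem cmp_mul (R : Type) [CommRing R] (g h : Matrix ν ν ℤ) : zM R (g * h) = zM R g * zM R h :=
  Matrix.map_mul (f := Int.castRingHom R)

theorem cmp_smul (R : Type) [CommRing R] (n : ℤ) (g : Matrix ν ν ℤ) :
    zM R (n • g) = (n : R) • zM R g := by
  ext i j
  simp only [zM, map_apply, Matrix.smul_apply, smul_eq_mul, Int.cast_mul]

theorem cmp_one (R : Type) [CommRing R] : zM R 1 = 1 :=
  Matrix.map_one _ Int.cast_zero Int.cast_one

theorem cmp_EB {R : Type} [CommRing R] {g : Matrix ν ν ℤ} {M : ℕ}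
    (hg : gᵀ * Matrix.J (Fin 4) ℤ * g = (M : ℤ) • Matrix.J (Fin 4) ℤ) (x y : ν → R) :
    EB (zM R g *ᵥ x) (zM R g *ᵥ y) = M * EB x y := by
  refine sim_matrix.2 ?_ x y
  have h := congrArg (zM R) hg
  rwa [cmp_mul, cmp_mul, cmp_smul, cmp_J, Int.cast_natCast] at h

theorem cmp_adj {g : Matrix ν ν ℤ} {M : ℕ}
    (hg : gᵀ * Matrix.J (Fin 4) ℤ * g = (M : ℤ) • Matrix.J (Fin 4) ℤ) :
    ∃ g' : Matrix ν ν ℤ, ∀ (R : Type) [CommRing R] (x : ν → R),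
      zM R g' *ᵥ (zM R g *ᵥ x) = M • x := by
  refine ⟨-Matrix.J (Fin 4) ℤ * (gᵀ * Matrix.J (Fin 4) ℤ), fun R _ x => ?_⟩
  rw [mulVec_mulVec, ← cmp_mul, Matrix.mul_assoc, hg, Matrix.mul_smul, Matrix.neg_mul, J_squared,
    neg_neg, cmp_smul, cmp_one, smul_mulVec, one_mulVec, Int.cast_natCast, Nat.cast_smul_eq_nsmul]

theorem cmp_cV (l : Nat.Primes) (g : Matrix ν ν ℤ) (y : VA) :
    cV l (zM Af g *ᵥ y) = zM ℚ_[l] g *ᵥ cV l y := by
  funext i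
  simp [cV, zM, mulVec, dotProduct]

theorem cmp_qV (g : Matrix ν ν ℤ) (y : ν → ℚ) : zM Af g *ᵥ qV y = qV (zM ℚ g *ᵥ y) := by
  funext i
  simp [qV, qA, zM, mulVec, dotProduct]

theorem cmp_IV {l : ℕ} [Fact l.Prime] (g : Matrix ν ν ℤ) {s : ν → ℚ_[l]} (hs : s ∈ IV l) :
    zM ℚ_[l] g *ᵥ s ∈ IV l := by
  have e : zM ℚ_[l] g = mQ (zM ℤ_[l] g) := by
    ext i j
    simp [zM, mQ]
  rw [e]
  exact mQ_mulVec_le _ hs

theorem cmp_TA (g : Matrix ν ν ℤ) {a : VA} (ha : a ∈ TA) : zM Af g *ᵥ a ∈ TA :=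
  mem_TA_iff.2 fun l => by
    rw [cmp_cV]
    exact cmp_IV g (mem_TA_iff.1 ha l)

theorem cmp_gen {g : Matrix ν ν ℤ} {n : ℕ} {y : ν → ℚ} {i : ν}
    (h : n • (zM ℚ g *ᵥ y) = Pi.single i 1) : zM Af g *ᵥ (n • qV y) = Pi.single i 1 := by
  rw [mulVec_smul, cmp_qV]
  funext j
  have h1 := congrArg qA (congrFun h j)
  simp only [qA, Pi.smul_apply, map_nsmul, Pi.single_apply, apply_ite (algebraMap ℚ Af), map_one,
    map_zero] at h1
  simpa only [qV, qA, Pi.smul_apply, Pi.single_apply] using h1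

theorem cmp_gen_mem {g : Matrix ν ν ℤ} {M : ℕ}
    (hg : gᵀ * Matrix.J (Fin 4) ℤ * g = (M : ℤ) • Matrix.J (Fin 4) ℤ) {n : ℕ} {y : ν → ℚ} {i : ν}
    (h : n • (zM ℚ g *ᵥ y) = Pi.single i 1) : (M * n) • qV y ∈ TA := by
  obtain ⟨g', hg'⟩ := cmp_adj hg
  rw [mul_smul, ← hg', cmp_gen h]
  exact cmp_TA _ (cmp_single i)

theorem cmp_norm {N : ℕ} (hN : ¬ P.1 ∣ N) : ‖(N : ℚ_[P])‖ = 1 :=
  Padic.norm_natCast_eq_one_iff.2 ((Nat.Prime.coprime_iff_not_dvd P.2).2 hN)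

theorem cmp_norm' (e : ℂ ≃+* PadicAlgCl P) {N : ℕ} (hN : ¬ P.1 ∣ N) : ‖e N‖ = 1 := by
  rw [map_natCast, ← map_natCast (algebraMap ℚ_[P] (PadicAlgCl P))]
  exact (PadicAlgCl.norm_extends P _).trans (cmp_norm hN)

theorem cmp_two (h : P.1 ≠ 2) : ¬ P.1 ∣ 2 := fun h2 =>
  h ((Nat.prime_dvd_prime_iff_eq P.2 Nat.prime_two).1 h2)

theorem cmp_unit {N : ℕ} (hN : ¬ P.1 ∣ N) {y : VA} (h : N • y ∈ TA) : cV P y ∈ IV P := fun i => by
  have h1 := mem_TA_iff.1 h P i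
  rwa [cV_nsmul, Pi.smul_apply, smul_eq_mul, norm_mul, cmp_norm hN, one_mul] at h1

theorem cmp_half (hP : P.1 ≠ 2) {a : VA} (h1 : cV P a ∈ IV P)
    (h2 : ∀ l : Nat.Primes, l ≠ P → ∃ s ∈ IV l, cV l a = (2 : ℚ_[l]) • s) :
    ∃ b ∈ TA, a = 2 • b := by
  have e : a = 2 • ((1 / 2 : ℚ) • a) := by
    rw [← Nat.cast_smul_eq_nsmul ℚ, smul_smul]
    norm_num
  refine ⟨(1 / 2 : ℚ) • a, mem_TA_iff.2 fun l => ?_, e⟩
  by_cases hl : l = P
  · subst hl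
    intro i
    have h3 := h1 i
    rwa [e, cV_nsmul, Pi.smul_apply, smul_eq_mul, norm_mul, cmp_norm (cmp_two hP), one_mul] at h3
  · obtain ⟨s, hs, h3⟩ := h2 l hl
    have h4 : ((1 / 2 : ℚ) : ℚ_[l]) * 2 = 1 := by norm_num
    rw [cV_qsmul, h3, smul_smul, h4, one_smul]
    exact hs

theorem cmp_eight {R : Type} [CommRing R] {W : Matrix ν ν R} (h : ∀ a b, (8 : R) ∣ (W - 1) a b) :
    ∃ W0 : Matrix ν ν R, W = 1 + (8 : R) • W0 := by
  choose W0 hW using h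
  refine ⟨Matrix.of W0, ?_⟩
  rw [← sub_eq_iff_eq_add']
  ext a b
  exact hW a b

theorem cmp_mQ {l : ℕ} [Fact l.Prime] (W : Matrix ν ν ℤ_[l]) (s : ν → ℚ_[l]) :
    mQ (1 + (8 : ℤ_[l]) • W) *ᵥ s = s + (8 : ℚ_[l]) • (mQ W *ᵥ s) := by
  have e : mQ (1 + (8 : ℤ_[l]) • W) = mQ 1 + (8 : ℚ_[l]) • mQ W := by
    ext i j
    simp only [mQ, map_apply, Matrix.add_apply, Matrix.smul_apply, smul_eq_mul, PadicInt.coe_add,
      PadicInt.coe_mul]
    rfl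
  rw [e, mQ_one, add_mulVec, one_mulVec, smul_mulVec]

theorem cmp_zM {R : Type} [CommRing R] (g : Matrix ν ν ℤ) (s : ν → R) :
    zM R (1 + (8 : ℤ) • g) *ᵥ s = s + (8 : R) • (zM R g *ᵥ s) := by
  have e : zM R (1 + (8 : ℤ) • g) = zM R 1 + (8 : R) • zM R g := by
    ext i j
    simp only [zM, map_apply, Matrix.add_apply, Matrix.smul_apply, smul_eq_mul, Int.cast_add,
      Int.cast_mul, Int.cast_ofNat]
  rw [e, cmp_one, add_mulVec, one_mulVec, smul_mulVec]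

/-- A reduced section that is fixed by the eight generators is the reduction of a multiple of
`θ ∘ c`. The generators are `y i = (2 c g)⁻¹ e_i = (2 c M)⁻¹ g⁺ e_i`; the operators
`UAl (M c ^ 2) (qV (y i))` commute on `Γ` (`UA_UA`), have order `2 c M` (`UA_nsmul`, `per`);
`exists_fixed_lift` with `I` the integral elements of `Γ`, `redF_UA` (the component at `P` of
`y i` is integral); then `uniq`. -/
theorem Setup.lift_line (S : Setup P ι) {g : Matrix ν ν ℤ} {M : ℕ} {θ : VA → ℂ}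
    {v : (ν → Fin 2) → ℂ} (hθ : ThLine S.D.Γ g M θ v)
    (hg : gᵀ * Matrix.J (Fin 4) ℤ * g = (M : ℤ) • Matrix.J (Fin 4) ℤ) (hM : ¬ P.1 ∣ M) {c : ℕ}
    (hc : ¬ P.1 ∣ c) {h : Vt P × WW P → kk P} (hh : h ∈ GG S.D S.e (M * c ^ 2))
    (hU : ∀ (i : ν) (y : ν → ℚ), (2 * c) • (zM ℚ g *ᵥ y) = Pi.single i 1 →
      CP.Uop (epsR S.e) (M * c ^ 2) (away P (qV y), 0) h = h) :
    ∃ κ : ℂ, (∀ z, ‖S.e (κ * θ z)‖ ≤ 1) ∧ ∀ x : Vt P, h (x, 0) = res (S.e (κ * θ (c • (x : VA)))) := by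
  have hc0 : c ≠ 0 := fun h0 => hc (h0 ▸ dvd_zero _)
  have hM0 : M ≠ 0 := fun h0 => hM (h0 ▸ dvd_zero _)
  have hN : ¬ P.1 ∣ M * (2 * c) := fun hd =>
    (P.2.dvd_mul.1 hd).elim hM fun hd => (P.2.dvd_mul.1 hd).elim (cmp_two S.odd) hc
  obtain ⟨g', hg'⟩ := cmp_adj hg
  let α := {q : ν × (ν → ℚ) // (2 * c) • (zM ℚ g *ᵥ q.2) = Pi.single q.1 1}
  have : Finite α := Finite.of_injective (fun q : α => q.1.1) fun q q' e => by
    refine Subtype.ext (Prod.ext e ?_)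
    have h1 := q.2
    rw [show q.1.1 = q'.1.1 from e, ← q'.2] at h1
    have h2 := congrArg (zM ℚ g' *ᵥ ·) h1
    simp only [mulVec_smul, hg', smul_smul] at h2
    exact smul_right_injective _ (mul_ne_zero (mul_ne_zero two_ne_zero hc0) hM0) h2
  have := Fintype.ofFinite α
  let I : AddSubgroup (VA → ℂ) :=
    { carrier := {f | f ∈ S.D.Γ (M * c ^ 2) ∧ Intg S.e f}
      add_mem' := fun ha hb => ⟨add_mem ha.1 hb.1, ha.2.add hb.2⟩
      zero_mem' := ⟨zero_mem _, Intg.zero⟩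
      neg_mem' := fun ha => ⟨neg_mem ha.1, ha.2.neg⟩ }
  obtain ⟨f, hf, hi, hfh⟩ := hh
  obtain ⟨F, hF, hFh, hFU⟩ := exists_fixed_lift (k := kk P) I (redF S.e)
    (fun f hf g hg => redF_add hf.2 hg.2) (N := M * (2 * c))
    (fun h0 => hN ((CharP.cast_eq_zero_iff (kk P) P _).1 h0))
    (fun f hf => ⟨Submodule.smul_mem _ _ hf.1, hf.2.smul (by
      rw [map_inv₀, norm_inv, cmp_norm' S.e hN, inv_one])⟩)
    (fun q : α => UAl (M * c ^ 2) (qV q.1.2))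
    (fun q f hf => ⟨S.D.tr _ _ (by
      rw [show 4 * (M * c ^ 2) = 2 * c * (M * (2 * c)) by ring, mul_smul]
      exact TA.nsmul_mem (cmp_gen_mem hg q.2) _) f hf.1, hf.2.UA _ _⟩)
    (fun q q' f _ => by
      change UA _ _ (UA _ _ f) = UA _ _ (UA _ _ f)
      rw [UA_UA, UA_UA, add_comm (qV q.1.2)]
      congr 1
      refine psi_congr ?_
      have h1 := EB_mem (cmp_single q'.1.1) (cmp_single q.1.1)
      rw [← cmp_gen q.2, ← cmp_gen q'.2, cmp_EB hg, ← Nat.cast_smul_eq_nsmul Af,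
        ← Nat.cast_smul_eq_nsmul Af, EB_smul_left, EB_smul_right] at h1
      rw [EB_swap (qV q'.1.2)]
      refine (congrArg (· ∈ Zh) ?_).mp h1
      push_cast
      ring)
    (fun q f hf => by
      rw [Module.End.pow_apply]
      exact (UA_nsmul _ _ _ f).trans (S.D.per _ _ (cmp_gen_mem hg q.2) f hf.1))
    h (fun q f hf e => by
      change redF S.e (UA _ _ f) = h
      rw [redF_UA S.D hf.1 hf.2, e,
        (QuotientAddGroup.eq_zero_iff _).2 (cmp_unit hN (cmp_gen_mem hg q.2))]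
      exact hU _ _ q.2) (f := f) ⟨hf, hi⟩ hfh Finset.univ
  obtain ⟨κ, hκ⟩ := hθ.uniq c (Nat.pos_of_ne_zero hc0) F hF.1 fun i y hy =>
    hFU ⟨(i, y), hy⟩ (Finset.mem_univ _)
  refine ⟨κ, fun z => ?_, fun x => ?_⟩
  · have h1 := hF.2 ((c : ℚ)⁻¹ • z)
    rwa [hκ, ← Nat.cast_smul_eq_nsmul ℚ, smul_inv_smul₀ (Nat.cast_ne_zero.2 hc0)] at h1
  · rw [← hFh, redF_zero_right S.D hF.1 hF.2, hκ]

theorem cmp_four (η : ν → Fin 2) : 4 • qV (fun i => ((η i : ℕ) : ℚ) / 4) ∈ TA :=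
  mem_TA.2 fun i => by
    have e : (4 • qV fun i => ((η i : ℕ) : ℚ) / 4) i = ((η i : ℕ) : Af) := by
      rw [Pi.smul_apply, qV, qA, ← map_nsmul, ← map_natCast (algebraMap ℚ Af)]
      congr 1
      rw [nsmul_eq_mul]
      push_cast
      ring
    rw [e]
    exact natCast_mem Zh _

/-- The value at the part of `η / 4` away from `P`, translated by `y` with `2 g y ∈ 4 TA`. -/
theorem ThLine.shift {Γ : ℕ → Submodule ℂ (VA → ℂ)} {g : Matrix ν ν ℤ} {M : ℕ} {θ : VA → ℂ}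
    {v : (ν → Fin 2) → ℂ} (hθ : ThLine Γ g M θ v)
    (hg : gᵀ * Matrix.J (Fin 4) ℤ * g = (M : ℤ) • Matrix.J (Fin 4) ℤ) (η : ν → Fin 2) {y b : VA}
    (hb : b ∈ TA) (hy : zM Af g *ᵥ y = 2 • b) :
    θ (qV (fun i => ((η i : ℕ) : ℚ) / 4) + y) = v η := by
  have h1 := hθ.eig y (by rw [hy]; exact TA.nsmul_mem (TA.nsmul_mem hb 2) 2)
  have h2 : chiA (2 • (zM Af g *ᵥ y)) = 1 := by
    rw [hy, ← zero_add (2 • 2 • b), chiA_add_two TA.zero_mem (TA.nsmul_mem hb 2)]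
    simp [chiA]
  have h3 := EB_mem hb (cmp_TA g (cmp_four η))
  have h4 := cmp_EB hg y (qV fun i => ((η i : ℕ) : ℚ) / 4)
  rw [hy, ← Nat.cast_smul_eq_nsmul Af, EB_smul_left] at h4
  rw [mulVec_smul, ← Nat.cast_smul_eq_nsmul Af, EB_smul_right] at h3
  rw [apply_add_of_UA h1, h2, hθ.val, one_mul, psi_eq_one.2, one_mul]
  refine Zh.neg_mem ((congrArg (· ∈ Zh) ?_).mp h3)
  push_cast at h4 ⊢
  linear_combination 2 * h4

/-- Normalise `θ'` by its largest theta constant (`bound`, `ne`), reduce, apply `hmain`. The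
result `h` is fixed by the generators (`inj`, `hγ`, `eig` for `θ'` at `γ (c y)`, `hW`,
`chiA_single`). Then `lift_line`, evaluate at `c⁻¹ • away P (η / 4)`, `shift`. -/
theorem Setup.cmp (S : Setup P ι) {g g' : Matrix ν ν ℤ} {M M' : ℕ} {θ θ' : VA → ℂ}
    {v v' : (ν → Fin 2) → ℂ} (hθ : ThLine S.D.Γ g M θ v) (hθ' : ThLine S.D.Γ g' M' θ' v')
    (hg : gᵀ * Matrix.J (Fin 4) ℤ * g = (M : ℤ) • Matrix.J (Fin 4) ℤ)
    (hg' : g'ᵀ * Matrix.J (Fin 4) ℤ * g' = (M' : ℤ) • Matrix.J (Fin 4) ℤ)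
    (hM : ¬ P.1 ∣ M) (hM' : ¬ P.1 ∣ M') (h8 : ∀ i j, (8 : ℤ) ∣ (g - 1) i j)
    (h8' : ∀ i j, (8 : ℤ) ∣ (g' - 1) i j) (γ : Vt P →ₗ[ℚ] Vt P)
    (hγ : ∀ x y : Vt P, (M' : Af) * EB (γ x : VA) (γ y : VA) = (M : Af) * EB (x : VA) (y : VA))
    (hW : ∀ l : Nat.Primes, l ≠ P → ∃ W : Matrix ν ν ℤ_[l],
      (∀ x : Vt P, zM ℚ_[l] g' *ᵥ cV l (γ x : VA) = mQ W *ᵥ (zM ℚ_[l] g *ᵥ cV l (x : VA))) ∧
      ∀ a b, (8 : ℤ_[l]) ∣ (W - 1) a b)
    {c : ℕ} (hc : ¬ P.1 ∣ c)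
    (hmain : ∀ f ∈ GG S.D S.e M', ∃ h ∈ GG S.D S.e (M * c ^ 2), ∀ x : Vt P,
      h (x, 0) = f (γ (c • x), 0)) :
    SameRed S.e v v' := by
  have hc0 : c ≠ 0 := fun h0 => hc (h0 ▸ dvd_zero _)
  obtain ⟨η0, -, hmax⟩ := Finset.univ.exists_max_image (fun η => ‖S.e (v' η)‖) Finset.univ_nonempty
  have h0 : v' η0 ≠ 0 := fun h0 => by
    obtain ⟨η, hη⟩ := hθ'.ne
    have h1 := hmax η (Finset.mem_univ _)
    rw [h0, map_zero, norm_zero, norm_le_zero_iff, map_eq_zero] at h1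
    exact hη h1
  have hf : (v' η0)⁻¹ • θ' ∈ S.D.Γ M' := Submodule.smul_mem _ _ hθ'.mem
  have hi : Intg S.e ((v' η0)⁻¹ • θ') := fun x => by
    obtain ⟨η, hη⟩ := hθ'.bound (abv S.e) (abv_na S.e) (cmp_norm' S.e (cmp_two S.odd)) x
    rw [Pi.smul_apply, smul_eq_mul, map_mul, norm_mul, map_inv₀, norm_inv]
    exact inv_mul_le_one_of_le₀ (le_trans hη (hmax η (Finset.mem_univ _))) (norm_nonneg _)
  obtain ⟨h, hh, hx⟩ := hmain _ ⟨_, hf, hi, rfl⟩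
  simp only [redF_zero_right S.D hf hi] at hx
  obtain ⟨κ, hκ, hκ'⟩ := S.lift_line hθ hg hM hc hh fun i y hy => by
    have h1 : (4 * (M * c ^ 2)) • away P (qV y) ∈ Lam P := by
      rw [← map_nsmul, show 4 * (M * c ^ 2) = 2 * c * (M * (2 * c)) by ring, mul_smul]
      exact away_mem_Lam P (TA.nsmul_mem (cmp_gen_mem hg hy) _)
    rw [← sub_eq_zero]
    refine S.inj _ _ (sub_mem (GG_tr S.D S.e _ (away P (qV y), 0) h1 (smul_zero _) h hh) hh)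
      fun x => ?_
    obtain ⟨b, hb, e⟩ := cmp_half S.odd
      (a := 2 • (zM Af g' *ᵥ (γ (c • away P (qV y)) : VA)) - Pi.single i 1) (by
        rw [cV_sub, cV_nsmul, cmp_cV, cV_Vt, mulVec_zero, smul_zero, zero_sub]
        exact (IV P).neg_mem (mem_TA_iff.1 (cmp_single i) P)) fun l hl => by
        obtain ⟨W, h2, h3⟩ := hW l hl
        obtain ⟨W0, rfl⟩ := cmp_eight h3
        have h4 := congrArg (cV l) (cmp_gen hy)
        rw [cmp_cV, cV_nsmul, mulVec_smul] at h4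
        refine ⟨4 • (mQ W0 *ᵥ cV l (Pi.single i 1)), (IV l).nsmul_mem
          (mQ_mulVec_le _ (mem_TA_iff.1 (cmp_single i) l)) 4, ?_⟩
        rw [cV_sub, cV_nsmul, cmp_cV, h2, cmp_mQ, Submodule.coe_smul_of_tower, cV_nsmul,
          cV_away_ne hl, ← h4]
        simp only [mulVec_smul]
        push_cast
        module
    rw [sub_eq_iff_eq_add'] at e
    have h2 := hθ'.eig (γ (c • away P (qV y))) (by
      rw [e]; exact TA.add_mem (cmp_single i) (TA.nsmul_mem hb 2))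
    rw [chiA_single i hb e] at h2
    have h3 : ((2 * M' : ℕ) : Af) * EB (γ (c • away P (qV y)) : VA) (γ (c • x) : VA) =
        ((2 * (M * c ^ 2) : ℕ) : Af) * EB (away P (qV y) : VA) (x : VA) := by
      have h4 := hγ (c • away P (qV y)) (c • x)
      rw [Submodule.coe_smul_of_tower, Submodule.coe_smul_of_tower,
        ← Nat.cast_smul_eq_nsmul Af c (away P (qV y) : VA), ← Nat.cast_smul_eq_nsmul Af c (x : VA),
        EB_smul_left, EB_smul_right] at h4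
      push_cast
      linear_combination 2 * h4
    simp only [Pi.sub_apply, CP.Uop, Prod.mk_add_mk, add_zero, hx, smul_add, map_add,
      Submodule.coe_add, Pi.smul_apply, smul_eq_mul, apply_add_of_UA h2, h3, epsR_pow, one_mul]
    rw [mul_left_comm (v' η0)⁻¹, map_mul S.e (psi _),
      res_mul (y := S.e ((v' η0)⁻¹ * θ' _)) (norm_e_psi _ _).le (hi _), ← mul_assoc,
      ← res_psi_add, add_neg_cancel, psi_zero, map_one, res_one, one_mul, sub_self]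
  have hval : ∀ η, ‖S.e ((v' η0)⁻¹ * v' η)‖ ≤ 1 := fun η => by
    rw [← hθ'.val η]
    exact hi _
  refine ⟨κ, (v' η0)⁻¹, hval, ⟨η0, by rw [inv_mul_cancel₀ h0, map_one, norm_one]⟩, fun η => ?_⟩
  have h4 : ¬ P.1 ∣ 4 := fun hd => cmp_two S.odd (P.2.dvd_of_dvd_pow (n := 2) (m := 2) hd)
  have hq := cmp_unit h4 (cmp_four η)
  have h1 := (hκ' ((c : ℚ)⁻¹ • away P (qV fun i => ((η i : ℕ) : ℚ) / 4))).symm.trans (hx _)
  rw [← Submodule.coe_smul_of_tower, ← Nat.cast_smul_eq_nsmul ℚ,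
    smul_inv_smul₀ (Nat.cast_ne_zero.2 hc0)] at h1
  have h2 : θ (away P (qV fun i => ((η i : ℕ) : ℚ) / 4)) = v η := by
    obtain ⟨b, hb, e⟩ := cmp_half S.odd
      (a := zM Af g *ᵥ (-iV P (cV P (qV fun i => ((η i : ℕ) : ℚ) / 4)))) (by
        rw [← map_neg, cmp_cV, cV_iV_self]
        exact cmp_IV g ((IV P).neg_mem hq)) fun l hl =>
        ⟨0, zero_mem _, by rw [← map_neg, cmp_cV, cV_iV_ne hl, mulVec_zero, smul_zero]⟩
    rw [coe_away, sub_eq_add_neg, hθ.shift hg η hb e]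
  have h3 : θ' (γ (away P (qV fun i => ((η i : ℕ) : ℚ) / 4))) = v' η := by
    obtain ⟨b, hb, e⟩ := cmp_half S.odd
      (a := zM Af g' *ᵥ ((γ (away P (qV fun i => ((η i : ℕ) : ℚ) / 4)) : VA) -
        qV fun i => ((η i : ℕ) : ℚ) / 4)) (by
        rw [cmp_cV, cV_sub, cV_Vt, zero_sub]
        exact cmp_IV g' ((IV P).neg_mem hq)) fun l hl => by
        obtain ⟨W, h5, h6⟩ := hW l hl
        obtain ⟨W0, rfl⟩ := cmp_eight h6
        obtain ⟨g0, e0⟩ := cmp_eight h8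
        obtain ⟨g0', e0'⟩ := cmp_eight h8'
        have h7 : cV l (4 • qV fun i => ((η i : ℕ) : ℚ) / 4) ∈ IV l := mem_TA_iff.1 (cmp_four η) l
        refine ⟨_, (IV l).sub_mem ((IV l).add_mem (mQ_mulVec_le W0 (cmp_IV g h7)) (cmp_IV g0 h7))
          (cmp_IV g0' h7), ?_⟩
        rw [cmp_cV, cV_sub, mulVec_sub, h5, cmp_mQ, cV_away_ne hl, cV_nsmul]
        conv_lhs => rw [e0', cmp_zM]
        nth_rewrite 1 [e0]
        rw [cmp_zM]
        simp only [mulVec_smul]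
        push_cast
        module
    rw [← hθ'.shift hg' η hb e, add_sub_cancel]
  rw [Pi.smul_apply, smul_eq_mul, h3, res_eq_iff (hκ _) (hval η), h2, ← map_sub] at h1
  exact h1

end

end M4.B2
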