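import Pool.Agent.Lib.MP_33b3f9_ag.M4.B2.FaceC
import Pool.Agent.Lib.MP_33b3f9_ag.M4.B2.Mu

/-!
Consequences of the cube datum.
-/

set_option autoImplicit false

namespace M4.B2

open Matrix Polynomial

noncomputable section

variable {p : ℕ} [Fact p.Prime] {Q : ℤ[X]} {γ : ℚ[X]} {c : ℚ}

theorem cubeP_sub {Ω : Type} [NormedField Ω] [IsUltrametricDist Ω] {x y : Ω} {r : ℝ}
    (hx : ‖x‖ ≤ r) (hy : ‖y‖ ≤ r) : ‖x - y‖ ≤ r := by
  rw [sub_eq_add_neg]
  exact (IsUltrametricDist.norm_add_le_max _ _).trans (max_le hx (by rwa [norm_neg]))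

theorem cubeP_one {Ω : Type} [NormedField Ω] [IsUltrametricDist Ω] {x y : Ω}
    (hx : ‖x‖ = 1) (hy : ‖y‖ < 1) : ‖x - y‖ = 1 := by
  rw [sub_eq_add_neg, IsUltrametricDist.norm_add_eq_max_of_norm_ne_norm
    (by rw [hx, norm_neg]; exact hy.ne'), hx, norm_neg, max_eq_left hy.le]

/-- The Newton polygon of a polynomial with roots of norm `1` or `ρ`. -/
theorem cubeP_newton {Ω ι : Type} [NormedField Ω] [IsUltrametricDist Ω] {ρ : ℝ} (h0 : 0 ≤ ρ)
    (h1 : ρ < 1) (f : ι → Ω) (w : ι → ℕ) (hw : ∀ i, w i ≤ 1) (hf : ∀ i, ‖f i‖ = ρ ^ w i)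
    (s : Finset ι) : (∀ k, ‖(∏ i ∈ s, (X - C (f i))).coeff k‖ ≤ ρ ^ (∑ i ∈ s, w i - k)) ∧
      ‖(∏ i ∈ s, (X - C (f i))).coeff (∑ i ∈ s, w i)‖ = 1 := by
  classical
  induction s using Finset.induction_on with
  | empty => exact ⟨fun k => by rw [Finset.prod_empty, coeff_one]; split_ifs <;> simp, by simp⟩
  | insert a s ha ih =>
    rw [Finset.prod_insert ha, Finset.sum_insert ha]
    generalize ∏ i ∈ s, (X - C (f i)) = P at ih
    generalize ∑ i ∈ s, w i = W at ih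
    obtain ⟨i1, i2⟩ := ih
    have h2 : ∀ k, ‖f a * P.coeff k‖ ≤ ρ ^ (w a + (W - k)) := fun k => by
      rw [norm_mul, hf, pow_add]
      exact mul_le_mul_of_nonneg_left (i1 k) (pow_nonneg h0 _)
    have h3 : ((X - C (f a)) * P).coeff 0 = -(f a * P.coeff 0) := by simp
    have h4 := hw a
    refine ⟨fun k => ?_, ?_⟩
    · obtain _ | k := k
      · rw [h3, norm_neg]
        exact h2 0
      · rw [coeff_X_sub_C_mul]
        exact cubeP_sub ((i1 k).trans (pow_le_pow_of_le_one h0 h1.le (by omega)))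
          ((h2 _).trans (pow_le_pow_of_le_one h0 h1.le (by omega)))
    · obtain h5 | h5 : w a = 0 ∨ w a = 1 := by omega
      · have h6 : ‖f a * P.coeff W‖ = 1 := by rw [norm_mul, hf, h5, i2, pow_zero, one_mul]
        rw [h5, zero_add]
        obtain _ | W := W
        · rw [h3, norm_neg, h6]
        · rw [coeff_X_sub_C_mul, norm_sub_rev]
          exact cubeP_one h6 ((i1 W).trans_lt (pow_lt_one₀ h0 h1 (by omega)))
      · rw [h5, add_comm, coeff_X_sub_C_mul]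
        exact cubeP_one i2 ((h2 _).trans_lt (pow_lt_one₀ h0 h1 (by omega)))

/-- `‖u 0‖ = ‖p‖`. Split the product into the four factors with `ε 0 = 0` (unit roots) and the four
with `ε 0 = 1` (roots of norm `‖p‖`); coefficient `i` of the second product has norm at most
`‖p‖ ^ (4 - i)`; `Polynomial.coeff_mul`. -/
theorem Cube.ord (h : Cube (PadicAlgCl p) p Q γ c) :
    ¬ (p : ℤ) ∣ Q.coeff 4 ∧ ∀ i < 4, (p : ℤ) ^ (4 - i) ∣ Q.coeff i := by
  obtain ⟨β, u, d, hQ, hp, nβ, n0, n1, n2, -⟩ := h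
  have hn : ∀ z : ℤ, ‖(z : PadicAlgCl p)‖ = ‖(z : ℚ_[p])‖ := fun z => by
    rw [← PadicAlgCl.norm_extends p, map_intCast]
  have hu : ‖u 0‖ = (p : ℝ)⁻¹ := by
    have h1 := congrArg norm hp
    rwa [Fin.prod_univ_three, norm_mul, norm_mul, norm_mul, norm_pow, nβ, n1, n2, one_pow, one_mul,
      mul_one, mul_one, ← Int.cast_natCast, hn, Int.cast_natCast, Padic.norm_p] at h1
  obtain ⟨h1, h2⟩ := cubeP_newton (norm_nonneg (u 0)) n0 (vert β u) (fun ε => ε 0)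
    (fun ε => Nat.lt_succ_iff.1 (ε 0).2)
    (fun ε => by simp [vert, Fin.prod_univ_three, nβ, n1, n2]) Finset.univ
  rw [← hQ, show ∑ ε : Fin 3 → Fin 2, (ε 0 : ℕ) = 4 by decide] at h1 h2
  simp only [coeff_map, eq_intCast, hn] at h1 h2
  refine ⟨fun h3 => (Padic.norm_intCast_lt_one_iff.2 h3).ne h2, fun i _ => ?_⟩
  rw [← Padic.norm_int_le_pow_iff_dvd, _root_.zpow_neg, zpow_natCast, ← inv_pow, ← hu]
  exact h1 i

theorem aeval_recip {A : Type} [Field A] {δ : ℤ[X]} {m : ℕ} (hm : δ.natDegree ≤ m) {α : A}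
    (hα : α ≠ 0) : aeval α (CP.recip p m δ) = α ^ m * aeval ((p : A) / α) δ := by
  rw [aeval_eq_sum_range' (Nat.lt_succ_of_le hm), CP.recip, map_sum, Finset.mul_sum]
  refine Finset.sum_congr rfl fun i hi => ?_
  obtain ⟨k, rfl⟩ := Nat.exists_eq_add_of_le (Nat.lt_succ_iff.1 (Finset.mem_range.1 hi))
  rw [aeval_monomial, Nat.add_sub_cancel_left, eq_intCast, zsmul_eq_mul, div_pow]
  push_cast
  field_simp
  ring

theorem cubeP_aeval {Ω : Type} [Field Ω] [Algebra ℚ Ω] {δ : ℤ[X]} {N : ℤ}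
    (hδ : δ.map (Int.castRingHom ℚ) = C (N : ℚ) * γ) (α : Ω) : aeval α δ = N * aeval α γ := by
  rw [← aeval_map_algebraMap ℚ, algebraMap_int_eq, hδ, map_mul, aeval_C, map_intCast]

theorem cubeP_vert {Ω : Type} [Field Ω] {β : Ω} {u : Fin 3 → Ω} {P : Ω} (hP : P ≠ 0)
    (h : β ^ 2 * ∏ i, u i = P) (ε : Fin 3 → Fin 2) :
    vert β u ε ≠ 0 ∧ P / vert β u ε = vert β u fun i => (ε i).rev := by
  have h1 : vert β u (fun i => (ε i).rev) * vert β u ε = P := by
    rw [vert, vert, mul_mul_mul_comm, ← sq, ← Finset.prod_mul_distrib, ← h]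
    congr 1
    refine Finset.prod_congr rfl fun i _ => ?_
    generalize ε i = e
    fin_cases e <;> simp
  have h2 : vert β u ε ≠ 0 := right_ne_zero_of_mul (h1 ▸ hP)
  exact ⟨h2, (div_eq_iff h2).2 h1.symm⟩

theorem cubeP_inj {Ω ι : Type} [Field Ω] [Algebra ℚ Ω] [Fintype ι] {f : ι → Ω}
    (h : Q.map (Int.castRingHom Ω) = ∏ ε, (X - C (f ε)))
    (hs : (Q.map (Int.castRingHom ℚ)).Separable) : Function.Injective f := by
  have h1 := hs.map (f := algebraMap ℚ Ω)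
  rwa [Polynomial.map_map, Subsingleton.elim (RingHom.comp _ _) (Int.castRingHom Ω), h,
    separable_prod_X_sub_C_iff] at h1

/-- Evaluate at the eight distinct roots; `p / vert ε = vert (1 - ε)`. Divisibility descends from
the algebraic closure to `ℤ` because `Q` is monic (`Polynomial.map_dvd_map`). -/
theorem Cube.recip_dvd (h : Cube (PadicAlgCl p) p Q γ c) (hQ : Q.Monic)
    (hs : (Q.map (Int.castRingHom ℚ)).Separable) {δ : ℤ[X]} {N D : ℤ} {m : ℕ}
    (hδ : δ.map (Int.castRingHom ℚ) = C (N : ℚ) * γ) (hm : δ.natDegree ≤ m)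
    (hD : (D : ℚ) = (N : ℚ) ^ 2 * c) : Q ∣ δ * CP.recip p m δ - C D * X ^ m := by
  obtain ⟨β, u, d, h1, hp, -, -, -, -, -, -, hγ, -, -, -, hc⟩ := h
  rw [← map_dvd_map (Int.castRingHom (PadicAlgCl p)) Int.cast_injective hQ, h1]
  refine Fintype.prod_dvd_of_coprime (pairwise_coprime_X_sub_C (cubeP_inj h1 hs)) fun ε => ?_
  obtain ⟨h2, h3⟩ := cubeP_vert (Nat.cast_ne_zero.2 (Fact.out : p.Prime).ne_zero) hp ε
  have h4 : (D : PadicAlgCl p) = N ^ 2 * c := by
    simpa using congrArg (algebraMap ℚ (PadicAlgCl p)) hD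
  have h5 : (∏ i, d i (ε i)) * ∏ i, d i (ε i).rev = c := by
    rw [← hc, ← Finset.prod_mul_distrib]
    refine Finset.prod_congr rfl fun i _ => ?_
    generalize ε i = e
    fin_cases e <;> simp [mul_comm]
  rw [dvd_iff_isRoot, IsRoot, ← algebraMap_int_eq, eval_map_algebraMap, map_sub, map_mul, map_mul,
    aeval_recip hm h2, h3, cubeP_aeval hδ, cubeP_aeval hδ, hγ, hγ, aeval_C, aeval_X_pow, eq_intCast,
    h4, ← h5]
  ring

theorem cubeP_pow {Ω : Type} [NormedField Ω] [IsUltrametricDist Ω] {u a b : Ω} (hu : ‖u‖ = 1)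
    (ha : ‖a‖ ≤ 1) (h : ‖a - b‖ ≤ ‖u - 1‖) (m : ℕ) : ‖b - u ^ m * a‖ ≤ ‖u - 1‖ := by
  induction m with
  | zero => rwa [pow_zero, one_mul, norm_sub_rev]
  | succ m ih =>
    rw [show b - u ^ (m + 1) * a = b - u ^ m * a - (u - 1) * (u ^ m * a) by ring]
    refine cubeP_sub ih ?_
    rw [norm_mul, norm_mul, norm_pow, hu, one_pow, one_mul]
    exact mul_le_of_le_one_right (norm_nonneg _) ha

/-- The face `ε 0 = 0`. For the reciprocal polynomial take `d₁ i = u ^ (m i) * d 1 (1 - i)`. -/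
theorem Cube.face (h : Cube (PadicAlgCl p) p Q γ c)
    (hs : (Q.map (Int.castRingHom ℚ)).Separable) :
    ∃ β u v : PadicAlgCl p, Sq β u v ∧
      (∀ i j : Fin 2, aeval (β * u ^ (i : ℕ) * v ^ (j : ℕ)) Q = 0) ∧
      ∀ (δ : ℤ[X]) (j m : ℕ) (N : ℤ),
        δ.map (Int.castRingHom ℚ) = C (((p : ℤ) ^ j * N : ℤ) : ℚ) * γ → δ.natDegree ≤ m →
        Prod2 β u v (C ((p : PadicAlgCl p) ^ j)⁻¹ * δ.map (Int.castRingHom _)) ∧
        Prod2 β u v (C ((p : PadicAlgCl p) ^ j)⁻¹ * (CP.recip p m δ).map (Int.castRingHom _)) := by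
  obtain ⟨β, u, d, h1, hp, nβ, -, n1, n2, s1, s2, hγ, nd, d1, d2, -⟩ := h
  have hv : ∀ i j : Fin 2, β * u 1 ^ (i : ℕ) * u 2 ^ (j : ℕ) = vert β u ![0, i, j] :=
    fun i j => by simp [vert, Fin.prod_univ_three, mul_assoc]
  have hp0 : (p : PadicAlgCl p) ≠ 0 := Nat.cast_ne_zero.2 (Fact.out : p.Prime).ne_zero
  refine ⟨β, u 1, u 2, ⟨nβ, n1, n2, s1, s2, fun q q' h => ?_⟩, fun i j => ?_,
    fun δ j m N hδ hm => ⟨?_, ?_⟩⟩
  · have h2 := cubeP_inj h1 hs ((hv _ _).symm.trans (h.trans (hv _ _)))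
    exact Prod.ext (congrFun h2 1) (congrFun h2 2)
  · rw [hv, ← eval_map_algebraMap, RingHom.ext_int (algebraMap ℤ _) (Int.castRingHom _), h1,
      eval_prod]
    exact Finset.prod_eq_zero (Finset.mem_univ ![0, i, j]) (by simp)
  · refine ⟨N * d 0 0, d 1, d 2, ?_, nd 1, nd 2, d1, d2, fun a b => ?_⟩
    · rw [norm_mul]
      exact mul_le_one₀ (IsUltrametricDist.norm_intCast_le_one _ N) (norm_nonneg _) (nd 0 0)
    · rw [eval_mul, eval_C, ← algebraMap_int_eq, eval_map_algebraMap, cubeP_aeval hδ, hv, hγ,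
        Fin.prod_univ_three]
      simp only [Matrix.cons_val]
      push_cast
      field_simp
  · refine ⟨β ^ m * (N * d 0 1), fun a => (u 1 ^ (a : ℕ)) ^ m * d 1 a.rev,
      fun a => (u 2 ^ (a : ℕ)) ^ m * d 2 a.rev, ?_, fun a => by simpa [n1] using nd 1 a.rev,
      fun a => by simpa [n2] using nd 2 a.rev, by simpa using cubeP_pow n1 (nd 1 0) d1 m,
      by simpa using cubeP_pow n2 (nd 2 0) d2 m, fun a b => ?_⟩
    · rw [norm_mul, norm_pow, nβ, one_pow, one_mul, norm_mul]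
      exact mul_le_one₀ (IsUltrametricDist.norm_intCast_le_one _ N) (norm_nonneg _) (nd 0 1)
    · obtain ⟨h2, h3⟩ := cubeP_vert hp0 hp ![0, a, b]
      rw [eval_mul, eval_C, ← algebraMap_int_eq, eval_map_algebraMap, hv, aeval_recip hm h2, h3,
        cubeP_aeval hδ, hγ, Fin.prod_univ_three, ← hv]
      simp only [Matrix.cons_val, Fin.rev_zero, Fin.reduceLast, mul_pow]
      push_cast
      field_simp

/-- `EB (δ(π) x) (π ^ m y) = EB x (δ'(π) y)` on monomials; `π ^ m` is onto. -/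
theorem sim_aeval {k : Type} [Field k] {π : Matrix ν ν k} (hu : IsUnit π)
    (hπ : ∀ x y, EB (π *ᵥ x) (π *ᵥ y) = (p : k) * EB x y) {δ : ℤ[X]} {m : ℕ} {D : ℤ}
    (hm : δ.natDegree ≤ m) (h : aeval π (δ * CP.recip p m δ - C D * X ^ m) = 0) (x y : ν → k) :
    EB (aeval π δ *ᵥ x) (aeval π δ *ᵥ y) = (D : k) * EB x y := by
  have h1 : ∀ (i : ℕ) x y, EB ((π ^ i) *ᵥ x) ((π ^ i) *ᵥ y) = (p : k) ^ i * EB x y := fun i => by
    induction i with
    | zero => simp
    | succ i ih =>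
      intro x y
      rw [pow_succ', ← mulVec_mulVec, ← mulVec_mulVec, hπ, ih, pow_succ', mul_assoc]
  have h2 : ∀ (s : Finset ℕ) (a b : ℕ → ν → k) (x y : ν → k),
      (∀ i ∈ s, EB (a i) y = EB x (b i)) → EB (∑ i ∈ s, a i) y = EB x (∑ i ∈ s, b i) := by
    intro s a b x y
    induction s using Finset.induction_on with
    | empty => simp
    | insert i s hi ih =>
      intro h
      rw [Finset.forall_mem_insert] at h
      rw [Finset.sum_insert hi, Finset.sum_insert hi, EB_add_left, EB_add_right, h.1, ih h.2]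
  have h3 : ∀ x y, EB (aeval π δ *ᵥ x) ((π ^ m) *ᵥ y) = EB x (aeval π (CP.recip p m δ) *ᵥ y) := by
    intro x y
    rw [aeval_eq_sum_range' (Nat.lt_succ_of_le hm), CP.recip, map_sum, sum_mulVec, sum_mulVec]
    refine h2 _ _ _ _ _ fun i hi => ?_
    obtain ⟨l, rfl⟩ := Nat.exists_eq_add_of_le (Nat.lt_succ_iff.1 (Finset.mem_range.1 hi))
    rw [aeval_monomial, Nat.add_sub_cancel_left, ← Algebra.smul_def, ← Int.cast_smul_eq_zsmul k,
      ← Int.cast_smul_eq_zsmul k, smul_mulVec, smul_mulVec, EB_smul_left, EB_smul_right, pow_add,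
      ← mulVec_mulVec, h1]
    push_cast
    ring
  obtain ⟨y, rfl⟩ := mulVec_surjective_iff_isUnit.2 (hu.pow m) y
  have h4 : aeval π δ * π ^ m = π ^ m * aeval π δ := by
    rw [← aeval_X_pow (R := ℤ), ← map_mul, ← map_mul, mul_comm]
  rw [mul_comm δ, map_sub, sub_eq_zero, map_mul, map_mul, aeval_C, aeval_X_pow, ← Algebra.smul_def,
    ← Int.cast_smul_eq_zsmul k] at h
  rw [mulVec_mulVec, h4, ← mulVec_mulVec, h3, mulVec_mulVec, h, smul_mulVec, EB_smul_right]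

/-- Clear denominators; the common denominator can be taken divisible by `M`. -/
theorem exists_den (γ : ℚ[X]) (M : ℕ) : ∃ (δ : ℤ[X]) (j c : ℕ), ¬ p ∣ c ∧
    δ.map (Int.castRingHom ℚ) = C (((p : ℤ) ^ j * (M * c : ℕ) : ℤ) : ℚ) * γ := by
  obtain ⟨b, hb, h⟩ := IsLocalization.integerNormalization_spec (nonZeroDivisors ℤ) γ
  obtain ⟨j, c, hc, h1⟩ := Nat.exists_eq_pow_mul_and_not_dvd
    (Int.natAbs_ne_zero.2 (nonZeroDivisors.ne_zero hb)) p (Fact.out : p.Prime).ne_one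
  refine ⟨C (M * b.sign) * IsLocalization.integerNormalization (nonZeroDivisors ℤ) γ, j, c, hc, ?_⟩
  have h2 : (p : ℤ) ^ j * (M * c : ℕ) = M * b.sign * b := by
    rw [mul_assoc, Int.sign_mul_self_eq_natAbs, h1]
    push_cast
    ring
  rw [Polynomial.map_mul, map_C, ← algebraMap_int_eq, h, h2, zsmul_eq_mul, ← mul_assoc,
    ← C_eq_intCast, ← C_mul, eq_intCast, Int.cast_mul _ b]

end

end M4.B2
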