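import Pool.Agent.Lib.MP_33b3f9_ag.M4.B2.Res

/-!
Frobenius elements.
-/

set_option autoImplicit false

namespace M4.B2

open Matrix Polynomial

noncomputable section

variable {p : ℕ} [Fact p.Prime]

theorem frob_norm_int (c : ℤ_[p]) : ‖algebraMap ℤ_[p] (PadicAlgCl p) c‖ = ‖c‖ := by
  rw [IsScalarTower.algebraMap_apply ℤ_[p] ℚ_[p] (PadicAlgCl p)]
  exact PadicAlgCl.norm_extends p (c : ℚ_[p])

theorem frob_norm_le (c : ℤ_[p]) : ‖algebraMap ℤ_[p] (PadicAlgCl p) c‖ ≤ 1 := by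
  rw [frob_norm_int]
  exact c.norm_le_one

theorem frob_res_int (c : ℤ_[p]) : res (algebraMap ℤ_[p] (PadicAlgCl p) c) ^ p =
    res (algebraMap ℤ_[p] (PadicAlgCl p) c) := by
  have h1 := PadicInt.appr_spec 1 c
  rw [Ideal.mem_span_singleton, pow_one, ← PadicInt.norm_lt_one_iff_dvd, ← frob_norm_int,
    map_sub, ← res_eq_iff (frob_norm_le _) (frob_norm_le _), map_natCast, res_natCast] at h1
  rw [h1]
  exact map_natCast (frobenius (kk p) p) _

theorem frob_res_aeval (g : ℤ_[p][X]) {x : PadicAlgCl p} (hx : ‖x‖ ≤ 1) :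
    ‖aeval x g‖ ≤ 1 ∧ res (aeval x g) = ∑ i ∈ Finset.range (g.natDegree + 1),
      res (algebraMap ℤ_[p] (PadicAlgCl p) (g.coeff i)) * res x ^ i := by
  have hp : ∀ i : ℕ, ‖x ^ i‖ ≤ 1 := fun i => by
    rw [norm_pow]; exact pow_le_one₀ (norm_nonneg _) hx
  have ht : ∀ i ∈ Finset.range (g.natDegree + 1), ‖g.coeff i • x ^ i‖ ≤ 1 := fun i _ => by
    rw [Algebra.smul_def, norm_mul]
    exact mul_le_one₀ (frob_norm_le _) (norm_nonneg _) (hp i)
  rw [aeval_eq_sum_range]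
  refine ⟨IsUltrametricDist.norm_sum_le_of_forall_le_of_nonneg zero_le_one ht, ?_⟩
  rw [res_sum _ ht]
  refine Finset.sum_congr rfl fun i _ => ?_
  rw [Algebra.smul_def, res_mul (frob_norm_le _) (hp i), res_pow hx]

theorem frob_prod (m : Multiset (PadicAlgCl p)) (h : ‖m.prod‖ < 1) : ∃ r ∈ m, ‖r‖ < 1 := by
  induction m using Multiset.induction_on with
  | empty => simp at h
  | cons a m ih =>
    by_cases ha : ‖a‖ < 1
    · exact ⟨a, Multiset.mem_cons_self _ _, ha⟩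
    · rw [Multiset.prod_cons, norm_mul] at h
      have h2 : ‖m.prod‖ < 1 := by
        by_contra h3
        exact absurd h (not_lt.2 (one_le_mul_of_one_le_of_one_le (not_lt.1 ha) (not_lt.1 h3)))
      obtain ⟨r, hr, hr1⟩ := ih h2
      exact ⟨r, Multiset.mem_cons_of_mem hr, hr1⟩

omit [Fact p.Prime] in
theorem frob_pos {n : ℕ} (hn : ¬ p ∣ n) : 0 < n :=
  Nat.pos_of_ne_zero fun h => hn (h ▸ dvd_zero p)

theorem frob_root_eq {a b : PadicAlgCl p} {n : ℕ} (hn : ¬ p ∣ n) (ha : a ^ n = 1) (hb : b ^ n = 1)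
    (h : ‖a - b‖ < 1) : a = b := by
  have hb1 := norm_root (frob_pos hn) hb
  have hb0 : b ≠ 0 := norm_pos_iff.1 (by rw [hb1]; exact one_pos)
  have hx : (a / b) ^ n = 1 := by rw [div_pow, ha, hb, div_one]
  have h1 : res (a / b) = res (1 : PadicAlgCl p) := by
    rw [res_eq_iff (norm_root (frob_pos hn) hx).le norm_one.le, div_sub_one hb0, norm_div, hb1,
      div_one]
    exact h
  exact (div_eq_one_iff_eq hb0).1 (eq_one_of_res hn hx (h1.trans res_one))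

theorem frob_prim {n : ℕ} (hn : ¬ p ∣ n) :
    ∃ ζ : PadicAlgCl p, ζ ^ n = 1 ∧ ∀ ω : PadicAlgCl p, ω ^ n = 1 → ∃ i : ℕ, ζ ^ i = ω := by
  have : NeZero n := ⟨(frob_pos hn).ne'⟩
  obtain ⟨ζ, hζ⟩ := HasEnoughRootsOfUnity.exists_primitiveRoot (PadicAlgCl p) n
  refine ⟨ζ, hζ.pow_eq_one, fun ω hω => ?_⟩
  obtain ⟨i, -, hi⟩ := hζ.eq_pow_of_pow_eq_one hω
  exact ⟨i, hi⟩

theorem frob_closed (ω c : PadicAlgCl p) :
    IsClosed {s : PadicAlgCl p ≃ₐ[ℚ_[p]] PadicAlgCl p | s ω = c} := by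
  refine IsLocallyConstant.isClosed_fiber
    (f := fun s : PadicAlgCl p ≃ₐ[ℚ_[p]] PadicAlgCl p => s ω) ?_ c
  rw [IsLocallyConstant.iff_exists_open]
  intro s
  refine ⟨(fun s' => s⁻¹ * s') ⁻¹'
    (MulAction.stabilizer (PadicAlgCl p ≃ₐ[ℚ_[p]] PadicAlgCl p) ω : Set _),
    (stabilizer_isOpen_of_isIntegral ω).preimage (continuous_const_mul _), by simp, ?_⟩
  intro s' hs'
  have h1 : s⁻¹ (s' ω) = ω := hs'
  have h2 := congrArg s h1
  rwa [AlgEquiv.aut_inv, AlgEquiv.apply_symm_apply] at h2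

theorem frob_bar (t : PadicAlgCl p ≃ₐ[ℚ_[p]] PadicAlgCl p) :
    ∃ τ : kk p →+* kk p, ∀ x, ‖x‖ ≤ 1 → res (t x) = τ (res x) := by
  have hm : ∀ (u : PadicAlgCl p ≃ₐ[ℚ_[p]] PadicAlgCl p) {x : PadicAlgCl p}, x ∈ OO p →
      u x ∈ OO p := fun u x hx => by
    rw [mem_OO, norm_aut]
    exact mem_OO.1 hx
  let e : OO p ≃+* OO p :=
    { toFun := fun x => ⟨t x, hm t x.2⟩
      invFun := fun x => ⟨t.symm x, hm t.symm x.2⟩
      left_inv := fun x => Subtype.ext (t.symm_apply_apply _)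
      right_inv := fun x => Subtype.ext (t.apply_symm_apply _)
      map_mul' := fun x y => Subtype.ext (map_mul t _ _)
      map_add' := fun x y => Subtype.ext (map_add t _ _) }
  refine ⟨(IsLocalRing.ResidueField.mapEquiv e).toRingHom, fun x hx => ?_⟩
  have h1 := mem_OO.2 hx
  rw [res, res, dif_pos h1, dif_pos (hm t h1)]
  rfl

theorem frob_orbit {k : Type} [Field k] [CharP k p] (τ : k →+* k) {a : k} {N : ℕ} (hN : 0 < N)
    (ha : a ^ p ^ N = a) : ∃ j : ℕ, τ a = a ^ p ^ j := by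
  obtain ⟨P, hP⟩ : ∃ P : k[X], P = ∏ j ∈ Finset.range N, (X - C (a ^ p ^ j)) := ⟨_, rfl⟩
  have h1 : P.map (frobenius k p) = P := by
    have h2 : P.map (frobenius k p) = ∏ j ∈ Finset.range N, (X - C (a ^ p ^ (j + 1))) := by
      rw [hP, Polynomial.map_prod]
      refine Finset.prod_congr rfl fun j _ => ?_
      rw [Polynomial.map_sub, map_X, map_C, frobenius_def, ← pow_mul, ← pow_succ]
    have h3 := Finset.prod_range_succ' (fun j => (X - C (a ^ p ^ j) : k[X])) N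
    rw [Finset.prod_range_succ, ha, pow_zero, pow_one, ← hP, ← h2] at h3
    exact (mul_right_cancel₀ (X_sub_C_ne_zero a) h3).symm
  have h4 : P.map τ = P := by
    ext i
    have h5 : P.coeff i ^ p = P.coeff i := by
      conv_rhs => rw [← h1, coeff_map, frobenius_def]
    obtain ⟨m, hm⟩ := (mem_bot_iff_intCast p k).1 ((Subfield.mem_bot_iff_pow_eq_self k p).2 h5)
    rw [coeff_map, ← hm, map_intCast]
  have h6 : P.eval a = 0 := by
    rw [hP, eval_prod]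
    exact Finset.prod_eq_zero (Finset.mem_range.2 hN) (by simp)
  have h7 : P.eval (τ a) = 0 := by
    rw [← h4, eval_map, eval₂_at_apply, h6, map_zero]
  rw [hP, eval_prod, Finset.prod_eq_zero_iff] at h7
  obtain ⟨j, -, hj⟩ := h7
  exact ⟨j, by simpa [sub_eq_zero] using hj⟩

/-- The minimal polynomial `f` of `ω` divides `X ^ n - 1`, its coefficients are in `ℚ_p` with norm
at most one, so fixed by the `p`-th power map after reduction; `res f(ω ^ p) = res f(ω) ^ p = 0`,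
so `ω ^ p` is congruent to a root of `f`, which is an `n`-th root of unity (`eq_one_of_res`). -/
theorem isConjRoot_pow {ω : PadicAlgCl p} {n : ℕ} (hn : ¬ p ∣ n) (h : ω ^ n = 1) :
    IsConjRoot ℚ_[p] ω (ω ^ p) := by
  have hn0 := frob_pos hn
  have hi : IsIntegral ℤ_[p] ω := IsIntegral.of_pow hn0 (h ▸ isIntegral_one)
  have hq : IsIntegral ℚ_[p] ω := hi.tower_top
  have hω := (norm_root hn0 h).le
  have hp : (ω ^ p) ^ n = 1 := by rw [← pow_mul, mul_comm, pow_mul, h, one_pow]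
  obtain ⟨-, h1⟩ := frob_res_aeval (minpoly ℤ_[p] ω) hω
  obtain ⟨h2, h3⟩ := frob_res_aeval (minpoly ℤ_[p] ω) (norm_root hn0 hp).le
  have h4 : res (aeval (ω ^ p) (minpoly ℤ_[p] ω)) = res (aeval ω (minpoly ℤ_[p] ω)) ^ p := by
    rw [h1, h3, sum_pow_char]
    refine Finset.sum_congr rfl fun i _ => ?_
    rw [mul_pow, frob_res_int, res_pow hω, ← pow_mul, ← pow_mul, mul_comm p]
  rw [minpoly.aeval, res_zero, zero_pow (Fact.out : p.Prime).ne_zero, res_eq_zero h2,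
    ← aeval_map_algebraMap ℚ_[p], ← minpoly.isIntegrallyClosed_eq_field_fractions' ℚ_[p] hi,
    (IsAlgClosed.splits _).aeval_eq_prod_aroots_of_monic (minpoly.monic hq)] at h4
  obtain ⟨_, hr0, h5⟩ := frob_prod _ h4
  obtain ⟨r, hr, rfl⟩ := Multiset.mem_map.1 hr0
  have h6 : IsConjRoot ℚ_[p] ω r := (isConjRoot_iff_mem_minpoly_aroots hq).2 hr
  obtain ⟨σ, hσ⟩ := h6.symm.exists_algEquiv
  have h7 : r ^ n = 1 := by rw [← hσ, ← map_pow, h, map_one]
  rwa [frob_root_eq hn hp h7 h5]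

/-- The sets `{s | ∀ ω, ω ^ n = 1 → s ω = ω ^ p}` (`n` prime to `p`) are closed in the compact
Krull topology, non-empty (take a primitive root; `IsConjRoot.exists_algEquiv`) and directed. Then
`exists_root_res`, `norm_aut`. Any other proof is welcome, for example with
`Ideal.Quotient.stabilizerHom_surjective_of_profinite`. -/
theorem exists_frob : ∃ s : PadicAlgCl p ≃ₐ[ℚ_[p]] PadicAlgCl p, IsFrob s := by
  have hp : p.Prime := Fact.out
  have : Nonempty {n : ℕ // ¬ p ∣ n} := ⟨⟨1, hp.not_dvd_one⟩⟩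
  have hcl : ∀ n : {n : ℕ // ¬ p ∣ n}, IsClosed {s : PadicAlgCl p ≃ₐ[ℚ_[p]] PadicAlgCl p |
      ∀ ω : PadicAlgCl p, ω ^ n.1 = 1 → s ω = ω ^ p} := fun n => by
    simp only [Set.ofPred_forall]
    exact isClosed_iInter fun ω => isClosed_iInter fun _ => frob_closed ω _
  obtain ⟨s, hs⟩ := IsCompact.nonempty_iInter_of_directed_nonempty_isCompact_isClosed
    (fun n : {n : ℕ // ¬ p ∣ n} => {s : PadicAlgCl p ≃ₐ[ℚ_[p]] PadicAlgCl p |
      ∀ ω : PadicAlgCl p, ω ^ n.1 = 1 → s ω = ω ^ p})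
    (fun n m => ⟨⟨n.1 * m.1, fun h => (hp.dvd_mul.1 h).elim n.2 m.2⟩,
      fun s hs ω hω => hs ω (by rw [pow_mul, hω, one_pow]),
      fun s hs ω hω => hs ω (by rw [pow_mul', hω, one_pow])⟩)
    (fun n => by
      obtain ⟨ζ, hζ, hall⟩ := frob_prim n.2
      obtain ⟨σ, hσ⟩ := (isConjRoot_pow n.2 hζ).symm.exists_algEquiv
      refine ⟨σ, fun ω hω => ?_⟩
      obtain ⟨i, rfl⟩ := hall ω hω
      rw [map_pow, hσ, ← pow_mul, ← pow_mul, mul_comm])
    (fun n => (hcl n).isCompact) hcl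
  refine ⟨s, fun x hx => ?_⟩
  have hxp : ‖x ^ p‖ ≤ 1 := by rw [norm_pow]; exact pow_le_one₀ (norm_nonneg _) hx
  have hsx : ‖s x‖ ≤ 1 := by rwa [norm_aut]
  rw [← res_eq_iff hsx hxp, res_pow hx]
  rcases hx.lt_or_eq with h1 | h1
  · rw [(res_eq_zero hx).2 h1, zero_pow hp.ne_zero, res_eq_zero hsx, norm_aut]
    exact h1
  · obtain ⟨n, ω, hn, hω, hr⟩ := exists_root_res h1
    obtain ⟨τ, hτ⟩ := frob_bar s
    have hω1 := (norm_root (frob_pos hn) hω).le
    have h2 : s ω = ω ^ p := Set.mem_iInter.1 hs ⟨n, hn⟩ ω hω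
    rw [hτ x hx, ← hr, ← hτ ω hω1, h2, res_pow hω1]

/-- On finitely many residues every automorphism acts as a power of the Frobenius map. The units
in `Z` are congruent to powers of one root of unity `ω` of order `n` prime to `p`; the polynomial
`∏ j < N, (X - res ω ^ p ^ j)` (`p ^ N = 1` modulo `n`) has coefficients in the prime field, so
`res (t ω)` is one of its roots. -/
theorem exists_pow_res (t : PadicAlgCl p ≃ₐ[ℚ_[p]] PadicAlgCl p) (Z : Finset (PadicAlgCl p))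
    (hZ : ∀ x ∈ Z, ‖x‖ ≤ 1) : ∃ j : ℕ, ∀ x ∈ Z, res (t x) = res x ^ p ^ j := by
  have hp : p.Prime := Fact.out
  have hex : ∀ x : PadicAlgCl p, ∃ n : ℕ, ¬ p ∣ n ∧
      (‖x‖ = 1 → ∃ ω : PadicAlgCl p, ω ^ n = 1 ∧ res ω = res x) := fun x => by
    by_cases hx : ‖x‖ = 1
    · obtain ⟨n, ω, hn, hω⟩ := exists_root_res hx
      exact ⟨n, hn, fun _ => ⟨ω, hω⟩⟩
    · exact ⟨1, hp.not_dvd_one, fun h => absurd h hx⟩
  choose n hn hω using hex
  have hN : ¬ p ∣ ∏ x ∈ Z, n x := fun h => by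
    obtain ⟨x, -, hx⟩ := (hp.prime.dvd_finsetProd_iff _).1 h
    exact hn x hx
  obtain ⟨ζ, hζ, hall⟩ := frob_prim hN
  have hζ1 := (norm_root (frob_pos hN) hζ).le
  obtain ⟨τ, hτ⟩ := frob_bar t
  have ha : res ζ ^ (∏ x ∈ Z, n x) = 1 := by rw [← res_pow hζ1, hζ, res_one]
  have hb : res ζ ^ p ^ Nat.totient (∏ x ∈ Z, n x) = res ζ := by
    rw [pow_eq_pow_of_modEq (Nat.ModEq.pow_totient (hp.coprime_iff_not_dvd.2 hN)) ha, pow_one]
  obtain ⟨j, hj⟩ := frob_orbit τ (Nat.totient_pos.2 (frob_pos hN)) hb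
  refine ⟨j, fun x hx => ?_⟩
  rw [hτ x (hZ x hx)]
  rcases (hZ x hx).lt_or_eq with h1 | h1
  · rw [(res_eq_zero (hZ x hx)).2 h1, map_zero, zero_pow (pow_ne_zero _ hp.ne_zero)]
  · obtain ⟨ω, hω1, hω2⟩ := hω x h1
    obtain ⟨c, hc⟩ := Finset.dvd_prod_of_mem n hx
    obtain ⟨i, rfl⟩ := hall ω (by rw [hc, pow_mul, hω1, one_pow])
    rw [← hω2, res_pow hζ1, map_pow, hj, ← pow_mul, ← pow_mul, mul_comm]

end

end M4.B2
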