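import Pool.Agent.Lib.MP_33b3f9_ag.M4.B2.Res

/-!
An inertia element that moves the `p`-th roots of unity.
-/

set_option autoImplicit false

namespace M4.B2

open Matrix Polynomial

noncomputable section

variable {p : ℕ} [Fact p.Prime]

theorem inert_alg (q : ℚ_[p]) : ‖algebraMap ℚ_[p] (PadicAlgCl p) q‖ = ‖q‖ :=
  PadicAlgCl.norm_extends p q

theorem inert_inj {ω ω' : PadicAlgCl p} {n : ℕ} (hn : ¬ p ∣ n) (h : ω ^ n = 1) (h' : ω' ^ n = 1)
    (e : res ω = res ω') : ω = ω' := by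
  have hn0 : 0 < n := Nat.pos_of_ne_zero fun h0 => hn (h0 ▸ dvd_zero p)
  have h1 := norm_root hn0 h
  have h2 := norm_root hn0 h'
  have h0 : ω' ≠ 0 := norm_ne_zero_iff.1 (by rw [h2]; exact one_ne_zero)
  have h3 : (ω / ω') ^ n = 1 := by rw [div_pow, h, h', div_one]
  have h4 : res (ω / ω') = 1 := by
    rw [← res_one (p := p), res_eq_iff (norm_root hn0 h3).le norm_one.le, div_sub_one h0, norm_div,
      h2, div_one]
    exact (res_eq_iff h1.le h2.le).1 e
  exact (div_eq_one_iff_eq h0).1 (eq_one_of_res hn h3 h4)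

theorem inert_one {ω : PadicAlgCl p} {n : ℕ} (hn : ¬ p ∣ n) (h : ω ^ n = 1) {c : ℚ_[p][X]}
    (hd : c.natDegree < (minpoly ℚ_[p] ω).natDegree) (hc : ∀ i, ‖c.coeff i‖ ≤ 1) {k : ℕ}
    (hk : c.coeff k = 1) : ‖aeval ω c‖ = 1 := by
  classical
  have hn0 : 0 < n := Nat.pos_of_ne_zero fun h0 => hn (h0 ▸ dvd_zero p)
  have hint : IsIntegral ℚ_[p] ω := Algebra.IsIntegral.isIntegral ω
  have hterm : ∀ x : PadicAlgCl p, ‖x‖ ≤ 1 → ∀ i,
      ‖algebraMap ℚ_[p] (PadicAlgCl p) (c.coeff i) * x ^ i‖ ≤ 1 := fun x hx i => by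
    rw [norm_mul, inert_alg, norm_pow]
    exact mul_le_one₀ (hc i) (by positivity) (pow_le_one₀ (norm_nonneg _) hx)
  have hev : ∀ x : PadicAlgCl p, aeval x c = ∑ i ∈ Finset.range (c.natDegree + 1),
      algebraMap ℚ_[p] (PadicAlgCl p) (c.coeff i) * x ^ i := fun x => by
    rw [aeval_eq_sum_range]
    simp only [Algebra.smul_def]
  have hle : ∀ x : PadicAlgCl p, ‖x‖ ≤ 1 → ‖aeval x c‖ ≤ 1 := fun x hx => by
    rw [hev]
    exact IsUltrametricDist.norm_sum_le_of_forall_le_of_nonneg zero_le_one fun i _ => hterm x hx i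
  refine le_antisymm (hle ω (norm_root hn0 h).le) (not_lt.1 fun hlt => ?_)
  let P : (kk p)[X] := ∑ i ∈ Finset.range (c.natDegree + 1),
    monomial i (res (algebraMap ℚ_[p] (PadicAlgCl p) (c.coeff i)))
  have hP : P.natDegree ≤ c.natDegree :=
    natDegree_sum_le_of_forall_le _ _ fun i hi =>
      (natDegree_monomial_le _).trans (Nat.lt_succ_iff.1 (Finset.mem_range.1 hi))
  have hroot : ∀ x : (minpoly ℚ_[p] ω).rootSet (PadicAlgCl p),
      ∃ t : PadicAlgCl p ≃ₐ[ℚ_[p]] PadicAlgCl p, t ω = x := fun x =>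
    ((isConjRoot_iff_mem_minpoly_rootSet hint).2 x.2).symm.exists_algEquiv
  have hpow : ∀ x : (minpoly ℚ_[p] ω).rootSet (PadicAlgCl p), (x : PadicAlgCl p) ^ n = 1 :=
    fun x => by
      obtain ⟨t, ht⟩ := hroot x
      rw [← ht, ← map_pow, h, map_one]
  have h0 : P = 0 := by
    refine eq_zero_of_natDegree_lt_card_of_eval_eq_zero P
      (f := fun x : (minpoly ℚ_[p] ω).rootSet (PadicAlgCl p) => res (x : PadicAlgCl p))
      (fun x y e => Subtype.ext (inert_inj hn (hpow x) (hpow y) e)) (fun x => ?_) ?_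
    · have hx := (norm_root hn0 (hpow x)).le
      obtain ⟨t, ht⟩ := hroot x
      have h1 : res (aeval (x : PadicAlgCl p) c) = 0 := by
        rw [res_eq_zero (hle _ hx), ← ht, aeval_algHom_apply, norm_aut]
        exact hlt
      rw [← h1, hev, res_sum _ fun i _ => hterm _ hx i, eval_finsetSum]
      refine Finset.sum_congr rfl fun i _ => ?_
      rw [eval_monomial, res_mul ((inert_alg _).trans_le (hc i))
        ((norm_pow _ _).trans_le (pow_le_one₀ (norm_nonneg _) hx)), res_pow hx]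
    · rw [card_rootSet_eq_natDegree (Algebra.IsSeparable.isSeparable ℚ_[p] ω)
        (IsAlgClosed.splits _)]
      exact hP.trans_lt hd
  have h1 := congrArg (fun Q => coeff Q k) h0
  have hkd : k ∈ Finset.range (c.natDegree + 1) :=
    Finset.mem_range.2 (Nat.lt_succ_of_le (le_natDegree_of_ne_zero (by rw [hk]; exact one_ne_zero)))
  simp only [P, finsetSum_coeff, coeff_monomial, Finset.sum_ite_eq', if_pos hkd, hk, map_one,
    res_one, coeff_zero] at h1
  exact one_ne_zero h1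

/-- Write `x = c(ω)` with `c` of degree less than the degree `d` of `ω`, divide by a coefficient
of largest norm. If the value had norm less than one, the same holds at the `d` conjugates of `ω`
(`norm_aut`), which have distinct residues (`eq_one_of_res`); so the reduction of `c` vanishes. -/
theorem norm_mem_adjoin {ω : PadicAlgCl p} {n : ℕ} (hn : ¬ p ∣ n) (h : ω ^ n = 1)
    {x : PadicAlgCl p} (hx : x ∈ IntermediateField.adjoin ℚ_[p] {ω}) :
    ∃ q : ℚ_[p], ‖x‖ = ‖q‖ := by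
  have hint : IsIntegral ℚ_[p] ω := Algebra.IsIntegral.isIntegral ω
  obtain ⟨c, hc, hxc⟩ := (IntermediateField.adjoin.powerBasis hint).exists_eq_aeval ⟨x, hx⟩
  rw [IntermediateField.adjoin.powerBasis_dim] at hc
  have hx' : x = aeval ω c := by
    have := congrArg (IntermediateField.val _) hxc
    rwa [← aeval_algHom_apply] at this
  by_cases h0 : c = 0
  · exact ⟨0, by simp [hx', h0]⟩
  obtain ⟨k, hk, hmax⟩ := c.support.exists_max_image (fun i => ‖c.coeff i‖) (support_nonempty.2 h0)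
  have ha : c.coeff k ≠ 0 := mem_support_iff.1 hk
  have h1 := inert_one hn h (c := C (c.coeff k)⁻¹ * c) ((natDegree_C_mul_le _ _).trans_lt hc)
    (fun i => by
      rw [coeff_C_mul, norm_mul, norm_inv]
      refine inv_mul_le_one_of_le₀ ?_ (norm_nonneg _)
      by_cases hi : i ∈ c.support
      · exact hmax i hi
      · rw [notMem_support_iff.1 hi, norm_zero]
        exact norm_nonneg _) (k := k) (by rw [coeff_C_mul, inv_mul_cancel₀ ha])
  rw [map_mul, aeval_C, norm_mul, inert_alg, norm_inv, ← hx'] at h1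
  exact ⟨c.coeff k, ((inv_mul_eq_one₀ (norm_ne_zero_iff.2 ha)).1 h1).symm⟩

theorem inert_le {x : PadicAlgCl p} (hx : ‖x‖ ≤ 1) (i : ℕ) : ‖1 - x ^ i‖ ≤ ‖1 - x‖ := by
  rw [← mul_neg_geom_sum, norm_mul]
  refine mul_le_of_le_one_right (norm_nonneg _)
    (IsUltrametricDist.norm_sum_le_of_forall_le_of_nonneg zero_le_one fun j _ => ?_)
  rw [norm_pow]
  exact pow_le_one₀ (norm_nonneg _) hx

/-- `∏ (1 - ζ ^ i) = p` over `0 < i < p`, and all factors have the same norm. -/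
theorem norm_one_sub_pow {ζ : PadicAlgCl p} (h : IsPrimitiveRoot ζ p) :
    ‖1 - ζ‖ ^ (p - 1) = (p : ℝ)⁻¹ := by
  have hp : p.Prime := Fact.out
  have : NeZero p := ⟨hp.ne_zero⟩
  obtain ⟨m, hm⟩ : ∃ m, p = m + 1 := ⟨p - 1, (Nat.sub_add_cancel hp.pos).symm⟩
  have h1 : ∏ k ∈ Finset.range m, (1 - ζ ^ (k + 1)) = (p : PadicAlgCl p) := by
    rw [IsPrimitiveRoot.prod_one_sub_pow_eq_order (hm ▸ h)]
    exact (Nat.cast_succ m).symm.trans (congrArg Nat.cast hm.symm)
  have h2 : ∀ k ∈ Finset.range m, ‖1 - ζ ^ (k + 1)‖ = ‖1 - ζ‖ := by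
    intro k hk
    refine le_antisymm (inert_le (norm_root hp.pos h.pow_eq_one).le _) ?_
    have hk' : k + 1 < p := by have := Finset.mem_range.1 hk; omega
    have h3 := h.pow_of_coprime (k + 1) (Nat.coprime_of_lt_prime (Nat.succ_ne_zero k) hk' hp).symm
    obtain ⟨j, -, hj⟩ := h3.eq_pow_of_pow_eq_one h.pow_eq_one
    conv_lhs => rw [← hj]
    exact inert_le (norm_root hp.pos h3.pow_eq_one).le _
  have h4 := congrArg norm h1
  rw [norm_prod, Finset.prod_congr rfl h2, Finset.prod_const, Finset.card_range,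
    ← map_natCast (algebraMap ℚ_[p] (PadicAlgCl p)), inert_alg, Padic.norm_p] at h4
  rw [← h4]
  congr 1
  omega

theorem inert_dir {ω ω' : PadicAlgCl p} {n n' : ℕ} (hn : ¬ p ∣ n) (hn' : ¬ p ∣ n') (h : ω ^ n = 1)
    (h' : ω' ^ n' = 1) : ∃ (N : ℕ) (η : PadicAlgCl p), ¬ p ∣ N ∧ η ^ N = 1 ∧
      IntermediateField.adjoin ℚ_[p] {ω} ≤ IntermediateField.adjoin ℚ_[p] {η} ∧
      IntermediateField.adjoin ℚ_[p] {ω'} ≤ IntermediateField.adjoin ℚ_[p] {η} := by
  have hp : p.Prime := Fact.out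
  have hN : ¬ p ∣ n * n' := fun hd => (hp.dvd_mul.1 hd).elim hn hn'
  have : NeZero (n * n') := ⟨fun h0 => hN (h0 ▸ dvd_zero p)⟩
  obtain ⟨η, hη⟩ := HasEnoughRootsOfUnity.exists_primitiveRoot (PadicAlgCl p) (n * n')
  have key : ∀ x : PadicAlgCl p, x ^ (n * n') = 1 →
      IntermediateField.adjoin ℚ_[p] {x} ≤ IntermediateField.adjoin ℚ_[p] {η} := fun x hx => by
    obtain ⟨j, -, rfl⟩ := hη.eq_pow_of_pow_eq_one hx
    exact IntermediateField.adjoin_simple_le_iff.2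
      (pow_mem (IntermediateField.mem_adjoin_simple_self _ η) j)
  exact ⟨n * n', η, hN, hη.pow_eq_one, key ω (by rw [pow_mul, h, one_pow]),
    key ω' (by rw [pow_mul', h', one_pow])⟩

theorem inert_mem {x : PadicAlgCl p}
    (hx : x ∈ IntermediateField.adjoin ℚ_[p] {ω : PadicAlgCl p | ∃ n, ¬ p ∣ n ∧ ω ^ n = 1}) :
    ∃ (n : ℕ) (ω : PadicAlgCl p), ¬ p ∣ n ∧ ω ^ n = 1 ∧ x ∈ IntermediateField.adjoin ℚ_[p] {ω} := by
  have hp : p.Prime := Fact.out
  induction hx using IntermediateField.adjoin_induction with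
  | mem x hx =>
    obtain ⟨n, hn, h⟩ := hx
    exact ⟨n, x, hn, h, IntermediateField.mem_adjoin_simple_self _ x⟩
  | algebraMap q => exact ⟨1, 1, hp.not_dvd_one, one_pow 1, IntermediateField.algebraMap_mem _ q⟩
  | add x y _ _ hx hy =>
    obtain ⟨n, ω, hn, h, hx⟩ := hx
    obtain ⟨n', ω', hn', h', hy⟩ := hy
    obtain ⟨N, η, hN, hη, h1, h2⟩ := inert_dir hn hn' h h'
    exact ⟨N, η, hN, hη, add_mem (h1 hx) (h2 hy)⟩
  | inv x _ hx =>
    obtain ⟨n, ω, hn, h, hx⟩ := hx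
    exact ⟨n, ω, hn, h, inv_mem hx⟩
  | mul x y _ _ hx hy =>
    obtain ⟨n, ω, hn, h, hx⟩ := hx
    obtain ⟨n', ω', hn', h', hy⟩ := hy
    obtain ⟨N, η, hN, hη, h1, h2⟩ := inert_dir hn hn' h h'
    exact ⟨N, η, hN, hη, mul_mem (h1 hx) (h2 hy)⟩

theorem inert_not_mem (hp5 : 5 ≤ p) {ζ : PadicAlgCl p} (h : IsPrimitiveRoot ζ p) :
    (1 - ζ) * (1 - ζ⁻¹) ∉
      IntermediateField.adjoin ℚ_[p] {ω : PadicAlgCl p | ∃ n, ¬ p ∣ n ∧ ω ^ n = 1} := by
  intro hx
  obtain ⟨n, ω, hn, hω, hx⟩ := inert_mem hx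
  obtain ⟨q, hq⟩ := norm_mem_adjoin hn hω hx
  have hp1 : (1 : ℝ) < p := by exact_mod_cast (by omega : 1 < p)
  have h1 : ‖q‖ ^ (p - 1) = (p : ℝ) ^ (-2 : ℤ) := by
    rw [← hq, norm_mul, mul_pow, norm_one_sub_pow h, norm_one_sub_pow h.inv, _root_.zpow_neg,
      ← mul_inv, zpow_two]
  have hq0 : q ≠ 0 := by
    rintro rfl
    rw [norm_zero, zero_pow (by omega)] at h1
    exact (zpow_pos (by linarith) _).ne h1
  rw [Padic.norm_eq_zpow_neg_valuation hq0, ← _root_.zpow_natCast, ← _root_.zpow_mul] at h1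
  have h2 := zpow_right_injective₀ (by linarith) hp1.ne' h1
  have h3 : ((p - 1 : ℕ) : ℤ) ∣ 2 := ⟨q.valuation, by linarith⟩
  have h4 := Int.le_of_dvd (by norm_num) h3
  omega

/-- Let `L` be generated by the roots of unity of order prime to `p` (a directed union of fields
as in `norm_mem_adjoin`). The element `(1 - ζ) (1 - ζ⁻¹)` has norm `a` with `a ^ (p - 1) = p⁻²`, not
a power of `p`, so it is not in `L` and some automorphism over `L` moves it
(`InfiniteGalois.fixedField_fixingSubgroup`). -/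
theorem exists_inertia (hp : 5 ≤ p) : ∃ t : PadicAlgCl p ≃ₐ[ℚ_[p]] PadicAlgCl p,
    (∀ x, ‖x‖ ≤ 1 → res (t x) = res x) ∧
      ∃ c : ℕ, ¬ (p : ℤ) ∣ (c : ℤ) ^ 2 - 1 ∧ ∀ ζ : PadicAlgCl p, ζ ^ p = 1 → t ζ = ζ ^ c := by
  have hpp : p.Prime := Fact.out
  have : NeZero p := ⟨hpp.ne_zero⟩
  obtain ⟨ζ, hζ⟩ := HasEnoughRootsOfUnity.exists_primitiveRoot (PadicAlgCl p) p
  have h1 := inert_not_mem hp hζ
  rw [← InfiniteGalois.fixedField_fixingSubgroup (IntermediateField.adjoin ℚ_[p] _),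
    IntermediateField.mem_fixedField_iff] at h1
  push Not at h1
  obtain ⟨t, ht, hne⟩ := h1
  rw [IntermediateField.mem_fixingSubgroup_iff] at ht
  obtain ⟨c, -, hc⟩ := hζ.eq_pow_of_pow_eq_one (ξ := t ζ) (by rw [← map_pow, hζ.pow_eq_one, map_one])
  have h0 : ζ ≠ 0 := hζ.ne_zero hpp.ne_zero
  refine ⟨t, fun x hx => ?_, c, fun hd => hne ?_, fun x hx => ?_⟩
  · have htx : ‖t x‖ ≤ 1 := (norm_aut t x).trans_le hx
    rcases hx.lt_or_eq with hx1 | hx1
    · rw [(res_eq_zero hx).2 hx1, (res_eq_zero htx).2 ((norm_aut t x).trans_lt hx1)]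
    · obtain ⟨n, ω, hn, hω, e⟩ := exists_root_res hx1
      have hω1 := (norm_root (Nat.pos_of_ne_zero fun h0 : n = 0 => hn (h0 ▸ dvd_zero p)) hω).le
      have h2 : t ω = ω := ht ω (IntermediateField.subset_adjoin _ _ ⟨n, hn, hω⟩)
      rw [← e, res_eq_iff htx hω1]
      conv_lhs => rw [← h2, ← map_sub, norm_aut]
      exact (res_eq_iff hx hω1).1 e.symm
  · rw [map_mul, map_sub, map_sub, map_one, map_inv₀, ← hc]
    have e : (c : ℤ) ^ 2 - 1 = (c - 1) * (c + 1) := by ring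
    rw [e] at hd
    rcases (Nat.prime_iff_prime_int.1 hpp).dvd_or_dvd hd with h | h
    · have h2 := (hζ.zpow_eq_one_iff_dvd _).2 h
      rw [zpow_sub_one₀ h0, zpow_natCast, mul_inv_eq_one₀ h0] at h2
      rw [h2]
    · have h2 := (hζ.zpow_eq_one_iff_dvd _).2 h
      rw [zpow_add_one₀ h0, zpow_natCast] at h2
      rw [eq_inv_of_mul_eq_one_left h2, inv_inv, mul_comm]
  · obtain ⟨j, -, rfl⟩ := hζ.eq_pow_of_pow_eq_one hx
    rw [map_pow, ← hc, ← pow_mul, ← pow_mul, mul_comm]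

end

end M4.B2
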