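import Pool.Agent.Lib.MP_33b3f9_ag.M4.B2.ToTD
import Pool.Agent.Lib.MP_33b3f9_ag.M4.B2.Frob
import Pool.Agent.Lib.MP_33b3f9_ag.M4.B2.Inert
import Pool.Agent.Lib.MP_33b3f9_ag.M4.B2.FaceA

/-!
Dictionary between the reduced theta data and the `l`-adic matrices.
-/

set_option autoImplicit false

namespace M4.B2

open Matrix Polynomial

noncomputable section

variable {P : Nat.Primes} {ι : Type} [Fintype ι] (S : Setup P ι)
  {s : PadicAlgCl P ≃ₐ[ℚ_[P]] PadicAlgCl P} (hs : IsFrob s)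

theorem dec_semi {A K : Type} [AddCommGroup A] [CommRing K] (f : Module.End ℤ A)
    (G : Matrix ν ν K) (φ : A →+ ν → K) (h : ∀ x, φ (f x) = G *ᵥ φ x) (a : ℤ[X]) (x : A) :
    φ (aeval f a x) = aeval G a *ᵥ φ x := by
  induction a using Polynomial.induction_on generalizing x with
  | C c =>
    rw [aeval_C, aeval_C, Module.algebraMap_end_apply, map_zsmul, Algebra.algebraMap_eq_smul_one,
      smul_mulVec, one_mulVec]
  | add a b ha hb => rw [map_add, map_add, LinearMap.add_apply, map_add, ha, hb, add_mulVec]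
  | monomial n c ih =>
    rw [pow_succ, ← mul_assoc, map_mul, map_mul (aeval G), aeval_X, aeval_X, Module.End.mul_apply,
      ih, h, mulVec_mulVec]

theorem dec_semi' {A K : Type} [AddCommGroup A] [CommRing K] (f : Module.End ℤ A)
    (G : Matrix ν ν K) (φ : (ν → K) →+ A) (h : ∀ x, f (φ x) = φ (G *ᵥ x)) (a : ℤ[X]) (x : ν → K) :
    aeval f a (φ x) = φ (aeval G a *ᵥ x) := by
  induction a using Polynomial.induction_on generalizing x with
  | C c =>
    rw [aeval_C, aeval_C, Module.algebraMap_end_apply, Algebra.algebraMap_eq_smul_one,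
      smul_mulVec, one_mulVec, map_zsmul]
  | add a b ha hb => rw [map_add, map_add, LinearMap.add_apply, ha, hb, add_mulVec, map_add]
  | monomial n c ih =>
    rw [pow_succ, ← mul_assoc, map_mul, map_mul (aeval G), aeval_X, aeval_X, Module.End.mul_apply,
      h, ih, mulVec_mulVec]

theorem mQ_aeval {l : ℕ} [Fact l.Prime] (g : Matrix ν ν ℤ_[l]) (a : ℤ[X]) :
    mQ (aeval g a) = aeval (mQ g) a := by
  exact (aeval_algHom_apply (PadicInt.Coe.ringHom (p := l)).mapMatrix.toIntAlgHom g a).symm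

/-- Induction on the polynomial. -/
theorem Setup.cV_polV (a : ℤ[X]) (x : Vt P) (l : Nat.Primes) :
    cV l (((S.toTD hs).polV a x : Vt P) : VA) =
      mQ (aeval (S.R s l : Matrix ν ν ℤ_[l]) a) *ᵥ cV l (x : VA) := by
  rw [mQ_aeval]
  exact dec_semi _ _ (AddMonoidHom.mk' (fun x : Vt P => cV l (x : VA)) fun x y => cV_add l x y)
    (fun x => cV_rho (S.R s) x l) a x

theorem Setup.polW_eq (a : ℤ[X]) (y : WW P) :
    (S.toTD hs).polW a y = matW (aeval (S.R s P : Matrix ν ν ℤ_[P]) a) y := by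
  induction y using QuotientAddGroup.induction_on with
  | H v =>
    rw [matW_mk, mQ_aeval]
    exact dec_semi' _ _ (QuotientAddGroup.mk' (IV P)) (fun _ => rfl) a v

/-- Test on the vectors `iV l (Pi.single i 1)`. -/
theorem Setup.polV_eq_zero (a : ℤ[X]) : (S.toTD hs).polV a = 0 ↔
    ∀ l : Nat.Primes, l ≠ P → aeval (S.R s l : Matrix ν ν ℤ_[l]) a = 0 := by
  constructor
  · intro h l hl
    ext i j
    have h1 := congrFun (S.cV_polV hs a ⟨iV l (Pi.single j 1), fun _ => cp_inc_ne hl.symm _⟩ l) i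
    rw [h, cV_iV_self, mulVec_single_one] at h1
    refine Subtype.ext (h1.symm.trans ?_)
    exact map_zero (cp l)
  · intro h
    refine LinearMap.ext fun x => Subtype.ext (VA_ext fun l => ?_)
    by_cases hl : l = P
    · subst hl
      rw [cV_Vt, cV_Vt]
    · rw [S.cV_polV, h l hl, faceA_zero, zero_mulVec]
      funext i
      exact (map_zero (cp l)).symm

/-- `y = (l ^ n)⁻¹ • polV a x` is integral at `l` by hypothesis, at the other primes because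
`l ^ n` is a unit. -/
theorem Setup.polV_lam {l : Nat.Primes} (n : ℕ) (a : ℤ[X])
    (h : ∀ i j, (l.1 : ℤ_[l]) ^ n ∣ aeval (S.R s l : Matrix ν ν ℤ_[l]) a i j) (x : Vt P)
    (hx : x ∈ Lam P) : ∃ y ∈ Lam P, (S.toTD hs).polV a x = l.1 ^ n • y := by
  have hl : ((l.1 ^ n : ℕ) : ℚ) ≠ 0 := by exact_mod_cast pow_ne_zero n l.2.ne_zero
  refine ⟨((l.1 ^ n : ℕ) : ℚ)⁻¹ • (S.toTD hs).polV a x, mem_Lam.2 (mem_TA_iff.2 fun l' i => ?_),
    by rw [← Nat.cast_smul_eq_nsmul ℚ, smul_smul, mul_inv_cancel₀ hl, one_smul]⟩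
  have hx' := mem_TA_iff.1 (mem_Lam.1 hx) l'
  rw [Submodule.coe_smul, cV_qsmul, S.cV_polV]
  push_cast
  by_cases e : l' = l
  · subst e
    choose b hb using h
    have h1 : aeval (S.R s l' : Matrix ν ν ℤ_[l']) a = (l'.1 : ℤ_[l']) ^ n • Matrix.of b := by
      ext i j
      rw [hb]
      rfl
    have h2 : (l'.1 : ℚ_[l']) ^ n ≠ 0 := pow_ne_zero _ (by exact_mod_cast l'.2.ne_zero)
    rw [h1, faceA_smul, smul_mulVec, smul_smul]
    push_cast
    rw [inv_mul_cancel₀ h2, one_smul]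
    exact mQ_mulVec_le _ hx' i
  · have h1 : ‖(l.1 : ℚ_[l'])‖ = 1 := (Padic.norm_natCast_eq_one_iff (p := l') (n := l.1)).2
      ((Nat.coprime_primes l'.2 l.2).2 fun h => e (Subtype.ext h))
    rw [Pi.smul_apply, smul_eq_mul, norm_mul, norm_inv, norm_pow, h1, one_pow, inv_one, one_mul]
    exact mQ_mulVec_le _ hx' i

/-- The multiplier of `t`. -/
theorem dec_chi (t : PadicAlgCl P ≃ₐ[ℚ_[P]] PadicAlgCl P) : ∃ χ : Af,
    (∀ x, t (S.e (psi x)) = S.e (psi (χ * x))) ∧ ∀ (l : Nat.Primes) (x y : ν → ℚ_[l]),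
      EB (mQ (S.R t l) *ᵥ x) (mQ (S.R t l) *ᵥ y) = cp l χ * EB x y := by
  obtain ⟨χ, h1, h2⟩ := exists_chi (cj S.e t) (rho (S.R t)) (S.equiv_psi t)
  refine ⟨χ, fun x => by rw [← e_cj, h1], fun l x y => ?_⟩
  have h := congrArg (cp l) (h2 (iV l x) (iV l y))
  rwa [map_mul, cp_EB, cp_EB, cV_rho, cV_rho, cV_iV_self, cV_iV_self] at h

theorem dec_inv (l : Nat.Primes) : ¬ ‖(l.1 : ℚ_[l])⁻¹‖ ≤ 1 := by
  rw [norm_inv, Padic.norm_p, inv_inv, not_le]
  exact_mod_cast l.2.one_lt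

include hs in
/-- `exists_chi`; for `x` supported at `l`, `psi (χ x)` and `psi (P x)` have the same residue
(`IsFrob.res`, `res_psi_eq_one`); `eq_zero_of_psi`. -/
theorem Setup.mult {l : Nat.Primes} (hl : l ≠ P) (x y : ν → ℚ_[l]) :
    EB (mQ (S.R s l) *ᵥ x) (mQ (S.R s l) *ᵥ y) = (P.1 : ℚ_[l]) * EB x y := by
  obtain ⟨χ, h1, h2⟩ := dec_chi S s
  rw [h2]
  congr 1
  by_contra hc
  have hc' : cp l χ - P.1 ≠ 0 := sub_ne_zero.2 hc
  obtain ⟨z, hz⟩ : ∃ z, z = inc l ((cp l χ - P.1)⁻¹ * (l.1 : ℚ_[l])⁻¹) := ⟨_, rfl⟩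
  have h3 : res (S.e (psi (χ * z))) = res (S.e (psi ((P.1 : Af) * z))) := by
    rw [← h1, hs.res (norm_e_psi _ _).le, psi_nsmul, map_pow, res_pow (norm_e_psi _ _).le]
  have h4 := res_psi_add S.e ((χ - P.1) * z) ((P.1 : Af) * z)
  have h5 : res (S.e (psi ((P.1 : Af) * z))) ≠ 0 := fun h0 =>
    (norm_e_psi _ _).not_lt ((res_eq_zero (norm_e_psi _ _).le).1 h0)
  rw [← add_mul, sub_add_cancel, h3, right_eq_mul₀ h5,
    res_psi_eq_one _ (by rw [map_mul, hz, cp_inc_ne hl.symm, mul_zero])] at h4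
  have h6 := h4 l
  rw [map_mul, map_sub, map_natCast, hz, cp_inc_self, mul_inv_cancel_left₀ hc'] at h6
  exact dec_inv l h6

theorem dec_fr {k : Type} [Field k] {p : ℕ} {V W : Type} [AddCommGroup V] [Module ℚ V]
    [AddCommGroup W] (T : CP.TD k p V W ι) (i : ι) (x : V) (j : ℕ) :
    T.X i (T.polV (X ^ j) x, 0) = T.X i (x, 0) ^ p ^ j := by
  induction j with
  | zero => simp [CP.TD.polV]
  | succ j ih =>
    have h : T.polV (X ^ (j + 1)) x = T.sV (T.polV (X ^ j) x) := by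
      rw [CP.TD.polV, CP.TD.polV, pow_succ', map_mul, aeval_X]
      rfl
    have h2 := T.fr i (T.polV (X ^ j) x, 0)
    rw [map_zero] at h2
    rw [h, h2, ih, ← pow_mul, pow_succ]

/-- `exists_pow_res` for the values of the `X i` at the points `away P (qV (e_b / M))`;
`redF_rho`, `fr` iterated, `sep`. -/
theorem Setup.unram (ho : Outs (S.toTD hs)) (t : PadicAlgCl P ≃ₐ[ℚ_[P]] PadicAlgCl P) {M : ℕ}
    (hM : ¬ P.1 ∣ M) : ∃ j : ℕ, ∀ l : Nat.Primes, l ≠ P → ∀ a b,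
      (M : ℤ_[l]) ∣ ((S.R t l : Matrix ν ν ℤ_[l]) - (S.R s l : Matrix ν ν ℤ_[l]) ^ j) a b := by
  classical
  obtain ⟨x, hx⟩ : ∃ x : ν → Vt P, ∀ b, x b = away P (qV (Pi.single b (M : ℚ)⁻¹)) :=
    ⟨_, fun _ => rfl⟩
  obtain ⟨j, hj⟩ := exists_pow_res t
    (Finset.univ.image fun q : ι × ν => S.e (S.D.X q.1 (lift (x q.2, 0)))) fun z hz => by
      obtain ⟨q, -, rfl⟩ := Finset.mem_image.1 hz
      exact S.intg_X _ _
  refine ⟨j, fun l hl a b => ?_⟩
  have e0 : ∀ u v : Vt P, (u, (0 : WW P)) + (v - u, 0) = (v, 0) := fun u v =>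
    Prod.ext (Subtype.ext (add_sub_cancel (u : VA) v)) (add_zero _)
  have h1 := (ho.sep ((S.toTD hs).polV (X ^ j) (x b), 0)
    (rhoV P (S.R t) (x b) - (S.toTD hs).polV (X ^ j) (x b), 0) 1 fun i => by
      have h2 := S.redF_rho t i (x b, 0)
      rw [map_zero, hj _ (Finset.mem_image.2 ⟨(i, b), Finset.mem_univ _, rfl⟩)] at h2
      rw [one_mul, dec_fr]
      exact (congrArg _ (e0 _ _)).trans h2).1
  have h2 := mem_TA_iff.1 (mem_Lam.1 h1) l a
  have h3 : cV l (x b : VA) = (M : ℚ_[l])⁻¹ • Pi.single b 1 := by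
    rw [hx, cV_away_ne hl, cV_qV]
    funext i
    by_cases e : i = b
    · subst e
      simp
    · simp [e]
  rw [Submodule.coe_sub, cV_sub, coe_rhoV, cV_rho, S.cV_polV, map_pow, aeval_X, ← sub_mulVec,
    ← faceA_sub, h3, mulVec_smul, mulVec_single_one] at h2
  have hM0 : (M : ℚ_[l]) ≠ 0 := by
    have : M ≠ 0 := fun h => hM (h ▸ dvd_zero _)
    exact_mod_cast this
  refine ⟨⟨_, h2⟩, Subtype.ext ?_⟩
  exact (mul_inv_cancel_left₀ hM0 _).symm

/-- `fr` at `(0, y)` and at `0`, then `sep` with `z = 0`. -/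
theorem Setup.C_stable (ho : Outs (S.toTD hs)) (y : WW P) (hy : y ∈ (S.toTD hs).C) :
    matW (S.R s P : Matrix ν ν ℤ_[P]) y ∈ (S.toTD hs).C := by
  refine (ho.sep 0 (0, matW (S.R s P : Matrix ν ν ℤ_[P]) y) 1 fun i => ?_).2
  have h1 := (S.toTD hs).fr i (0, y)
  have h2 := (S.toTD hs).fr i 0
  have h3 := hy 1 _ (S.X_mem i) 0
  rw [zero_add] at h3
  rw [map_zero] at h1
  rw [Prod.fst_zero, Prod.snd_zero, map_zero, map_zero] at h2
  rw [zero_add, one_mul]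
  exact h1.trans ((congrArg (· ^ P.1) h3).trans h2.symm)

/-- Take `t` from `exists_inertia` and `χ` from `exists_chi`; its component at `P` is integral
and congruent to `c` (test on `inc P P⁻¹`). `redF_rho` and `sep` at `z = (0, v)`. -/
theorem Setup.exists_inert (ho : Outs (S.toTD hs)) (hp : 5 ≤ P.1) :
    ∃ (t : PadicAlgCl P ≃ₐ[ℚ_[P]] PadicAlgCl P) (χ : ℤ_[P]), χ ≠ 0 ∧ IsUnit (χ - 1) ∧ χ ^ 2 ≠ 1 ∧
      (∀ x y, EB (mQ (S.R t P) *ᵥ x) (mQ (S.R t P) *ᵥ y) = (χ : ℚ_[P]) * EB x y) ∧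
      ∀ v : ν → ℚ_[P], ((mQ (S.R t P) *ᵥ v - v : ν → ℚ_[P]) : WW P) ∈ (S.toTD hs).C := by
  obtain ⟨t, ht, c, hc, htc⟩ := exists_inertia (p := P) hp
  obtain ⟨χ, h1, h2⟩ := dec_chi S t
  have hP : (P.1 : ℚ_[P]) ≠ 0 := by exact_mod_cast P.2.ne_zero
  have h3 : χ ∈ Zh := by
    have h := h1 1
    rw [psi_eq_one.2 Zh.one_mem, map_one, map_one, mul_one, eq_comm, map_eq_one_iff _
      S.e.injective] at h
    exact psi_eq_one.1 h
  obtain ⟨z, hz⟩ : ∃ z, z = inc P (P.1 : ℚ_[P])⁻¹ := ⟨_, rfl⟩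
  have h4 : S.e (psi z) ^ P.1 = 1 := by
    rw [← map_pow, ← psi_nsmul, psi_eq_one.2, map_one]
    intro l
    by_cases hl : l = P
    · subst hl
      rw [map_mul, map_natCast, hz, cp_inc_self, mul_inv_cancel₀ hP, norm_one]
    · rw [map_mul, hz, cp_inc_ne hl, mul_zero, norm_zero]
      exact zero_le_one
  have h5 : (χ - c) * z ∈ Zh := by
    have h := htc _ h4
    rw [h1, ← map_pow, ← psi_nsmul] at h
    rw [← psi_eq_one, sub_mul, sub_eq_add_neg, psi_add, psi_neg, S.e.injective h,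
      mul_inv_cancel₀ (psi_ne _)]
  obtain ⟨χ', hχ⟩ : ∃ χ' : ℤ_[P], (χ' : ℚ_[P]) = cp P χ := ⟨⟨_, h3 P⟩, rfl⟩
  have h6 : (P.1 : ℤ_[P]) ∣ χ' - c := by
    have h := h5 P
    rw [map_mul, map_sub, map_natCast, hz, cp_inc_self, ← hχ] at h
    refine ⟨⟨_, h⟩, Subtype.ext ?_⟩
    push_cast
    rw [mul_comm, inv_mul_cancel_right₀ hP]
  have h7 : ¬ (P.1 : ℤ_[P]) ∣ χ' ^ 2 - 1 := by
    intro h
    apply hc
    rw [← PadicInt.norm_int_lt_one_iff_dvd, PadicInt.norm_lt_one_iff_dvd]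
    have e : (((c : ℤ) ^ 2 - 1 : ℤ) : ℤ_[P]) = χ' ^ 2 - 1 - (χ' - c) * (χ' + c) := by
      push_cast
      ring
    rw [e]
    exact dvd_sub h (h6.mul_right _)
  refine ⟨t, χ', fun h0 => ?_, ?_, fun h => h7 (by rw [h, sub_self]; exact dvd_zero _),
    fun x y => by rw [hχ, h2], fun v => ?_⟩
  · have h := h2 P (mQ ((S.R t P)⁻¹ : GL ν ℤ_[P]) *ᵥ Pi.single (Sum.inl 0) 1)
      (mQ ((S.R t P)⁻¹ : GL ν ℤ_[P]) *ᵥ Pi.single (Sum.inr 0) 1)
    rw [mulVec_mulVec, mulVec_mulVec, ← mQ_mul, Units.mul_inv, mQ_one, one_mulVec, one_mulVec,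
      ← hχ, h0, PadicInt.coe_zero, zero_mul] at h
    simp [EB, Fin.sum_univ_four] at h
  · by_contra h
    rw [PadicInt.not_isUnit_iff, PadicInt.norm_lt_one_iff_dvd] at h
    exact h7 (by rw [show χ' ^ 2 - 1 = (χ' - 1) * (χ' + 1) by ring]; exact h.mul_right _)
  · rw [QuotientAddGroup.mk_sub]
    refine (ho.sep (0, (v : WW P)) (0, _) 1 fun i => ?_).2
    have h := S.redF_rho t i (0, (v : WW P))
    rw [map_zero, ht _ (S.intg_X _ _)] at h
    rw [one_mul, Prod.mk_add_mk, add_sub_cancel, add_zero]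
    exact h

end

end M4.B2
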