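import Pool.Agent.Lib.MP_33b3f9_ag.M4.B2.Defs

/-!
Integrality on a face of the cube.
-/

set_option autoImplicit false

namespace M4.B2

open Matrix Polynomial

noncomputable section

variable {Ω : Type} [NormedField Ω]

theorem MI.mul [IsUltrametricDist Ω] {l m n : Type} [Fintype m] {A : Matrix l m Ω}
    {B : Matrix m n Ω} (hA : MI A) (hB : MI B) : MI (A * B) := by
  intro i j
  rw [mul_apply]
  refine IsUltrametricDist.norm_sum_le_of_forall_le_of_nonneg zero_le_one fun k _ => ?_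
  rw [norm_mul]
  exact mul_le_one₀ (hA i k) (norm_nonneg _) (hB k j)

theorem MI.add [IsUltrametricDist Ω] {m n : Type} {A B : Matrix m n Ω} (hA : MI A) (hB : MI B) :
    MI (A + B) := by
  intro i j
  exact (IsUltrametricDist.norm_add_le_max _ _).trans (max_le (hA i j) (hB i j))

theorem MI.sub [IsUltrametricDist Ω] {m n : Type} {A B : Matrix m n Ω} (hA : MI A) (hB : MI B) :
    MI (A - B) := by
  intro i j
  rw [Matrix.sub_apply, sub_eq_add_neg]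
  exact (IsUltrametricDist.norm_add_le_max _ _).trans
    (max_le (hA i j) ((norm_neg _).trans_le (hB i j)))

theorem MI.smul {m n : Type} {A : Matrix m n Ω} (hA : MI A) {c : Ω} (hc : ‖c‖ ≤ 1) :
    MI (c • A) := by
  intro i j
  rw [Matrix.smul_apply, smul_eq_mul, norm_mul]
  exact mul_le_one₀ hc (norm_nonneg _) (hA i j)

theorem MI.one {n : Type} [DecidableEq n] : MI (1 : Matrix n n Ω) := by
  intro i j
  rw [one_apply]
  split_ifs <;> simp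

/-- On the square with vertices `β u ^ i v ^ j` the polynomial `γ` is a product of two integral
functions of the coordinates. -/
def Prod2 (β u v : Ω) (γ : Polynomial Ω) : Prop :=
  ∃ (d₀ : Ω) (d₁ d₂ : Fin 2 → Ω), ‖d₀‖ ≤ 1 ∧ (∀ i, ‖d₁ i‖ ≤ 1) ∧ (∀ i, ‖d₂ i‖ ≤ 1) ∧
    ‖d₁ 0 - d₁ 1‖ ≤ ‖u - 1‖ ∧ ‖d₂ 0 - d₂ 1‖ ≤ ‖v - 1‖ ∧
    ∀ i j : Fin 2, γ.eval (β * u ^ (i : ℕ) * v ^ (j : ℕ)) = d₀ * d₁ i * d₂ j

/-- A square of units. -/
structure Sq (β u v : Ω) : Prop where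
  nβ : ‖β‖ = 1
  nu : ‖u‖ = 1
  nv : ‖v‖ = 1
  u2 : u ^ 2 ≠ 1
  v2 : v ^ 2 ≠ 1
  inj : Function.Injective fun q : Fin 2 × Fin 2 => β * u ^ (q.1 : ℕ) * v ^ (q.2 : ℕ)

theorem facec_two {n : Type} [Fintype n] [DecidableEq n] {A : Matrix n n Ω} {a : Fin 2 → Ω}
    (ha : (A - a 0 • 1) * (A - a 1 • 1) = 0) (w : n → Ω) :
    A *ᵥ (A *ᵥ w - a 1 • w) = a 0 • (A *ᵥ w - a 1 • w) ∧
      A *ᵥ (A *ᵥ w - a 0 • w) = a 1 • (A *ᵥ w - a 0 • w) := by
  have h := congrArg (· *ᵥ w) ha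
  simp only [← mulVec_mulVec, sub_mulVec, smul_mulVec, one_mulVec, zero_mulVec, mulVec_sub,
    mulVec_smul] at h
  simp only [mulVec_sub, mulVec_smul]
  constructor
  · linear_combination (norm := module) h
  · linear_combination (norm := module) h

theorem facec_step {n : Type} [Fintype n] [DecidableEq n] {A : Matrix n n Ω} {a : Fin 2 → Ω}
    (ha : (A - a 0 • 1) * (A - a 1 • 1) = 0) (P : (n → Ω) → Prop)
    (hP : ∀ w (c : Ω), P w → P (A *ᵥ w - c • w)) {w : n → Ω} (h0 : w ≠ 0) (hw : P w) :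
    ∃ i w', w' ≠ 0 ∧ P w' ∧ A *ᵥ w' = a i • w' := by
  by_cases h : A *ᵥ w - a 1 • w = 0
  · exact ⟨1, w, h0, hw, sub_eq_zero.1 h⟩
  · exact ⟨0, _, h, hP w _ hw, (facec_two ha w).1⟩

theorem facec_comm {n : Type} [Fintype n] {A B : Matrix n n Ω} (h : Commute A B) {w : n → Ω}
    {x : Ω} (hw : A *ᵥ w = x • w) (c : Ω) : A *ᵥ (B *ᵥ w - c • w) = x • (B *ᵥ w - c • w) := by
  rw [mulVec_sub, mulVec_mulVec, h.eq, ← mulVec_mulVec, mulVec_smul, hw, mulVec_smul, smul_sub,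
    smul_comm c x]

/-- A non-zero eigenvalue of `lam F A B` is `lam * a i * b j`: `F w = w`; replace `w` by
`(A - a 1) w` if this is not zero, then the same with `B`. -/
theorem eigen_eq {n : Type} [Fintype n] [DecidableEq n] {F A B : Matrix n n Ω} (hF : F * F = F)
    (hFA : Commute F A) (hFB : Commute F B) (hAB : Commute A B) {a b : Fin 2 → Ω} {lam α : Ω}
    (ha : (A - a 0 • 1) * (A - a 1 • 1) = 0) (hb : (B - b 0 • 1) * (B - b 1 • 1) = 0)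
    (hα : α ≠ 0) {w : n → Ω} (hw : w ≠ 0) (h : (lam • (F * A * B)) *ᵥ w = α • w) :
    ∃ i j, α = lam * a i * b j := by
  have hA : Commute (lam • (F * A * B)) A :=
    ((hFA.mul_left (Commute.refl A)).mul_left hAB.symm).smul_left lam
  have hB : Commute (lam • (F * A * B)) B :=
    ((hFB.mul_left hAB).mul_left (Commute.refl B)).smul_left lam
  obtain ⟨i, w1, h1, h2, h3⟩ := facec_step ha (fun w => (lam • (F * A * B)) *ᵥ w = α • w)
    (fun w c hw => facec_comm hA hw c) hw h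
  obtain ⟨j, w2, h4, ⟨h5, h6⟩, h7⟩ := facec_step hb
    (fun w => (lam • (F * A * B)) *ᵥ w = α • w ∧ A *ᵥ w = a i • w)
    (fun w c hw => ⟨facec_comm hB hw.1 c, facec_comm hAB hw.2 c⟩) h1 ⟨h2, h3⟩
  refine ⟨i, j, ?_⟩
  rw [smul_mulVec, ← mulVec_mulVec, ← mulVec_mulVec, h7, mulVec_smul, h6, mulVec_smul, mulVec_smul,
    smul_smul, smul_smul] at h5
  have h8 : F *ᵥ w2 ≠ 0 := fun h0 => by
    rw [h0, smul_zero] at h5
    exact smul_ne_zero hα h4 h5.symm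
  have h9 := congrArg (F *ᵥ ·) h5
  simp only [mulVec_smul, mulVec_mulVec, hF] at h9
  rw [← smul_left_injective Ω h8 h9]
  ring

set_option synthInstance.maxSize 4096 in
theorem facec_comb : ∀ p q r s : Fin 2 × Fin 2, p ≠ q → p ≠ r → p ≠ s → q ≠ r → q ≠ s → r ≠ s →
    (∃ σ τ : Equiv.Perm (Fin 2),
      (p = (σ 0, τ 0) ∧ q = (σ 0, τ 1) ∧ r = (σ 1, τ 0) ∧ s = (σ 1, τ 1)) ∨
      (p = (σ 0, τ 0) ∧ q = (σ 1, τ 0) ∧ r = (σ 0, τ 1) ∧ s = (σ 1, τ 1))) ∨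
    ((p.2 : ℕ) + s.2 = q.2 + r.2 ∧ ((p.1 : ℕ) + s.1 = q.1 + r.1 + 2 ∨
      (q.1 : ℕ) + r.1 = p.1 + s.1 + 2)) ∨
    ((p.1 : ℕ) + s.1 = q.1 + r.1 ∧ ((p.2 : ℕ) + s.2 = q.2 + r.2 + 2 ∨
      (q.2 : ℕ) + r.2 = p.2 + s.2 + 2)) := by
  decide +kernel

theorem facec_bad {u v : Ω} (hu : u ≠ 0) (hv : v ≠ 0) {m m' k k' : ℕ}
    (h : u ^ m * v ^ k = u ^ m' * v ^ k') (hk : k = k') (hm : m = m' + 2 ∨ m' = m + 2) :
    u ^ 2 = 1 := by
  subst hk
  have h1 := mul_right_cancel₀ (pow_ne_zero k hv) h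
  rcases hm with rfl | rfl
  · rw [pow_add] at h1
    exact mul_left_cancel₀ (pow_ne_zero m' hu) (h1.trans (mul_one _).symm)
  · rw [pow_add] at h1
    exact mul_left_cancel₀ (pow_ne_zero m hu) (h1.symm.trans (mul_one _).symm)

/-- Two descriptions of the same four points as a parallelogram agree up to symmetries. The map
from the square to the pairs `(i, j)` is injective, so bijective; the diagonals have equal
products; another pairing gives `u ^ 2 = 1` or `v ^ 2 = 1`. -/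
theorem sq_match {β u v lam : Ω} (hs : Sq β u v) {a b : Fin 2 → Ω}
    (h : ∀ i j : Fin 2, ∃ i' j', β * u ^ (i : ℕ) * v ^ (j : ℕ) = lam * a i' * b j') :
    ∃ s t : Equiv.Perm (Fin 2),
      (∀ i j, lam * a i * b j = β * u ^ (s i : ℕ) * v ^ (t j : ℕ)) ∨
      (∀ i j, lam * a i * b j = β * u ^ (s j : ℕ) * v ^ (t i : ℕ)) := by
  choose f1 f2 hf using h
  let f : Fin 2 × Fin 2 → Fin 2 × Fin 2 := fun q => (f1 q.1 q.2, f2 q.1 q.2)
  have hinj : Function.Injective f := fun q q' e => hs.inj (by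
    simp only
    rw [hf, hf, show f1 q.1 q.2 = f1 q'.1 q'.2 from congrArg Prod.fst e,
      show f2 q.1 q.2 = f2 q'.1 q'.2 from congrArg Prod.snd e])
  let g := (Equiv.ofBijective f (Finite.injective_iff_bijective.1 hinj)).symm
  have hg : ∀ i j, lam * a i * b j = β * u ^ ((g (i, j)).1 : ℕ) * v ^ ((g (i, j)).2 : ℕ) := by
    intro i j
    have e : f (g (i, j)) = (i, j) := (Equiv.ofBijective f _).apply_symm_apply (i, j)
    rw [hf, show f1 (g (i, j)).1 (g (i, j)).2 = i from congrArg Prod.fst e,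
      show f2 (g (i, j)).1 (g (i, j)).2 = j from congrArg Prod.snd e]
  have hβ : β ≠ 0 := norm_ne_zero_iff.1 (hs.nβ.trans_ne one_ne_zero)
  have hu : u ≠ 0 := norm_ne_zero_iff.1 (hs.nu.trans_ne one_ne_zero)
  have hv : v ≠ 0 := norm_ne_zero_iff.1 (hs.nv.trans_ne one_ne_zero)
  have hrel : u ^ (((g (0, 0)).1 : ℕ) + (g (1, 1)).1) * v ^ (((g (0, 0)).2 : ℕ) + (g (1, 1)).2) =
      u ^ (((g (0, 1)).1 : ℕ) + (g (1, 0)).1) * v ^ (((g (0, 1)).2 : ℕ) + (g (1, 0)).2) := by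
    apply mul_left_cancel₀ (mul_ne_zero hβ hβ)
    simp only [pow_add]
    linear_combination (lam * a 1 * b 0) * hg 0 1 - (lam * a 1 * b 1) * hg 0 0 +
      (β * u ^ ((g (0, 1)).1 : ℕ) * v ^ ((g (0, 1)).2 : ℕ)) * hg 1 0 -
      (β * u ^ ((g (0, 0)).1 : ℕ) * v ^ ((g (0, 0)).2 : ℕ)) * hg 1 1
  rcases facec_comb (g (0, 0)) (g (0, 1)) (g (1, 0)) (g (1, 1)) (g.injective.ne (by decide))
    (g.injective.ne (by decide)) (g.injective.ne (by decide)) (g.injective.ne (by decide))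
    (g.injective.ne (by decide)) (g.injective.ne (by decide)) with
    ⟨σ, τ, ⟨h1, h2, h3, h4⟩ | ⟨h1, h2, h3, h4⟩⟩ | ⟨h1, h2⟩ | ⟨h1, h2⟩
  · refine ⟨σ, τ, Or.inl ?_⟩
    simp only [Fin.forall_fin_two, hg, h1, h2, h3, h4, and_self]
  · refine ⟨σ, τ, Or.inr ?_⟩
    simp only [Fin.forall_fin_two, hg, h1, h2, h3, h4, and_self]
  · exact absurd (facec_bad hu hv hrel h1 h2) hs.u2
  · exact absurd (facec_bad hv hu ((mul_comm _ _).trans (hrel.trans (mul_comm _ _))) h1 h2) hs.v2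

theorem facec_span {n : Type} [Fintype n] [DecidableEq n] {A N : Matrix n n Ω} {a : Fin 2 → Ω}
    (ha : (A - a 0 • 1) * (A - a 1 • 1) = 0) (hne : a 0 ≠ a 1) (P : (n → Ω) → Prop)
    (hP : ∀ w (c : Ω), P w → P (A *ᵥ w - c • w))
    (hN : ∀ i w, P w → A *ᵥ w = a i • w → N *ᵥ w = 0) {w : n → Ω} (hw : P w) : N *ᵥ w = 0 := by
  have h0 := hN 0 _ (hP w _ hw) (facec_two ha w).1
  have h1 := hN 1 _ (hP w _ hw) (facec_two ha w).2
  rw [mulVec_sub, mulVec_smul] at h0 h1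
  have h2 : (a 0 - a 1) • N *ᵥ w = 0 := by linear_combination (norm := module) h0 - h1
  exact (smul_eq_zero.1 h2).resolve_left (sub_ne_zero.2 hne)

theorem facec_aeval {n : Type} [Fintype n] [DecidableEq n] {M : Matrix n n Ω} {w : n → Ω} {c : Ω}
    (h : M *ᵥ w = c • w) (γ : Polynomial Ω) : aeval M γ *ᵥ w = γ.eval c • w := by
  induction γ using Polynomial.induction_on with
  | C a => simp [Algebra.algebraMap_eq_smul_one, smul_mulVec]
  | add f g hf hg => rw [map_add, add_mulVec, hf, hg, eval_add, add_smul]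
  | monomial k a hk =>
    rw [pow_succ, ← mul_assoc, map_mul, aeval_X, ← mulVec_mulVec, h, mulVec_smul, hk, eval_mul,
      eval_mul (q := X), eval_X, smul_smul, eval_mul, mul_comm]

theorem facec_lin [IsUltrametricDist Ω] {a e : Fin 2 → Ω} (hne : a 0 ≠ a 1) (na : ‖a 0‖ ≤ 1)
    (ne : ‖e 0‖ ≤ 1) (h : ‖e 0 - e 1‖ ≤ ‖a 0 - a 1‖) :
    ∃ x y : Ω, ‖x‖ ≤ 1 ∧ ‖y‖ ≤ 1 ∧ ∀ i, x + y * a i = e i := by
  have h0 : a 0 - a 1 ≠ 0 := sub_ne_zero.2 hne
  have hy : ‖(e 0 - e 1) / (a 0 - a 1)‖ ≤ 1 := by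
    rw [norm_div]
    exact div_le_one_of_le₀ h (norm_nonneg _)
  refine ⟨e 0 + -((e 0 - e 1) / (a 0 - a 1) * a 0), (e 0 - e 1) / (a 0 - a 1), ?_, hy, ?_⟩
  · refine (IsUltrametricDist.norm_add_le_max _ _).trans (max_le ne ?_)
    rw [norm_neg, norm_mul]
    exact mul_le_one₀ hy (norm_nonneg _) na
  · rw [Fin.forall_fin_two]
    constructor
    · ring
    · field_simp
      ring

theorem facec_core [IsUltrametricDist Ω] {n : Type} [Fintype n] [DecidableEq n]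
    {F A B : Matrix n n Ω} (hF : F * F = F) (hFA : Commute F A) (hFB : Commute F B)
    (hAB : Commute A B) (iF : MI F) (iA : MI A) (iB : MI B) {a b : Fin 2 → Ω} {lam : Ω}
    (ha : (A - a 0 • 1) * (A - a 1 • 1) = 0) (hb : (B - b 0 • 1) * (B - b 1 • 1) = 0)
    (na : ‖a 0‖ ≤ 1) (nb : ‖b 0‖ ≤ 1) (hna : a 0 ≠ a 1) (hnb : b 0 ≠ b 1) {γ : Polynomial Ω}
    {d : Ω} {e e' : Fin 2 → Ω} (hd : ‖d‖ ≤ 1) (he : ‖e 0‖ ≤ 1) (he' : ‖e' 0‖ ≤ 1)
    (h1 : ‖e 0 - e 1‖ ≤ ‖a 0 - a 1‖) (h2 : ‖e' 0 - e' 1‖ ≤ ‖b 0 - b 1‖)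
    (hγ : ∀ i j, γ.eval (lam * a i * b j) = d * e i * e' j) :
    MI (F * aeval (lam • (F * A * B)) γ) := by
  obtain ⟨x, y, hx, hy, hxy⟩ := facec_lin hna na he h1
  obtain ⟨x', y', hx', hy', hxy'⟩ := facec_lin hnb nb he' h2
  have hFM : Commute F (aeval (lam • (F * A * B)) γ) := by
    have h : Commute F (lam • (F * A * B)) :=
      (((Commute.refl F).mul_right hFA).mul_right hFB).smul_right lam
    rw [aeval_eq_sum_range]
    exact Commute.sum_right _ _ _ fun k _ => (h.pow_right k).smul_right _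
  have key : F * aeval (lam • (F * A * B)) γ = d • (F * (x • 1 + y • A) * (x' • 1 + y' • B)) := by
    rw [← sub_eq_zero, Matrix.ext_iff_mulVec]
    intro w
    rw [zero_mulVec]
    refine facec_span ha hna (fun _ => True) (fun _ _ _ => trivial) (fun i w _ hw => ?_) trivial
    refine facec_span hb hnb (fun w => A *ᵥ w = a i • w) (fun w c hw => facec_comm hAB hw c)
      (fun j w hA hB => ?_) hw
    have hM : (lam • (F * A * B)) *ᵥ (F *ᵥ w) = (lam * a i * b j) • (F *ᵥ w) := by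
      rw [mulVec_mulVec, smul_mul_assoc, mul_assoc, ← hFB.eq, ← mul_assoc, mul_assoc F, ← hFA.eq,
        ← mul_assoc, hF, smul_mulVec, ← mulVec_mulVec, ← mulVec_mulVec, hB, mulVec_smul, hA,
        mulVec_smul, mulVec_smul, smul_smul, smul_smul, mul_right_comm]
    rw [sub_mulVec, hFM.eq, ← mulVec_mulVec, facec_aeval hM, hγ, ← hxy, ← hxy']
    simp only [smul_mulVec, ← mulVec_mulVec, add_mulVec, one_mulVec, mulVec_add, mulVec_smul, hA,
      hB]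
    module
  rw [key]
  exact ((iF.mul ((MI.one.smul hx).add (iA.smul hy))).mul
    ((MI.one.smul hx').add (iB.smul hy'))).smul hd

theorem facec_perm (s : Equiv.Perm (Fin 2)) (f : Fin 2 → Ω) :
    ‖f (s 0) - f (s 1)‖ = ‖f 0 - f 1‖ := by
  have h : ∀ s : Equiv.Perm (Fin 2), (s 0 = 0 ∧ s 1 = 1) ∨ (s 0 = 1 ∧ s 1 = 0) := by decide
  rcases h s with ⟨h0, h1⟩ | ⟨h0, h1⟩
  · rw [h0, h1]
  · rw [h0, h1, norm_sub_rev]

theorem facec_diff {c c' u : Ω} {a : Fin 2 → Ω} {s : Equiv.Perm (Fin 2)} (hc : ‖c‖ ≤ 1)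
    (hc' : ‖c'‖ = 1) (h : ∀ i, c * a i = c' * u ^ (s i : ℕ)) : ‖u - 1‖ ≤ ‖a 0 - a 1‖ := by
  have h1 := facec_perm s fun i => u ^ (i : ℕ)
  have h2 : ‖c‖ * ‖a 0 - a 1‖ = ‖u - 1‖ := by
    rw [← norm_mul, mul_sub, h, h, ← mul_sub, norm_mul, hc', one_mul, h1, norm_sub_rev]
    simp
  rw [← h2]
  exact mul_le_of_le_one_left (norm_nonneg _) hc

/-- All `a i`, `b j`, `lam` are units, `‖a 0 - a 1‖ = ‖u - 1‖` (or `‖v - 1‖`). With integral
`x, y` such that `x + y * a i = d₁ (s i)` and the same for `b`, the matrix equals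
`d₀ • F (x + y A) (x' + y' B)`: multiply by the spectral projectors of `A` and `B`. -/
theorem face_two [IsUltrametricDist Ω] {n : Type} [Fintype n] [DecidableEq n]
    {F A B : Matrix n n Ω} (hF : F * F = F) (hFA : Commute F A) (hFB : Commute F B)
    (hAB : Commute A B) (iF : MI F) (iA : MI A) (iB : MI B) {a b : Fin 2 → Ω} {lam : Ω}
    (ha : (A - a 0 • 1) * (A - a 1 • 1) = 0) (hb : (B - b 0 • 1) * (B - b 1 • 1) = 0)
    (na : ∀ i, ‖a i‖ ≤ 1) (nb : ∀ i, ‖b i‖ ≤ 1) (nl : ‖lam‖ ≤ 1) {β u v : Ω} (hs : Sq β u v)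
    (hev : ∀ i j : Fin 2, ∃ w : n → Ω, w ≠ 0 ∧
      (lam • (F * A * B)) *ᵥ w = (β * u ^ (i : ℕ) * v ^ (j : ℕ)) • w)
    {γ : Polynomial Ω} (hγ : Prod2 β u v γ) : MI (F * aeval (lam • (F * A * B)) γ) := by
  have hn : ∀ i j : ℕ, ‖β * u ^ i * v ^ j‖ = 1 := fun i j => by
    simp [hs.nβ, hs.nu, hs.nv]
  have hu : 0 < ‖u - 1‖ := norm_pos_iff.2 (sub_ne_zero.2 fun h => hs.u2 (by rw [h, one_pow]))
  have hv : 0 < ‖v - 1‖ := norm_pos_iff.2 (sub_ne_zero.2 fun h => hs.v2 (by rw [h, one_pow]))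
  have la : ‖lam * a 0‖ ≤ 1 := (norm_mul _ _).trans_le (mul_le_one₀ nl (norm_nonneg _) (na 0))
  have lb : ‖lam * b 0‖ ≤ 1 := (norm_mul _ _).trans_le (mul_le_one₀ nl (norm_nonneg _) (nb 0))
  have nu : ∀ i : ℕ, ‖β * u ^ i‖ = 1 := fun i => by simp [hs.nβ, hs.nu]
  have nv : ∀ i : ℕ, ‖β * v ^ i‖ = 1 := fun i => by simp [hs.nβ, hs.nv]
  have ne : ∀ {x y : Ω} {r : ℝ}, 0 < r → r ≤ ‖x - y‖ → x ≠ y := fun h h' =>
    sub_ne_zero.1 (norm_pos_iff.1 (h.trans_le h'))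
  obtain ⟨d₀, d₁, d₂, n0, n1, n2, l1, l2, hγ⟩ := hγ
  obtain ⟨s, t, h | h⟩ := sq_match hs (lam := lam) (a := a) (b := b) fun i j => by
    obtain ⟨w, hw, h⟩ := hev i j
    exact eigen_eq hF hFA hFB hAB ha hb (norm_ne_zero_iff.1 ((hn i j).trans_ne one_ne_zero)) hw h
  · have h1 : ‖u - 1‖ ≤ ‖a 0 - a 1‖ :=
      facec_diff (s := s) lb (nv (t 0)) fun i => by linear_combination h i 0
    have h2 : ‖v - 1‖ ≤ ‖b 0 - b 1‖ := facec_diff (s := t) la (nu (s 0)) fun j => h 0 j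
    exact facec_core hF hFA hFB hAB iF iA iB ha hb (na 0) (nb 0) (ne hu h1) (ne hv h2)
      (e := fun i => d₁ (s i)) (e' := fun j => d₂ (t j)) n0 (n1 _) (n2 _)
      ((facec_perm s d₁).trans_le (l1.trans h1)) ((facec_perm t d₂).trans_le (l2.trans h2))
      fun i j => by rw [h, hγ]
  · have h1 : ‖v - 1‖ ≤ ‖a 0 - a 1‖ :=
      facec_diff (s := t) lb (nu (s 0)) fun i => by linear_combination h i 0
    have h2 : ‖u - 1‖ ≤ ‖b 0 - b 1‖ :=
      facec_diff (s := s) la (nv (t 0)) fun j => by linear_combination h 0 j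
    exact facec_core hF hFA hFB hAB iF iA iB ha hb (na 0) (nb 0) (ne hv h1) (ne hu h2)
      (e := fun i => d₂ (t i)) (e' := fun j => d₁ (s j)) n0 (n2 _) (n1 _)
      ((facec_perm t d₂).trans_le (l2.trans h1)) ((facec_perm s d₁).trans_le (l1.trans h2))
      fun i j => by rw [h, hγ, mul_right_comm]

end

end M4.B2
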