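import Pool.Agent.Lib.MP_33b3f9_ag.M4.B2.FaceB
import Pool.Agent.Lib.MP_33b3f9_ag.M4.B2.FaceC

/-!
Integrality on the etale quotient.
-/

set_option autoImplicit false

namespace M4.B2

open Matrix Polynomial

noncomputable section

variable {p : ℕ} [Fact p.Prime]

theorem faceD_eval {R : Type} [Ring R] {F s : R} (hF : F * F = F) (hs : F * s * F = F * s)
    (f : ℤ →+* R) (δ : ℤ[X]) : F * δ.eval₂ f (F * s) = F * δ.eval₂ f s := by
  have h1 : ∀ n : ℕ, F * (F * s) ^ n = F * s ^ n := by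
    intro n
    induction n with
    | zero => rw [pow_zero, pow_zero]
    | succ n ih =>
      calc F * (F * s) ^ (n + 1) = F * F * s * (F * s) ^ n := by
            rw [pow_succ']; simp only [mul_assoc]
        _ = F * s * (F * (F * s) ^ n) := by rw [hF, ← mul_assoc (F * s), hs]
        _ = _ := by rw [ih, ← mul_assoc, hs, pow_succ', mul_assoc]
  simp only [eval₂_eq_sum, Polynomial.sum, Finset.mul_sum, eq_intCast, ← zsmul_eq_mul,
    mul_smul_comm, h1]

/-- The embedding of the `p`-adic integers in the algebraic closure. -/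
def faceD_φ (p : ℕ) [Fact p.Prime] : ℤ_[p] →+* PadicAlgCl p :=
  (algebraMap ℚ_[p] (PadicAlgCl p)).comp PadicInt.Coe.ringHom

theorem faceD_norm (x : ℤ_[p]) : ‖faceD_φ p x‖ = ‖x‖ := PadicAlgCl.norm_extends p (x : ℚ_[p])

theorem faceD_inj : Function.Injective (faceD_φ p) :=
  (algebraMap ℚ_[p] (PadicAlgCl p)).injective.comp Subtype.val_injective

theorem faceD_mO (x : Matrix ν ν ℤ_[p]) : mO x = (faceD_φ p).mapMatrix x := rfl

/-- Conjugation as a ring homomorphism. -/
def faceD_cj {R κ : Type} [CommRing R] [Fintype κ] [DecidableEq κ] {S : Matrix ν κ R}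
    {S' : Matrix κ ν R} (h1 : S * S' = 1) (h2 : S' * S = 1) : Matrix ν ν R →+* Matrix κ κ R where
  toFun x := S' * x * S
  map_one' := by rw [Matrix.mul_one, h2]
  map_mul' x y := by
    calc S' * (x * y) * S = S' * x * (S * S') * y * S := by
          rw [h1, Matrix.mul_one, Matrix.mul_assoc S' x y]
      _ = _ := by simp only [Matrix.mul_assoc]
  map_zero' := by rw [Matrix.mul_zero, Matrix.zero_mul]
  map_add' x y := by rw [Matrix.mul_add, Matrix.add_mul]

/-- Conjugate by `S`, `S'` (a ring isomorphism between the two matrix rings that keeps `MI`), use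
`exists_face` and `face_two`; `F σ ^ n = F (F σ) ^ n` for `F = 1 - e`; the norm of the algebraic
closure extends the norm of `ℚ_p`. -/
theorem face_int {g σ e : Matrix ν ν ℤ_[p]} {χ : ℤ_[p]} (hT : Tens ![g, σ])
    (hge : g - 1 = (χ - 1) • e) (he : e * e = e) (he0 : e ≠ 0) (he1 : e ≠ 1)
    (hσ : (1 - e) * σ * e = 0) (hu : IsUnit σ) (h0 : χ ≠ 0) (h2 : χ ^ 2 ≠ 1)
    {β u v : PadicAlgCl p} (hs : Sq β u v)
    (hev : ∀ i j : Fin 2, ∃ w : ν → PadicAlgCl p, w ≠ 0 ∧
      mO ((1 - e) * σ) *ᵥ w = (β * u ^ (i : ℕ) * v ^ (j : ℕ)) • w)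
    {δ : ℤ[X]} {j : ℕ}
    (hδ : Prod2 β u v (C ((p : PadicAlgCl p) ^ j)⁻¹ * δ.map (Int.castRingHom _))) (a b : ν) :
    (p : ℤ_[p]) ^ j ∣ ((1 - e) * aeval σ δ) a b := by
  obtain ⟨S, S', iS, iS', h1, h1', hT⟩ := hT
  obtain ⟨g', -, hg'⟩ := hT 0
  obtain ⟨s', is', hs'⟩ := hT 1
  let Φ := (faceD_cj h1 h1').comp (faceD_φ p).mapMatrix
  have hΦ : ∀ x, Φ x = S' * mO x * S := fun _ => rfl
  have hback : ∀ x, S * Φ x * S' = mO x := fun x => by
    calc S * Φ x * S' = S * S' * mO x * (S * S') := by simp only [hΦ, Matrix.mul_assoc]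
      _ = _ := by rw [h1, Matrix.one_mul, Matrix.mul_one]
  have hinj : Function.Injective Φ := fun x y h => by
    have h3 := hback x
    rw [h, hback] at h3
    exact Matrix.ext fun i k => faceD_inj (congrFun (congrFun h3.symm i) k)
  have htp : ∀ (x : Matrix ν ν ℤ_[p]) (t : Fin 3 → Matrix (Fin 2) (Fin 2) (PadicAlgCl p)),
      mO x = S * tp t * S' → tp t = Φ x := fun x t h => by
    calc tp t = S' * S * tp t * (S' * S) := by rw [h1', Matrix.one_mul, Matrix.mul_one]
      _ = _ := by simp only [hΦ, h, Matrix.mul_assoc]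
  have iΦ : ∀ x, MI (Φ x) := fun x => by
    have h3 : MI (mO x) := fun i k => (faceD_norm (x i k)).trans_le (PadicInt.norm_le_one _)
    rw [hΦ]
    exact MI.mul (MI.mul iS' h3) iS
  have hsm : ∀ (c : ℤ_[p]) x, Φ (c • x) = faceD_φ p c • Φ x := fun c x => by
    have h3 : mO (c • x) = faceD_φ p c • mO x :=
      Matrix.ext fun i k => map_mul (faceD_φ p) c (x i k)
    rw [hΦ, hΦ, h3, Matrix.mul_smul, Matrix.smul_mul]
  have hg : tp g' = Φ g := htp g g' hg'
  have hσ' : tp s' = Φ σ := htp σ s' hs'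
  obtain ⟨A, B, a', b', lam, c1, c2, c3, iA, iB, ha, hb, na, nb, nl, hl⟩ :=
    exists_face (g := g') (h := s') (χ := faceD_φ p χ) (e := Φ e)
      (by rw [hg, ← map_one Φ, ← map_sub, hge, hsm, map_sub, map_one])
      (by rw [← map_mul, he]) (fun h => he0 (hinj (h.trans (map_zero Φ).symm)))
      (fun h => he1 (hinj (h.trans (map_one Φ).symm))) (iΦ e)
      (fun h => h0 (faceD_inj (h.trans (map_zero _).symm)))
      (fun h => h2 (faceD_inj (by rw [map_pow, h, map_one]))) is'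
      (by rw [hσ']; exact (hu.map Φ).ne_zero)
      (by rw [hσ', ← map_one Φ, ← map_sub, ← map_mul, ← map_mul, hσ, map_zero])
  have hF : 1 - Φ e = Φ (1 - e) := by rw [map_sub, map_one]
  have hee : (1 - e) * (1 - e) = 1 - e := by
    rw [mul_sub, mul_one, sub_mul, one_mul, he, sub_self, sub_zero]
  have hl' : lam • ((1 - Φ e) * A * B) = Φ ((1 - e) * σ) := by rw [← hl, hσ', hF, map_mul]
  have h3 := face_two (by rw [hF, ← map_mul, hee]) c1 c2 c3 (by rw [hF]; exact iΦ _) iA iB ha hb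
    na nb nl hs (fun i k => by
      obtain ⟨w, hw, hw'⟩ := hev i k
      have h4 : S *ᵥ S' *ᵥ w = w := by rw [mulVec_mulVec, h1, one_mulVec]
      refine ⟨S' *ᵥ w, fun h => hw (by rw [← h4, h, mulVec_zero]), ?_⟩
      rw [hl', hΦ, ← mulVec_mulVec, ← mulVec_mulVec, h4, hw', mulVec_smul]) hδ
  have h5 : (1 - e) * aeval σ δ = (1 - e) * δ.eval₂ (Int.castRingHom _) ((1 - e) * σ) := by
    rw [faceD_eval hee (by rw [mul_sub, mul_one, hσ, sub_zero]), aeval_def]
    exact congrArg (fun f => (1 - e) * δ.eval₂ f σ) (RingHom.ext_int _ _)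
  have h6 : (1 - Φ e) * aeval (lam • ((1 - Φ e) * A * B))
      (C ((p : PadicAlgCl p) ^ j)⁻¹ * δ.map (Int.castRingHom _)) =
      ((p : PadicAlgCl p) ^ j)⁻¹ • Φ ((1 - e) * aeval σ δ) := by
    rw [hl', h5, map_mul, aeval_C, ← Algebra.smul_def, mul_smul_comm, hF, aeval_def, eval₂_map,
      map_mul Φ (1 - e) (δ.eval₂ _ _), hom_eval₂]
    exact congrArg (fun f => ((p : PadicAlgCl p) ^ j)⁻¹ • (Φ (1 - e) * δ.eval₂ f _))
      (RingHom.ext_int _ _)
  rw [h6] at h3
  have h7 := (iS.mul h3).mul iS' a b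
  rw [Matrix.mul_smul, Matrix.smul_mul, hback, Matrix.smul_apply, smul_eq_mul, norm_mul, norm_inv,
    ← map_natCast (faceD_φ p), ← map_pow, faceD_norm, PadicInt.norm_p_pow] at h7
  have h8 : (0 : ℝ) < (p : ℝ) ^ (-j : ℤ) :=
    zpow_pos (Nat.cast_pos.2 (Fact.out : p.Prime).pos) _
  rw [inv_mul_le_iff₀ h8, mul_one] at h7
  rw [← Ideal.mem_span_singleton, ← PadicInt.norm_le_pow_iff_mem_span_pow, ← faceD_norm]
  exact h7

end

end M4.B2
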