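import Mathlib

/-!
Polar forms of quadratic functions on integral polynomials.
-/

set_option autoImplicit false

namespace M4.B2

open Matrix Polynomial

noncomputable section

/-- The parallelogram law. -/
def Par (h : ℤ[X] → ℕ) : Prop := ∀ a b, h (a + b) + h (a - b) = 2 * h a + 2 * h b

/-- `B` is the polar form of `h`. -/
def IsPolar (h : ℤ[X] → ℕ) (B : ℤ[X] →ₗ[ℤ] ℤ[X] →ₗ[ℤ] ℤ) : Prop :=
  ∀ a b, B a b = (h (a + b) : ℤ) - h a - h b

/-- Subtract the laws at `(a + b, a' + b)` and `(a, a')`; the values are torsion free. -/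
theorem exists_polar {h : ℤ[X] → ℕ} (hp : Par h) : ∃ B, IsPolar h B := by
  have key : ∀ x y z : ℤ[X], (h (x + y + z) : ℤ) - h (x + y) - h z =
      ((h (x + z) : ℤ) - h x - h z) + ((h (y + z) : ℤ) - h y - h z) := by
    intro x y z
    have h1 := hp (x + y) z
    have h2 := hp x (y - z)
    have h3 := hp (x + z) y
    have h4 := hp y z
    rw [show x + (y - z) = x + y - z by ring, show x - (y - z) = x + z - y by ring] at h2
    rw [show x + z + y = x + y + z by ring] at h3
    omega
  let f : ℤ[X] → ℤ[X] →+ ℤ := fun b =>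
    AddMonoidHom.mk' (fun a => (h (a + b) : ℤ) - h a - h b) fun x y => key x y b
  have hf : ∀ a b, f b a = f a b := fun a b => by
    change (h (a + b) : ℤ) - h a - h b = (h (b + a) : ℤ) - h b - h a
    rw [add_comm]; ring
  exact ⟨LinearMap.mk₂ ℤ (fun a b => f b a) (fun x y b => map_add _ _ _)
    (fun c x b => map_zsmul _ _ _) (fun a x y => by rw [hf, map_add, hf x, hf y])
    (fun c a x => by rw [hf, map_zsmul, hf x]), fun a b => rfl⟩

variable {h : ℤ[X] → ℕ} {B : ℤ[X] →ₗ[ℤ] ℤ[X] →ₗ[ℤ] ℤ}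

theorem IsPolar.symm (hB : IsPolar h B) (a b : ℤ[X]) : B a b = B b a := by
  rw [hB, hB, add_comm]; ring

theorem IsPolar.self (hp : Par h) (hB : IsPolar h B) (a : ℤ[X]) : B a a = 2 * h a := by
  have h0 := hp 0 0
  have h1 := hp a a
  rw [add_zero, sub_zero] at h0
  rw [sub_self] at h1
  rw [hB]
  omega

/-- `0 ≤ h (n a + b) = n B a b + h b` for all integers `n`. -/
theorem IsPolar.eq_zero (hp : Par h) (hB : IsPolar h B) {a : ℤ[X]} (ha : h a = 0) (b : ℤ[X]) :
    B a b = 0 := by
  have key : ∀ n : ℤ, 0 ≤ n * B a b + h b := by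
    intro n
    have h1 := hB (n • a) b
    have h2 := hB.self hp (n • a)
    simp only [map_smul, LinearMap.smul_apply, smul_eq_mul] at h1 h2
    rw [hB.self hp a, ha] at h2
    simp only [Nat.cast_zero, mul_zero] at h2
    omega
  have h1 := key (-((h b + 1) * B a b))
  by_contra hne
  have h2 : 0 < B a b * B a b := mul_self_pos.2 hne
  have h3 : (0 : ℤ) ≤ h b := Int.natCast_nonneg _
  nlinarith

/-- Extension of scalars of a bilinear form. -/
def ext2 (R : Type) [CommRing R] (B : ℤ[X] →ₗ[ℤ] ℤ[X] →ₗ[ℤ] ℤ) : R[X] →ₗ[R] R[X] →ₗ[R] R :=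
  (basisMonomials R).constr R fun i => (basisMonomials R).constr R fun j =>
    ((B (X ^ i) (X ^ j) : ℤ) : R)

variable {R : Type} [CommRing R]

theorem gram_basis (i : ℕ) : basisMonomials R i = X ^ i := by
  rw [coe_basisMonomials, X_pow_eq_monomial]

theorem gram_mono (i : ℕ) (c : R) : monomial i c = c • X ^ i := by
  rw [smul_eq_C_mul, C_mul_X_pow_eq_monomial]

theorem gram_pow (i j : ℕ) : ext2 R B (X ^ i) (X ^ j) = (B (X ^ i) (X ^ j) : ℤ) := by
  rw [← gram_basis (R := R), ← gram_basis (R := R), ext2, Module.Basis.constr_basis,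
    Module.Basis.constr_basis]

theorem gram_ext {F F' : R[X] →ₗ[R] R[X] →ₗ[R] R}
    (hF : ∀ i j : ℕ, F (X ^ i) (X ^ j) = F' (X ^ i) (X ^ j)) : F = F' :=
  (basisMonomials R).ext fun i => (basisMonomials R).ext fun j => by
    rw [gram_basis, gram_basis, hF]

theorem ext2_map (a b : ℤ[X]) :
    ext2 R B (a.map (Int.castRingHom R)) (b.map (Int.castRingHom R)) = (B a b : R) := by
  induction a using Polynomial.induction_on' with
  | add a a' h1 h2 => simp only [Polynomial.map_add, map_add, LinearMap.add_apply, h1, h2, Int.cast_add]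
  | monomial i c =>
    induction b using Polynomial.induction_on' with
    | add b b' h1 h2 => simp only [Polynomial.map_add, map_add, h1, h2, Int.cast_add]
    | monomial j d =>
      rw [Polynomial.map_monomial, Polynomial.map_monomial]
      simp only [gram_mono, map_smul, LinearMap.smul_apply, smul_eq_mul, gram_pow, eq_intCast,
        Int.cast_mul]

theorem ext2_symm (hB : IsPolar h B) (a b : R[X]) : ext2 R B a b = ext2 R B b a := by
  have : ext2 R B = (ext2 R B).flip := gram_ext fun i j => by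
    rw [LinearMap.flip_apply, gram_pow, gram_pow, hB.symm]
  conv_lhs => rw [this]
  rfl

theorem ext2_X (hB : IsPolar h B) {p : ℕ} (hX : ∀ a, h (X * a) = p * h a) (a b : R[X]) :
    ext2 R B (X * a) (X * b) = p * ext2 R B a b := by
  have : (ext2 R B).compl₁₂ (LinearMap.mulLeft R X) (LinearMap.mulLeft R X) =
      (p : R) • ext2 R B := gram_ext fun i j => by
    simp only [LinearMap.compl₁₂_apply, LinearMap.mulLeft_apply, LinearMap.smul_apply, smul_eq_mul]
    rw [← pow_succ', ← pow_succ', gram_pow, gram_pow, pow_succ', pow_succ', hB, hB, ← mul_add,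
      hX, hX, hX]
    push_cast
    ring
  exact LinearMap.congr_fun₂ this a b

theorem ext2_eq_zero {c : R[X]} (hc : ∀ b : ℤ[X], ext2 R B c (b.map (Int.castRingHom R)) = 0)
    (b : R[X]) : ext2 R B c b = 0 := by
  have : ext2 R B c = 0 := (basisMonomials R).ext fun j => by
    have := hc (X ^ j)
    rwa [Polynomial.map_pow, map_X, ← gram_basis] at this
  rw [this, LinearMap.zero_apply]

/-- If no non-zero polynomial of degree less than `r` has `h = 0`, the Gram matrix of size `r` has
non-zero determinant (`Matrix.exists_mulVec_eq_zero_iff`), also over `R`. -/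
theorem ext2_nondeg [IsDomain R] [CharZero R] (hp : Par h) (hB : IsPolar h B) {r : ℕ}
    (h0 : ∀ a : ℤ[X], a.degree < r → h a = 0 → a = 0) {c : R[X]} (hc : c.degree < r)
    (hz : ∀ i < r, ext2 R B c (X ^ i) = 0) : c = 0 := by
  let M : Matrix (Fin r) (Fin r) ℤ := Matrix.of fun i j => B (X ^ (i : ℕ)) (X ^ (j : ℕ))
  have hM : M.det ≠ 0 := by
    intro e
    obtain ⟨v, hv, h1⟩ := Matrix.exists_mulVec_eq_zero_iff.2 e
    have h2 : B (∑ i : Fin r, C (v i) * X ^ (i : ℕ)) (∑ i : Fin r, C (v i) * X ^ (i : ℕ)) = 0 := by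
      rw [map_sum B, LinearMap.sum_apply]
      refine Finset.sum_eq_zero fun i _ => ?_
      have h3 := congrFun h1 i
      simp only [M, Matrix.mulVec, dotProduct, Matrix.of_apply, Pi.zero_apply] at h3
      rw [← smul_eq_C_mul, map_smul, LinearMap.smul_apply, map_sum]
      simp only [← smul_eq_C_mul, map_smul, smul_eq_mul, mul_comm (v _) (B _ _), h3, mul_zero]
    rw [hB.self hp] at h2
    have h4 := h0 _ (degree_sum_fin_lt v) (by omega)
    refine hv (funext fun i => ?_)
    have h5 := congrArg (fun q => coeff q i) h4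
    simpa [finsetSum_coeff, coeff_C_mul, coeff_X_pow, Fin.val_inj] using h5
  have hM' : ((Int.castRingHom R).mapMatrix M).det ≠ 0 := by
    rw [← RingHom.map_det, eq_intCast]
    exact Int.cast_ne_zero.2 hM
  by_contra hc0
  have h1 : c = ∑ i : Fin r, C (c.coeff i) * X ^ (i : ℕ) := by
    rw [Fin.sum_univ_eq_sum_range (fun i => C (c.coeff i) * X ^ i)]
    exact c.as_sum_range_C_mul_X_pow' ((natDegree_lt_iff_degree_lt hc0).2 hc)
  have h2 : (fun i : Fin r => c.coeff i) = 0 := by
    refine Matrix.eq_zero_of_vecMul_eq_zero hM' (funext fun j => ?_)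
    have h3 := hz j j.2
    rw [h1, map_sum, LinearMap.sum_apply] at h3
    simp only [← smul_eq_C_mul, map_smul, LinearMap.smul_apply, smul_eq_mul, gram_pow] at h3
    simpa [M, Matrix.vecMul, dotProduct] using h3
  refine hc0 (h1.trans (Finset.sum_eq_zero fun i _ => ?_))
  rw [show c.coeff i = 0 from congrFun h2 i, map_zero, zero_mul]

/-- Reduce `c` modulo the monic polynomial `Q`; multiples of `Q` are in the radical. -/
theorem dvd_of_ext2 [IsDomain R] [CharZero R] (hp : Par h) (hB : IsPolar h B) {Q : ℤ[X]}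
    (hQ : Q.Monic) (h0 : ∀ a, h a = 0 ↔ Q ∣ a) {c : R[X]} (hz : ∀ b, ext2 R B c b = 0) :
    Q.map (Int.castRingHom R) ∣ c := by
  have hQ' := hQ.map (Int.castRingHom R)
  have h1 : ∀ d b : R[X], ext2 R B (Q.map (Int.castRingHom R) * d) b = 0 := by
    intro d b
    induction d using Polynomial.induction_on' with
    | add d d' e1 e2 => rw [mul_add, map_add, LinearMap.add_apply, e1, e2, add_zero]
    | monomial j x =>
      have e : Q.map (Int.castRingHom R) * X ^ j = (Q * X ^ j).map (Int.castRingHom R) := by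
        rw [Polynomial.map_mul, Polynomial.map_pow, map_X]
      rw [gram_mono, mul_smul_comm, map_smul, LinearMap.smul_apply, e,
        ext2_eq_zero (fun b => by
          rw [ext2_map, hB.eq_zero hp ((h0 _).2 (dvd_mul_right _ _)), Int.cast_zero]), smul_zero]
  rw [← modByMonic_eq_zero_iff_dvd hQ']
  refine ext2_nondeg hp hB (r := Q.natDegree) (fun a ha h2 => ?_) ?_ fun i _ => ?_
  · refine eq_zero_of_dvd_of_degree_lt ((h0 a).1 h2) ?_
    rwa [degree_eq_natDegree hQ.ne_zero]
  · rw [← degree_eq_natDegree hQ.ne_zero, ← hQ.degree_map (Int.castRingHom R)]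
    exact degree_modByMonic_lt _ hQ'
  · rw [modByMonic_eq_sub_mul_div, map_sub, LinearMap.sub_apply, hz, h1, sub_zero]

/-- `PadicInt.appr_spec` on the coefficients. -/
theorem exists_poly_appr {l : ℕ} [Fact l.Prime] (c : ℤ_[l][X]) (n : ℕ) :
    ∃ (a : ℤ[X]) (r : ℤ_[l][X]), a.map (Int.castRingHom ℤ_[l]) = c + C ((l : ℤ_[l]) ^ n) * r := by
  induction c using Polynomial.induction_on' with
  | add c c' h1 h2 =>
    obtain ⟨a, r, h1⟩ := h1
    obtain ⟨a', r', h2⟩ := h2
    exact ⟨a + a', r + r', by rw [Polynomial.map_add, h1, h2]; ring⟩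
  | monomial i x =>
    obtain ⟨y, hy⟩ := Ideal.mem_span_singleton.1 (PadicInt.appr_spec n x)
    refine ⟨monomial i (x.appr n : ℤ), monomial i (-y), ?_⟩
    rw [Polynomial.map_monomial, C_mul_monomial, ← map_add, eq_intCast, Int.cast_natCast, mul_neg,
      ← hy]
    congr 1
    ring

theorem eq_zero_of_pow_dvd {l : ℕ} [Fact l.Prime] {x : ℤ_[l]} (hx : ∀ n, (l : ℤ_[l]) ^ n ∣ x) :
    x = 0 := by
  by_contra h0
  obtain ⟨n, hn⟩ := FiniteMultiplicity.of_prime_left (PadicInt.prime_p (p := l)) h0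
  exact hn (hx _)

end

end M4.B2
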