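import Pool.Agent.Lib.MP_33b3f9_ag.M4.B2.Defs
import Pool.Agent.Lib.MP_33b3f9_ag.M4.B2.Gram

/-!
All unit roots occur on the etale quotient.
-/

set_option autoImplicit false

namespace M4.B2

open Matrix Polynomial

noncomputable section

variable {h : ℤ[X] → ℕ} {p : ℕ} [Fact p.Prime]

theorem iso_pow {B : ℤ[X] →ₗ[ℤ] ℤ[X] →ₗ[ℤ] ℤ} (hB : IsPolar h B) (hX : ∀ a, h (X * a) = p * h a)
    (i : ℕ) (a b : ℤ_[p][X]) :
    ext2 ℤ_[p] B (X ^ i * a) (X ^ i * b) = (p : ℤ_[p]) ^ i * ext2 ℤ_[p] B a b := by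
  induction i with
  | zero => simp
  | succ i ih =>
    rw [pow_succ', mul_assoc, mul_assoc, ext2_X hB hX, ih, pow_succ', mul_assoc]

theorem iso_adj {B : ℤ[X] →ₗ[ℤ] ℤ[X] →ₗ[ℤ] ℤ} (hB : IsPolar h B) (hX : ∀ a, h (X * a) = p * h a)
    (c a b : ℤ_[p][X]) :
    ext2 ℤ_[p] B (c * a) (X ^ c.natDegree * b) = ext2 ℤ_[p] B a
      ((∑ i ∈ Finset.range (c.natDegree + 1),
        (c.coeff i * (p : ℤ_[p]) ^ i) • X ^ (c.natDegree - i)) * b) := by
  have h1 : c * a = ∑ i ∈ Finset.range (c.natDegree + 1), c.coeff i • (X ^ i * a) := by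
    conv_lhs => rw [c.as_sum_range_C_mul_X_pow, Finset.sum_mul]
    exact Finset.sum_congr rfl fun i _ => by rw [smul_eq_C_mul, mul_assoc]
  rw [h1, map_sum, LinearMap.sum_apply, Finset.sum_mul, map_sum]
  refine Finset.sum_congr rfl fun i hi => ?_
  have h2 : (X : ℤ_[p][X]) ^ c.natDegree * b = X ^ i * (X ^ (c.natDegree - i) * b) := by
    rw [← mul_assoc, ← pow_add, Nat.add_sub_cancel' (Nat.lt_succ_iff.1 (Finset.mem_range.1 hi))]
  rw [h2, map_smul, LinearMap.smul_apply, iso_pow hB hX, smul_mul_assoc, map_smul, smul_eq_mul,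
    smul_eq_mul, mul_assoc]

theorem iso_zero {B : ℤ[X] →ₗ[ℤ] ℤ[X] →ₗ[ℤ] ℤ} (hB : IsPolar h B) {F σ : Matrix ν ν ℤ_[p]}
    (hW : ∀ (n : ℕ) (a : ℤ[X]), (∀ i j, (p : ℤ_[p]) ^ n ∣ (F * aeval σ a) i j) → p ^ n ∣ h a)
    {c : ℤ_[p][X]} (hc : F * aeval σ c = 0) (a b : ℤ_[p][X]) :
    ext2 ℤ_[p] B (c * a) (c * b) = 0 := by
  refine eq_zero_of_pow_dvd fun n => ?_
  have key : ∀ (u : ℤ[X]) (v r : ℤ_[p][X]),
      u.map (Int.castRingHom ℤ_[p]) = c * v + C ((p : ℤ_[p]) ^ n) * r →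
        ((p : ℤ) ^ n) ∣ (h u : ℤ) := by
    intro u v r hu
    have h1 : F * aeval σ u = (p : ℤ_[p]) ^ n • (F * aeval σ r) := by
      rw [← aeval_map_algebraMap ℤ_[p] σ u, algebraMap_int_eq, hu, map_add, map_mul,
        ← smul_eq_C_mul, map_smul, Matrix.mul_add, ← Matrix.mul_assoc, hc, Matrix.zero_mul,
        zero_add, Matrix.mul_smul]
    have h2 := hW n u fun i j => by
      rw [h1, Matrix.smul_apply, smul_eq_mul]
      exact dvd_mul_right _ _
    exact_mod_cast h2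
  obtain ⟨a₁, r, ha⟩ := exists_poly_appr (c * a) n
  obtain ⟨b₁, r', hb⟩ := exists_poly_appr (c * b) n
  have h3 : ((p : ℤ) ^ n) ∣ B a₁ b₁ := by
    rw [hB a₁ b₁]
    refine dvd_sub (dvd_sub (key _ (a + b) (r + r') ?_) (key _ _ _ ha)) (key _ _ _ hb)
    rw [Polynomial.map_add, ha, hb]
    ring
  have h4 : (p : ℤ_[p]) ^ n ∣ ((B a₁ b₁ : ℤ) : ℤ_[p]) := by
    have := map_dvd (Int.castRingHom ℤ_[p]) h3
    simpa using this
  rw [← ext2_map, ha, hb, ← smul_eq_C_mul, ← smul_eq_C_mul] at h4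
  simp only [map_add, map_smul, LinearMap.add_apply, LinearMap.smul_apply, smul_eq_mul] at h4
  rw [dvd_add_left (dvd_mul_right _ _), dvd_add_left (dvd_mul_right _ _)] at h4
  exact h4

theorem iso_norm_int (c : ℤ_[p]) : ‖algebraMap ℤ_[p] (PadicAlgCl p) c‖ = ‖c‖ := by
  rw [IsScalarTower.algebraMap_apply ℤ_[p] ℚ_[p] (PadicAlgCl p)]
  exact PadicAlgCl.norm_extends p _

theorem iso_norm_aeval (g : ℤ_[p][X]) {x : PadicAlgCl p} (hx : ‖x‖ ≤ 1) : ‖aeval x g‖ ≤ 1 := by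
  rw [aeval_eq_sum_range]
  refine IsUltrametricDist.norm_sum_le_of_forall_le_of_nonneg zero_le_one fun i _ => ?_
  rw [Algebra.smul_def, norm_mul, norm_pow, iso_norm_int]
  exact mul_le_one₀ (PadicInt.norm_le_one _) (by positivity) (pow_le_one₀ (norm_nonneg _) hx)

theorem iso_aeval_ne {g : ℤ_[p][X]} (hg : IsUnit (g.coeff 0)) {x : PadicAlgCl p}
    (hx : ‖x‖ < 1) : aeval x g ≠ 0 := by
  intro h0
  rw [← X_mul_divX_add g, map_add, map_mul, aeval_X, aeval_C] at h0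
  have h1 := congrArg norm (eq_neg_of_add_eq_zero_left h0)
  rw [norm_neg, iso_norm_int, PadicInt.isUnit_iff.1 hg, norm_mul] at h1
  have h2 := mul_le_mul_of_nonneg_left (iso_norm_aeval g.divX hx.le) (norm_nonneg x)
  linarith

theorem iso_mO (g : Matrix ν ν ℤ_[p]) :
    mO g = (algebraMap ℤ_[p] (PadicAlgCl p)).mapMatrix g := by
  ext i j
  exact (IsScalarTower.algebraMap_apply ℤ_[p] ℚ_[p] (PadicAlgCl p) (g i j)).symm

/-- With `m = natDegree c` and `c' = ∑ c_i p ^ i X ^ (m - i)`: `B (c a) (X ^ m b) = B a (c' b)`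
(`ext2_X`, monomials). For all `a, b`, `B (c a) (c b) = 0` (approximate `c a`, `c b` modulo
`p ^ n`, polar form). So `c' c` is in the radical and `Q` divides it (`dvd_of_ext2`). -/
theorem iso_root (hp : Par h) (hX : ∀ a, h (X * a) = p * h a) {Q : ℤ[X]} (hQ : Q.Monic)
    (h0 : ∀ a, h a = 0 ↔ Q ∣ a) {F σ : Matrix ν ν ℤ_[p]}
    (hW : ∀ (n : ℕ) (a : ℤ[X]), (∀ i j, (p : ℤ_[p]) ^ n ∣ (F * aeval σ a) i j) → p ^ n ∣ h a)
    {c : ℤ_[p][X]} (hc : F * aeval σ c = 0) {α : PadicAlgCl p} (hα : aeval α Q = 0)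
    (h1 : α ≠ 0) : aeval α c * aeval ((p : PadicAlgCl p) / α) c = 0 := by
  obtain ⟨B, hB⟩ := exists_polar hp
  set c' : ℤ_[p][X] := ∑ i ∈ Finset.range (c.natDegree + 1),
    (c.coeff i * (p : ℤ_[p]) ^ i) • X ^ (c.natDegree - i) with hc'
  have h2 : ∀ a, ext2 ℤ_[p] B (c' * c) a = 0 := by
    intro a
    rw [ext2_symm hB, hc', ← iso_adj hB hX, mul_comm _ c]
    exact iso_zero hB hW hc _ _
  obtain ⟨d, hd⟩ := dvd_of_ext2 hp hB hQ h0 h2
  have h3 := congrArg (aeval α) hd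
  rw [map_mul, map_mul, ← algebraMap_int_eq, aeval_map_algebraMap, hα, zero_mul] at h3
  have h4 : aeval α c' = α ^ c.natDegree * aeval ((p : PadicAlgCl p) / α) c := by
    rw [hc', map_sum, aeval_eq_sum_range (p := c), Finset.mul_sum]
    refine Finset.sum_congr rfl fun i hi => ?_
    have h5 : α ^ c.natDegree = α ^ (c.natDegree - i) * α ^ i := by
      rw [← pow_add, Nat.sub_add_cancel (Nat.lt_succ_iff.1 (Finset.mem_range.1 hi))]
    rw [map_smul, map_pow, aeval_X, Algebra.smul_def, Algebra.smul_def, map_mul, map_pow,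
      map_natCast, h5, div_pow]
    field_simp
  rw [h4, mul_assoc] at h3
  rw [mul_comm]
  exact (mul_eq_zero.1 h3).resolve_left (pow_ne_zero _ h1)

/-- Let `F = 1 - e`, `T = F σ + e`, `c = charpoly T`. Then `F T ^ n = F σ ^ n`, so
`F c(σ) = 0`. `T * (F + e σ) = σ`, so `det T` and the constant coefficient of `c` are a
unit and `c (p / α) ≠ 0`. By `iso_root` `α` is an eigenvalue of `T`; if `T v = α v` then
`w = F v ≠ 0` since `α ≠ 1`. -/
theorem exists_eigen (hp : Par h) (hX : ∀ a, h (X * a) = p * h a) {Q : ℤ[X]} (hQ : Q.Monic)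
    (h0 : ∀ a, h a = 0 ↔ Q ∣ a) (hQ1 : Q.eval 1 ≠ 0) {e σ : Matrix ν ν ℤ_[p]} (he : e * e = e)
    (hσ : (1 - e) * σ * e = 0) (hu : IsUnit σ)
    (hW : ∀ (n : ℕ) (a : ℤ[X]),
      (∀ i j, (p : ℤ_[p]) ^ n ∣ ((1 - e) * aeval σ a) i j) → p ^ n ∣ h a)
    {α : PadicAlgCl p} (hα : aeval α Q = 0) (h1 : ‖α‖ = 1) :
    ∃ w : ν → PadicAlgCl p, w ≠ 0 ∧ mO ((1 - e) * σ) *ᵥ w = α • w := by
  have hFe : (1 - e) * e = 0 := by rw [Matrix.sub_mul, Matrix.one_mul, he, sub_self]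
  have heF : e * (1 - e) = 0 := by rw [Matrix.mul_sub, Matrix.mul_one, he, sub_self]
  have hFF : (1 - e) * (1 - e) = 1 - e := by rw [Matrix.mul_sub, Matrix.mul_one, hFe, sub_zero]
  have hσF : (1 - e) * σ * (1 - e) = (1 - e) * σ := by
    rw [Matrix.mul_sub ((1 - e) * σ), Matrix.mul_one, hσ, sub_zero]
  have hsum : (1 - e) + e = 1 := sub_add_cancel _ _
  generalize 1 - e = F at hσ hW hFe heF hFF hσF hsum ⊢
  set T := F * σ + e with hT
  have hFT : F * T = F * σ := by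
    rw [hT, Matrix.mul_add, ← Matrix.mul_assoc, hFF, hFe, add_zero]
  have hpow : ∀ n : ℕ, F * T ^ n = F * σ ^ n := by
    intro n
    induction n with
    | zero => rw [pow_zero, pow_zero]
    | succ n ih =>
      rw [pow_succ', pow_succ', ← Matrix.mul_assoc, hFT, ← hσF, Matrix.mul_assoc _ F, ih,
        ← Matrix.mul_assoc, hσF, Matrix.mul_assoc]
  have hc : F * aeval σ T.charpoly = 0 := by
    have h2 : F * aeval T T.charpoly = 0 := by rw [aeval_self_charpoly, Matrix.mul_zero]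
    rw [aeval_eq_sum_range, Finset.mul_sum] at h2 ⊢
    rw [← h2]
    exact Finset.sum_congr rfl fun i _ => by rw [Matrix.mul_smul, Matrix.mul_smul, hpow]
  have hTσ : T * (F + e * σ) = σ := by
    rw [hT, Matrix.add_mul, Matrix.mul_add, Matrix.mul_add, hσF, ← Matrix.mul_assoc, hσ,
      Matrix.zero_mul, add_zero, heF, zero_add, ← Matrix.mul_assoc, he, ← Matrix.add_mul, hsum,
      Matrix.one_mul]
  have hdet : IsUnit T.det := by
    have h2 := (isUnit_iff_isUnit_det σ).1 hu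
    rw [← hTσ, det_mul] at h2
    exact isUnit_of_mul_isUnit_left h2
  rw [det_eq_sign_charpoly_coeff] at hdet
  have hα0 : α ≠ 0 := norm_ne_zero_iff.1 (by rw [h1]; exact one_ne_zero)
  have hn : ‖(p : PadicAlgCl p) / α‖ < 1 := by
    rw [norm_div, h1, div_one, ← map_natCast (algebraMap ℤ_[p] (PadicAlgCl p)), iso_norm_int]
    exact PadicInt.norm_p (p := p) ▸ inv_lt_one_of_one_lt₀
      (by exact_mod_cast (Fact.out : p.Prime).one_lt)
  have hroot := (mul_eq_zero.1 (iso_root hp hX hQ h0 hW hc hα hα0)).resolve_right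
    (iso_aeval_ne (isUnit_of_mul_isUnit_right hdet) hn)
  set f := algebraMap ℤ_[p] (PadicAlgCl p) with hf
  rw [aeval_def, eval₂_eq_eval_map, ← hf, ← charpoly_map, eval_charpoly] at hroot
  obtain ⟨v, hv0, hv⟩ := exists_mulVec_eq_zero_iff.2 hroot
  have hTv : f.mapMatrix T *ᵥ v = α • v := by
    rw [sub_mulVec, sub_eq_zero] at hv
    rw [RingHom.mapMatrix_apply, ← hv]
    funext i
    simp [mulVec_diagonal]
  refine ⟨f.mapMatrix F *ᵥ v, fun hw => ?_, ?_⟩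
  · have h2 : f.mapMatrix e *ᵥ v = v := by
      have h3 : f.mapMatrix (F + e) *ᵥ v = v := by rw [hsum, map_one, one_mulVec]
      rwa [map_add, add_mulVec, hw, zero_add] at h3
    rw [hT, ← hσF, map_add, add_mulVec, map_mul, ← mulVec_mulVec, hw, mulVec_zero, zero_add,
      h2] at hTv
    have h4 : (α - 1) • v = 0 := by rw [sub_smul, one_smul, ← hTv, sub_self]
    have h5 : α = 1 := sub_eq_zero.1 ((smul_eq_zero.1 h4).resolve_right hv0)
    rw [h5, ← map_one (algebraMap ℤ (PadicAlgCl p)), aeval_algebraMap_apply_eq_algebraMap_eval,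
      eq_intCast, Int.cast_eq_zero] at hα
    exact hQ1 hα
  · rw [iso_mO, ← hf, mulVec_mulVec, ← map_mul, hσF, ← hFT, map_mul, ← mulVec_mulVec, hTv,
      mulVec_smul]

end

end M4.B2
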