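import Pool.Agent.Lib.MP_33b3f9_ag.M4.B2.Gram

/-!
The absolute value of the roots.
-/

set_option autoImplicit false

namespace M4.B2

open Matrix Polynomial

noncomputable section

variable {h : ℤ[X] → ℕ} {B : ℤ[X] →ₗ[ℤ] ℤ[X] →ₗ[ℤ] ℤ}

theorem weilB_rat (hp : Par h) (hB : IsPolar h B) {n : ℕ} (q : Fin n → ℚ) :
    0 ≤ ext2 ℝ B (∑ i : Fin n, (q i : ℝ) • X ^ (i : ℕ)) (∑ i : Fin n, (q i : ℝ) • X ^ (i : ℕ)) := by
  obtain ⟨⟨N, hN⟩, hq⟩ := IsLocalization.exist_integer_multiples_of_finite (nonZeroDivisors ℤ) q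
  choose m hm using hq
  have hN0 : (N : ℝ) ≠ 0 := by exact_mod_cast nonZeroDivisors.ne_zero hN
  have hm' : ∀ i, (m i : ℝ) = N * q i := fun i => by
    have h1 := hm i
    rw [eq_intCast, zsmul_eq_mul] at h1
    exact_mod_cast h1
  have e : (∑ i : Fin n, C (m i) * X ^ (i : ℕ) : ℤ[X]).map (Int.castRingHom ℝ) =
      (N : ℝ) • ∑ i : Fin n, (q i : ℝ) • X ^ (i : ℕ) := by
    rw [Polynomial.map_sum, Finset.smul_sum]
    refine Finset.sum_congr rfl fun i _ => ?_
    rw [Polynomial.map_mul, map_C, Polynomial.map_pow, map_X, smul_smul, eq_intCast, hm',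
      smul_eq_C_mul]
  have h1 := ext2_map (B := B) (R := ℝ) (∑ i : Fin n, C (m i) * X ^ (i : ℕ))
    (∑ i : Fin n, C (m i) * X ^ (i : ℕ))
  rw [e, hB.self hp, map_smul, map_smul, LinearMap.smul_apply, smul_eq_mul, smul_eq_mul,
    ← mul_assoc] at h1
  refine nonneg_of_mul_nonneg_right ?_ (mul_self_pos.2 hN0)
  rw [h1]
  positivity

theorem weilB_split (v : ℂ[X]) : ∃ x y : ℝ[X],
    v = x.map Complex.ofRealHom + C Complex.I * y.map Complex.ofRealHom := by
  induction v using Polynomial.induction_on' with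
  | add v w hv hw =>
    obtain ⟨x, y, rfl⟩ := hv
    obtain ⟨x', y', rfl⟩ := hw
    exact ⟨x + x', y + y', by simp only [Polynomial.map_add]; ring⟩
  | monomial n c =>
    refine ⟨monomial n c.re, monomial n c.im, ?_⟩
    rw [map_monomial, map_monomial, C_mul_monomial, ← map_add, Complex.ofRealHom_eq_coe,
      Complex.ofRealHom_eq_coe, mul_comm, Complex.re_add_im]

theorem weilB_uniq {x y : ℝ[X]}
    (h0 : x.map Complex.ofRealHom + C Complex.I * y.map Complex.ofRealHom = 0) :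
    x = 0 ∧ y = 0 := by
  have h1 : ∀ n, (x.coeff n : ℂ) + Complex.I * y.coeff n = 0 := fun n => by
    simpa using congrArg (fun f => coeff f n) h0
  constructor
  · ext n
    simpa using congrArg Complex.re (h1 n)
  · ext n
    simpa using congrArg Complex.im (h1 n)

/-- Non-negative on integral, so on rational, so on real polynomials (density). -/
theorem ext2_nonneg (hp : Par h) (hB : IsPolar h B) (a : ℝ[X]) : 0 ≤ ext2 ℝ B a a := by
  have hd : DenseRange (Pi.map fun (_ : Fin (a.natDegree + 1)) (q : ℚ) => (q : ℝ)) :=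
    DenseRange.piMap fun _ => Rat.denseRange_cast
  have key : ∀ v : Fin (a.natDegree + 1) → ℝ,
      0 ≤ ext2 ℝ B (∑ i, v i • X ^ (i : ℕ)) (∑ i, v i • X ^ (i : ℕ)) := fun v => by
    refine hd.induction_on (p := fun v : Fin (a.natDegree + 1) → ℝ =>
      0 ≤ ext2 ℝ B (∑ i, v i • X ^ (i : ℕ)) (∑ i, v i • X ^ (i : ℕ))) v ?_
      fun q => weilB_rat hp hB q
    refine isClosed_le continuous_const ?_
    simp only [map_sum, map_smul, LinearMap.sum_apply, LinearMap.smul_apply, smul_eq_mul]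
    fun_prop
  have e : a = ∑ i : Fin (a.natDegree + 1), a.coeff i • X ^ (i : ℕ) := by
    conv_lhs => rw [a.as_sum_range_C_mul_X_pow, Finset.sum_range]
    simp only [smul_eq_C_mul]
  have h1 := key fun i => a.coeff i
  rwa [← e] at h1

/-- A semidefinite form vanishes only on its radical; `dvd_of_ext2`. -/
theorem dvd_of_ext2_self (hp : Par h) (hB : IsPolar h B) {Q : ℤ[X]} (hQ : Q.Monic)
    (h0 : ∀ a, h a = 0 ↔ Q ∣ a) {a : ℝ[X]} (ha : ext2 ℝ B a a = 0) :
    Q.map (Int.castRingHom ℝ) ∣ a := by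
  refine dvd_of_ext2 hp hB hQ h0 fun b => ?_
  by_contra hne
  have h1 := ext2_nonneg hp hB ((-(ext2 ℝ B b b + 1) / (2 * ext2 ℝ B a b)) • a + b)
  simp only [map_add, map_smul, LinearMap.add_apply, LinearMap.smul_apply, smul_eq_mul, ha,
    ext2_symm hB b a] at h1
  have h2 : -(ext2 ℝ B b b + 1) / (2 * ext2 ℝ B a b) * ext2 ℝ B a b =
      -(ext2 ℝ B b b + 1) / 2 := by
    field_simp
  rw [h2] at h1
  linarith

/-- Write `Q = (X - z) v` over `ℂ`, `v = x + i y` with real polynomials. Modulo `Q`,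
`X x = re z x - im z y` and `X y = im z x + re z y`, so
`p (B x x + B y y) = |z| ^ 2 (B x x + B y y)`, and `B x x + B y y > 0` as `x` is monic of smaller
degree than `Q`. -/
theorem norm_root_sq (hp : Par h) {p : ℕ} (hX : ∀ a, h (X * a) = p * h a) {Q : ℤ[X]}
    (hQ : Q.Monic) (h0 : ∀ a, h a = 0 ↔ Q ∣ a) {z : ℂ} (hz : aeval z Q = 0) : ‖z‖ ^ 2 = p := by
  obtain ⟨B, hB⟩ := exists_polar hp
  have hQc : (Q.map (Int.castRingHom ℝ)).map Complex.ofRealHom = Q.map (Int.castRingHom ℂ) := by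
    rw [Polynomial.map_map]
    congr 1
  have hr : (Q.map (Int.castRingHom ℂ)).IsRoot z := by
    rw [IsRoot, eval_map, ← algebraMap_int_eq, ← aeval_def, hz]
  obtain ⟨v, hv⟩ := dvd_iff_isRoot.2 hr
  obtain ⟨x, y, hxy⟩ := weilB_split v
  have hI : (C Complex.I : ℂ[X]) ^ 2 = -1 := by rw [← C_pow, Complex.I_sq, C_neg, C_1]
  have hz' : (C z : ℂ[X]) = C (z.re : ℂ) + C Complex.I * C (z.im : ℂ) := by
    rw [← C_mul, ← C_add, mul_comm, Complex.re_add_im]
  obtain ⟨e1, e2⟩ := weilB_uniq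
    (x := X * x - (z.re • x - z.im • y + Q.map (Int.castRingHom ℝ)))
    (y := X * y - (z.re • y + z.im • x)) (by
      simp only [Polynomial.map_sub, Polynomial.map_add, Polynomial.map_mul, smul_eq_C_mul, map_X,
        map_C, hQc, Complex.ofRealHom_eq_coe]
      rw [hv, hxy, hz']
      linear_combination (C (z.im : ℂ) * y.map Complex.ofRealHom) * hI)
  have hrad : ∀ b, ext2 ℝ B (Q.map (Int.castRingHom ℝ)) b = 0 :=
    ext2_eq_zero fun b => by rw [ext2_map, hB.eq_zero hp ((h0 Q).2 dvd_rfl), Int.cast_zero]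
  have hrad' : ∀ b, ext2 ℝ B b (Q.map (Int.castRingHom ℝ)) = 0 := fun b => by
    rw [ext2_symm hB, hrad]
  have f1 := ext2_X (R := ℝ) hB hX x x
  have f2 := ext2_X (R := ℝ) hB hX y y
  rw [sub_eq_zero.1 e1] at f1
  rw [sub_eq_zero.1 e2] at f2
  simp only [map_add, map_sub, map_smul, LinearMap.add_apply, LinearMap.sub_apply,
    LinearMap.smul_apply, smul_eq_mul, hrad, hrad', ext2_symm hB y x] at f1 f2
  have g1 := ext2_nonneg hp hB x
  have g2 := ext2_nonneg hp hB y
  have hpos : ext2 ℝ B x x + ext2 ℝ B y y ≠ 0 := by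
    intro h1
    have d1 := map_dvd Complex.ofRealHom (dvd_of_ext2_self hp hB hQ h0 (a := x) (by linarith))
    have d2 := map_dvd Complex.ofRealHom (dvd_of_ext2_self hp hB hQ h0 (a := y) (by linarith))
    rw [hQc] at d1 d2
    have d3 : Q.map (Int.castRingHom ℂ) ∣ v := by
      rw [hxy]
      exact dvd_add d1 (d2.mul_left _)
    have hv0 : v ≠ 0 := by
      rintro rfl
      exact (hQ.map (Int.castRingHom ℂ)).ne_zero (by rw [hv, mul_zero])
    rw [hv] at d3
    have d4 : X - C z ∣ 1 := (mul_dvd_mul_iff_right hv0).1 (by rwa [one_mul])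
    exact not_isUnit_X_sub_C z (isUnit_of_dvd_one d4)
  refine mul_right_cancel₀ hpos ?_
  rw [Complex.sq_norm, Complex.normSq_apply]
  linarith

end

end M4.B2
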