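import Pool.Agent.Lib.MP_33b3f9_ag.M4.B2.Line
import Pool.Agent.Lib.MP_33b3f9_ag.M4.B2.Few

/-!
Frobenius elements at almost all places of degree one.
-/

set_option autoImplicit false

namespace M4.B2

open Matrix Polynomial Pool.Agent.M4.Det

noncomputable section

variable {τ : Mat} {K : IntermediateField ℚ ℂ} {r : Rep K}

theorem dec_dec {p : ℕ} [Fact p.Prime] {e : ℂ ≃+* PadicAlgCl p} (he : IsPlace K e)
    (t : PadicAlgCl p ≃ₐ[ℚ_[p]] PadicAlgCl p) : NT.Dec e (dec he t) := by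
  rintro x ⟨q, hq⟩
  refine e.injective ?_
  rw [e_dec, ← hq, t.commutes]

theorem exists_dec {p : ℕ} [Fact p.Prime] {e : ℂ ≃+* PadicAlgCl p} (he : IsPlace K e)
    {σ : ℂ ≃ₐ[K] ℂ} (h : NT.Dec e σ) : ∃ t, σ = dec he t := by
  refine ⟨AlgEquiv.ofRingEquiv (f := e.symm.trans (σ.toRingEquiv.trans e)) fun q => ?_, ?_⟩
  · change e (σ (e.symm _)) = _
    rw [h _ ⟨q, (e.apply_symm_apply _).symm⟩, e.apply_symm_apply]
  · ext z
    refine e.injective ?_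
    rw [e_dec]
    change _ = e (σ (e.symm (e z)))
    rw [e.symm_apply_apply]

theorem rq_eq (l : ℕ) [Fact l.Prime] (σ : ℂ ≃ₐ[K] ℂ) :
    rq r l σ = mQ (r l σ : Matrix ν ν ℤ_[l]) := rfl

theorem sim_int {g : Matrix ν ν ℤ} {M : ℕ} (hs : Sim (zr g) M) :
    gᵀ * Matrix.J (Fin 4) ℤ * g = (M : ℤ) • Matrix.J (Fin 4) ℤ :=
  (Kz.simR_iff _ _).1 (Kz.simR_of_sim (h := g) (m := (M : ℤ)) (by rwa [Int.cast_natCast]))

theorem cube_of {p : ℕ} [Fact p.Prime] {Q : ℤ[X]} {γ : ℚ[X]} {M M' : ℕ} (hM' : M' ≠ 0)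
    (h : M4.Cube p Q γ M M') : Cube (PadicAlgCl p) p Q γ ((M : ℚ) / M') := by
  obtain ⟨β, u, d, h1, h2, h3, h4, h5, h6, h7, h8, h9, h10, h11, h12, h13⟩ := h
  refine ⟨β, u, d, h1, h2, h3, h4, h5, h6, h7, h8, h9, fun i j => (h10 i j).le, h11, h12, ?_⟩
  have : (M' : PadicAlgCl p) ≠ 0 := by exact_mod_cast hM'
  push_cast
  rw [← h13, mul_div_cancel_left₀ _ this]

theorem red_of (hout : ∀ (P : Nat.Primes) (S : Setup P Bits)
    (s : PadicAlgCl P ≃ₐ[ℚ_[P]] PadicAlgCl P) (hs : IsFrob s), Outs (S.toTD hs))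
    (h : AV τ K r) : REDst τ r := by
  obtain ⟨p₀, i0, -, H⟩ := exists_setup h
  refine ⟨max 5 p₀, fun p hp hp0 e he => ?_⟩
  obtain ⟨P, rfl⟩ : ∃ P : Nat.Primes, P.1 = p := ⟨⟨p, hp.out⟩, rfl⟩
  obtain ⟨S, rfl, hΓ, -, hR⟩ := H P (by omega) e he
  obtain ⟨s, hs⟩ := exists_frob (p := P)
  have ho := hout P S s hs
  have hne : ∀ (l : ℕ) (hl : l.Prime), l ≠ P.1 → (⟨l, hl⟩ : Nat.Primes) ≠ P :=
    fun l hl h1 h2 => h1 (congrArg Subtype.val h2)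
  refine ⟨dec he s, dec_dec he s, fun σ' hσ' n hn => ?_, fun l hl hlp => ?_,
    fun l hl hlp hsep => ?_, fun Q hQ hT γ M M' g g' hC hg hg' hM hM' hW => ?_⟩
  · obtain ⟨t, rfl⟩ := exists_dec he hσ'
    obtain ⟨j, hj⟩ := S.unram hs ho t hn
    refine ⟨j, fun R hc l hl a b => ?_⟩
    by_cases hlp : l = P.1
    · subst hlp
      refine IsUnit.dvd ?_
      rw [PadicInt.isUnit_iff, PadicInt.norm_natCast_eq_one_iff]
      exact (Nat.Prime.coprime_iff_not_dvd P.2).2 hn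
    · have h1 := hj ⟨l, hl.out⟩ (hne l hl.out hlp) a b
      have h2 := hc l a b
      rw [hR, hR] at h1
      rw [map_pow, Units.val_pow_eq_pow_val] at h2
      have h3 := dvd_add h1 h2
      rwa [Matrix.sub_apply, sub_add_sub_cancel] at h3
  · have h1 := S.mult hs (hne l hl.out hlp)
    rw [hR] at h1
    exact sim_matrix.1 h1
  · obtain ⟨Q, hQ⟩ := S.exists_weil hs ho (hne l hl.out hlp) (by rw [hR]; exact hsep)
    refine ⟨Q, hQ.monic, hQ.deg, hQ.sep, hQ.weil, fun l' hl' h1 => ?_⟩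
    have h2 := hQ.char _ (hne l' hl'.out h1)
    rw [hR] at h2
    exact h2
  · have h0 : 0 < M := Nat.pos_of_ne_zero fun h1 => hM (h1 ▸ dvd_zero _)
    have h0' : 0 < M' := Nat.pos_of_ne_zero fun h1 => hM' (h1 ▸ dvd_zero _)
    have h8 : ∀ i j, (8 : ℤ) ∣ (g - 1) i j := fun i j => Dvd.dvd.trans (by norm_num) (hg.2.1 i j)
    have h8' : ∀ i j, (8 : ℤ) ∣ (g' - 1) i j :=
      fun i j => Dvd.dvd.trans (by norm_num) (hg'.2.1 i j)
    obtain ⟨θ, hθ⟩ := exists_line h.inH h8 hg.2.2 h0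
    obtain ⟨θ', hθ'⟩ := exists_line h.inH h8' hg'.2.2 h0'
    rw [← hΓ] at hθ hθ'
    refine S.few hs ho (by omega) (Q := Q) ⟨hQ.monic, hQ.deg, hQ.sep, hQ.weil, fun l hl => ?_⟩ ?_
      hθ hθ' (sim_int hg.2.2) (sim_int hg'.2.2) hM hM' h8 h8' (cube_of h0'.ne' hC) fun l hl => ?_
    · rw [hR]
      exact hQ.char l fun h1 => hl (Subtype.ext h1)
    · obtain ⟨A, A', h1, h2, h3, h4, h5⟩ := hT
      refine ⟨A, A', h1, h2, h3, h4, fun t => ?_⟩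
      obtain ⟨u, hu, h6⟩ := h5 (dec he t)
      exact ⟨u, hu, by simp only [hR]; exact h6⟩
    · obtain ⟨W, h1, h2⟩ := hW l fun h1 => hl (Subtype.ext h1)
      refine ⟨W, by rw [hR]; exact h1, fun a b => Dvd.dvd.trans ⟨4, by norm_num⟩ (h2 a b)⟩

end

end M4.B2
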