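import Pool.Agent.Lib.MP_33b3f9_ag.M4.B2.Defs

/-!
The residue map of the algebraic closure of the `p`-adic numbers.
-/

set_option autoImplicit false

namespace M4.B2

open Matrix Polynomial

noncomputable section

variable {p : ℕ} [Fact p.Prime]

theorem mem_OO {x : PadicAlgCl p} : x ∈ OO p ↔ ‖x‖ ≤ 1 := by
  exact (Valuation.mem_valuationSubring_iff _ x).trans NNReal.coe_le_coe.symm

theorem res_of {x : PadicAlgCl p} (hx : ‖x‖ ≤ 1) :
    res x = IsLocalRing.residue (OO p) ⟨x, mem_OO.2 hx⟩ := dif_pos (mem_OO.2 hx)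

theorem res_coe (x : OO p) : res x.1 = IsLocalRing.residue (OO p) x := dif_pos x.2

theorem res_add {x y : PadicAlgCl p} (hx : ‖x‖ ≤ 1) (hy : ‖y‖ ≤ 1) :
    res (x + y) = res x + res y := by
  rw [res_of hx, res_of hy, ← map_add, ← res_coe]
  rfl

theorem res_mul {x y : PadicAlgCl p} (hx : ‖x‖ ≤ 1) (hy : ‖y‖ ≤ 1) :
    res (x * y) = res x * res y := by
  rw [res_of hx, res_of hy, ← map_mul, ← res_coe]
  rfl

@[simp] theorem res_zero : res (0 : PadicAlgCl p) = 0 := by
  exact (res_coe (0 : OO p)).trans (map_zero _)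

@[simp] theorem res_one : res (1 : PadicAlgCl p) = 1 := by
  exact (res_coe (1 : OO p)).trans (map_one _)

theorem res_neg (x : PadicAlgCl p) : res (-x) = -res x := by
  by_cases hx : ‖x‖ ≤ 1
  · rw [res_of hx, ← map_neg, ← res_coe]
    rfl
  · rw [res, res, dif_neg (fun h => hx (mem_OO.1 h)),
      dif_neg (fun h => hx (by simpa using mem_OO.1 h)), neg_zero]

theorem res_sub {x y : PadicAlgCl p} (hx : ‖x‖ ≤ 1) (hy : ‖y‖ ≤ 1) :
    res (x - y) = res x - res y := by
  rw [res_of hx, res_of hy, ← map_sub, ← res_coe]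
  rfl

theorem res_pow {x : PadicAlgCl p} (hx : ‖x‖ ≤ 1) (n : ℕ) : res (x ^ n) = res x ^ n := by
  rw [res_of hx, ← map_pow, ← res_coe]
  rfl

theorem res_natCast (n : ℕ) : res (n : PadicAlgCl p) = n := by
  exact (res_coe (n : OO p)).trans (map_natCast _ n)

theorem res_sum {α : Type} (s : Finset α) {f : α → PadicAlgCl p} (hf : ∀ a ∈ s, ‖f a‖ ≤ 1) :
    res (∑ a ∈ s, f a) = ∑ a ∈ s, res (f a) := by
  classical
  induction s using Finset.induction_on with
  | empty => simp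
  | insert a s ha ih =>
    have h1 : ∀ b ∈ s, ‖f b‖ ≤ 1 := fun b hb => hf b (Finset.mem_insert_of_mem hb)
    rw [Finset.sum_insert ha, Finset.sum_insert ha, res_add (hf a (Finset.mem_insert_self a s))
      (IsUltrametricDist.norm_sum_le_of_forall_le_of_nonneg zero_le_one h1), ih h1]

theorem res_prod {α : Type} (s : Finset α) {f : α → PadicAlgCl p} (hf : ∀ a ∈ s, ‖f a‖ ≤ 1) :
    res (∏ a ∈ s, f a) = ∏ a ∈ s, res (f a) := by
  classical
  induction s using Finset.induction_on with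
  | empty => simp
  | insert a s ha ih =>
    have h1 : ∀ b ∈ s, ‖f b‖ ≤ 1 := fun b hb => hf b (Finset.mem_insert_of_mem hb)
    rw [Finset.prod_insert ha, Finset.prod_insert ha, res_mul (hf a (Finset.mem_insert_self a s))
      (by rw [norm_prod]; exact Finset.prod_le_one (fun _ _ => norm_nonneg _) h1), ih h1]

theorem res_eq_zero {x : PadicAlgCl p} (hx : ‖x‖ ≤ 1) : res x = 0 ↔ ‖x‖ < 1 := by
  rw [res_of hx, IsLocalRing.residue_eq_zero_iff]
  exact (Valuation.mem_maximalIdeal_iff _ _).trans NNReal.coe_lt_coe.symm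

theorem res_eq_iff {x y : PadicAlgCl p} (hx : ‖x‖ ≤ 1) (hy : ‖y‖ ≤ 1) :
    res x = res y ↔ ‖x - y‖ < 1 := by
  rw [← sub_eq_zero, ← res_sub hx hy]
  exact res_eq_zero (mem_OO.1 (sub_mem (mem_OO.2 hx) (mem_OO.2 hy)))

theorem res_surj (a : kk p) : ∃ x : PadicAlgCl p, ‖x‖ ≤ 1 ∧ res x = a := by
  obtain ⟨x, rfl⟩ := IsLocalRing.residue_surjective a
  exact ⟨x.1, mem_OO.1 x.2, res_coe x⟩

instance charP_kk : CharP (kk p) p := by
  have h : ‖(p : PadicAlgCl p)‖ < 1 := by
    rw [← map_natCast (algebraMap ℚ_[p] (PadicAlgCl p)), PadicAlgCl.norm_extends]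
    exact Padic.norm_p_lt_one
  rw [CharP.charP_iff_prime_eq_zero Fact.out, ← res_natCast]
  exact (res_eq_zero h.le).2 h

/-- Lift a monic polynomial to a monic polynomial over the valuation ring; a root in the
algebraic closure is integral over the valuation ring, so it lies in it. -/
instance isAlgClosed_kk : IsAlgClosed (kk p) := by
  refine IsAlgClosed.of_exists_root _ fun q hq hi => ?_
  obtain ⟨f, rfl, h2, h3⟩ := lifts_and_degree_eq_and_monic
    ((lifts_iff_coeff_lifts (f := IsLocalRing.residue (OO p)) q).2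
      fun n => IsLocalRing.residue_surjective _) hq
  obtain ⟨x, hx⟩ := IsAlgClosed.exists_aeval_eq_zero (PadicAlgCl p) f
    (by rw [h2]; exact (degree_pos_of_irreducible hi).ne')
  obtain ⟨y, rfl⟩ := IsIntegrallyClosed.isIntegral_iff.1 (⟨f, h3, hx⟩ : IsIntegral (OO p) x)
  refine ⟨IsLocalRing.residue (OO p) y, ?_⟩
  rw [aeval_algebraMap_apply, map_eq_zero_iff _ (IsFractionRing.injective (OO p) (PadicAlgCl p)),
    coe_aeval_eq_eval] at hx
  rw [eval_map_apply, hx, map_zero]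

/-- `spectralNorm_eq_of_equiv`. -/
theorem norm_aut (t : PadicAlgCl p ≃ₐ[ℚ_[p]] PadicAlgCl p) (x : PadicAlgCl p) : ‖t x‖ = ‖x‖ := by
  exact (spectralNorm_eq_of_equiv t x).symm

theorem norm_root {x : PadicAlgCl p} {n : ℕ} (hn : 0 < n) (h : x ^ n = 1) : ‖x‖ = 1 := by
  refine (pow_eq_one_iff_of_nonneg (norm_nonneg _) hn.ne').1 ?_
  rw [← norm_pow, h, norm_one]

/-- If `x ≠ 1` then `∑ j < n, x ^ j = 0`; reduce. -/
theorem eq_one_of_res {x : PadicAlgCl p} {n : ℕ} (hn : ¬ p ∣ n) (h : x ^ n = 1)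
    (h1 : res x = 1) : x = 1 := by
  by_contra hx
  have h2 : ‖x‖ = 1 := norm_root (Nat.pos_of_ne_zero fun h0 => hn (by simp [h0])) h
  have h3 : ∑ j ∈ Finset.range n, x ^ j = 0 := by
    rw [geom_sum_eq hx, h, sub_self, zero_div]
  have h4 := res_sum (Finset.range n) (f := fun j => x ^ j) fun j _ => by
    rw [norm_pow, h2, one_pow]
  simp only [h3, res_zero, res_pow h2.le, h1, one_pow, Finset.sum_const, Finset.card_range,
    nsmul_eq_mul, mul_one] at h4
  exact hn ((CharP.cast_eq_zero_iff (kk p) p n).1 h4.symm)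

theorem res_of_pow_p {x : PadicAlgCl p} {j : ℕ} (h : x ^ p ^ j = 1) : res x = 1 := by
  have h2 : ‖x‖ = 1 := norm_root (pow_pos (Fact.out : p.Prime).pos j) h
  have h3 : res x ^ (p ^ j * 1) = 1 := by rw [mul_one, ← res_pow h2.le, h, res_one]
  rw [ExpChar.pow_prime_pow_mul_eq_one_iff, pow_one] at h3
  exact h3

/-- The inclusion of the `p`-adic integers. -/
def resZ (p : ℕ) [Fact p.Prime] : ℤ_[p] →+* OO p :=
  ((algebraMap ℚ_[p] (PadicAlgCl p)).comp (algebraMap ℤ_[p] ℚ_[p])).codRestrict (OO p) fun z =>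
    mem_OO.2 ((PadicAlgCl.norm_extends p z.1).trans_le z.2)

theorem res_resZ : (ZMod.castHom (dvd_refl p) (kk p)).comp PadicInt.toZMod =
    (IsLocalRing.residue (OO p)).comp (resZ p) := by
  ext z
  have h1 := PadicInt.toZMod_spec z
  rw [IsLocalRing.mem_maximalIdeal, PadicInt.mem_nonunits, ZMod.cast_eq_val] at h1
  have h2 : IsLocalRing.residue (OO p) (resZ p (z - (PadicInt.toZMod z).val)) = 0 := by
    have h3 : ‖(resZ p (z - (PadicInt.toZMod z).val)).1‖ < 1 :=
      (PadicAlgCl.norm_extends p _).trans_lt h1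
    rw [← res_coe]
    exact (res_eq_zero h3.le).2 h3
  rw [map_sub, map_sub, map_natCast, map_natCast, sub_eq_zero] at h2
  rw [RingHom.comp_apply, RingHom.comp_apply, h2, ZMod.castHom_apply, ZMod.cast_eq_val]

theorem res_finOrder {x : PadicAlgCl p} (hx : ‖x‖ = 1) : IsOfFinOrder (res x) := by
  let _ : Algebra (ZMod p) (kk p) := (ZMod.castHom (dvd_refl p) (kk p)).toAlgebra
  have h1 : (minpoly ℚ_[p] x).Monic := minpoly.monic (Algebra.IsIntegral.isIntegral x)
  have h2 : ∀ n, ‖(minpoly ℚ_[p] x).coeff n‖ ≤ 1 := (spectralValue_le_one_iff h1).1 hx.le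
  obtain ⟨g, h3, -, h4⟩ := lifts_and_degree_eq_and_monic
    ((lifts_iff_coeff_lifts (f := algebraMap ℤ_[p] ℚ_[p]) (minpoly ℚ_[p] x)).2
      fun n => ⟨⟨_, h2 n⟩, rfl⟩) h1
  have h5 : eval₂ (resZ p) ⟨x, mem_OO.2 hx.le⟩ g = 0 := by
    refine Subtype.ext ((hom_eval₂ g (resZ p) (OO p).subtype ⟨x, mem_OO.2 hx.le⟩).trans ?_)
    have h6 := minpoly.aeval ℚ_[p] x
    rw [← h3, aeval_def, eval₂_map] at h6
    exact h6
  have h6 : IsIntegral (ZMod p) (res x) := by
    refine ⟨g.map PadicInt.toZMod, h4.map _, ?_⟩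
    rw [eval₂_map, RingHom.algebraMap_toAlgebra, res_resZ, res_of hx.le, ← hom_eval₂, h5, map_zero]
  have h7 := IntermediateField.adjoin.finiteDimensional h6
  have h8 : Finite (IntermediateField.adjoin (ZMod p) {res x}) := Module.finite_of_finite (ZMod p)
  have h9 : IntermediateField.AdjoinSimple.gen (ZMod p) (res x) ≠ 0 := fun h =>
    ((res_eq_zero hx.le).1 (congrArg Subtype.val h)).ne hx
  exact (IntermediateField.adjoin (ZMod p) {res x}).val.toMonoidHom.isOfFinOrder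
    (isOfFinOrder_iff_isUnit.2 h9.isUnit)

/-- Every unit is congruent to a root of unity of order prime to `p`: the residue is algebraic
over the prime field (the unit is algebraic over `ℚ_p`; scale the minimal polynomial to a
primitive integral one, or use integrality over `ℤ_p`), so it is a root of `X ^ n - 1`, which is
the product of the `X - res ω`. -/
theorem exists_root_res {x : PadicAlgCl p} (hx : ‖x‖ = 1) :
    ∃ (n : ℕ) (ω : PadicAlgCl p), ¬ p ∣ n ∧ ω ^ n = 1 ∧ res ω = res x := by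
  obtain ⟨N, hN, h1⟩ := isOfFinOrder_iff_pow_eq_one.1 (res_finOrder hx)
  obtain ⟨k, n, hn, rfl⟩ := Nat.exists_eq_pow_mul_and_not_dvd hN.ne' p (Fact.out : p.Prime).ne_one
  rw [ExpChar.pow_prime_pow_mul_eq_one_iff] at h1
  have h0 : 0 < n := Nat.pos_of_ne_zero fun h => hn (h ▸ dvd_zero p)
  have : NeZero n := ⟨h0.ne'⟩
  obtain ⟨ζ, hζ⟩ := HasEnoughRootsOfUnity.exists_primitiveRoot (PadicAlgCl p) n
  have h2 : ‖x ^ n - 1‖ < 1 := (res_eq_iff (by rw [norm_pow, hx, one_pow]) norm_one.le).1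
    (by rw [res_pow hx.le, h1, res_one])
  have h3 := congrArg (eval x) (X_pow_sub_one_eq_prod h0 hζ)
  simp only [eval_sub, eval_pow, eval_X, eval_one, eval_prod, eval_C] at h3
  rw [h3, norm_prod] at h2
  by_contra h4
  refine h2.not_ge (Finset.one_le_prod fun ω hω => not_lt.1 fun h5 => h4 ?_)
  have h6 := (mem_nthRootsFinset h0 1).1 hω
  exact ⟨n, ω, hn, h6, ((res_eq_iff hx.le (norm_root h0 h6).le).2 h5).symm⟩

theorem IsFrob.res {s : PadicAlgCl p ≃ₐ[ℚ_[p]] PadicAlgCl p} (hs : IsFrob s) {x : PadicAlgCl p}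
    (hx : ‖x‖ ≤ 1) : res (s x) = res x ^ p := by
  rw [← res_pow hx]
  exact (res_eq_iff ((norm_aut s x).trans_le hx)
    (by rw [norm_pow]; exact pow_le_one₀ (norm_nonneg _) hx)).2 (hs x hx)

end

end M4.B2
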