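import Pool.Agent.Lib.MP_33b3f9_ag.M4.B2.RedC

/-!
The theta data in characteristic `p`.
-/

set_option autoImplicit false

namespace M4.B2

open Matrix Polynomial

noncomputable section

variable {P : Nat.Primes} {ι : Type} [Fintype ι] (S : Setup P ι)
  (t : PadicAlgCl P ≃ₐ[ℚ_[P]] PadicAlgCl P)

theorem Setup.equiv_X (i : ι) (x : VA) :
    t (S.e (S.D.X i x)) = S.e (S.D.X i (rho (S.R t) x)) := by
  rw [← e_cj, (S.D.mu (cj S.e t) (rho (S.R t)) (fun _ hx => (rho_mem_TA _).2 hx) (S.fix t)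
    (S.compat t)).1]

theorem Setup.equiv_psi (x y : VA) :
    cj S.e t (psi (EB x y)) = psi (EB (rho (S.R t) x) (rho (S.R t) y)) :=
  (S.D.mu (cj S.e t) (rho (S.R t)) (fun _ hx => (rho_mem_TA _).2 hx) (S.fix t) (S.compat t)).2 x y

theorem Setup.redF_rho (i : ι) (z : Vt P × WW P) :
    redF S.e (S.D.X i) (rhoV P (S.R t) z.1, rhoW (S.R t P) z.2) =
      res (t (S.e (S.D.X i (lift z)))) := by
  have h : rhoW (S.R t P) z.2 = ((mQ (S.R t P) *ᵥ z.2.out : ν → ℚ_[P]) : WW P) := by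
    conv_lhs => rw [← QuotientAddGroup.out_eq' z.2]
    rfl
  rw [h, redF_mk S.D (S.D.X_mem i) (S.intg_X i), S.equiv_X, lift, map_add, rho_iV, coe_rhoV]

variable {t}

theorem Setup.fr (ht : IsFrob t) (i : ι) (z : Vt P × WW P) :
    redF S.e (S.D.X i) (rhoV P (S.R t) z.1, rhoW (S.R t P) z.2) =
      redF S.e (S.D.X i) z ^ P.1 := by
  rw [S.redF_rho, ht.res (S.intg_X i _)]; rfl

theorem Setup.eps_s (ht : IsFrob t) (x y : Vt P) :
    epsR S.e (rhoV P (S.R t) x) (rhoV P (S.R t) y) = epsR S.e x y ^ P.1 := by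
  have h := S.equiv_psi t (qA (1 / 2) • (x : VA)) y
  rw [map_smul, EB_smul_left, EB_smul_left] at h
  rw [epsR, epsR, coe_rhoV, coe_rhoV, ← h, e_cj, ht.res (norm_e_psi _ _).le]

/-- The reduced theta data. -/
def Setup.toTD (ht : IsFrob t) : CP.TD (kk P) P (Vt P) (WW P) ι where
  Lam := Lam P
  eps := epsR S.e
  G := GG S.D S.e
  X := fun i => redF S.e (S.D.X i)
  sV := rhoV P (S.R t)
  sW := rhoW (S.R t P)
  p_odd := S.odd
  lam_tors := lam_tors P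
  lam_p := lam_p P
  lam_card := lam_card P
  W_div := W_div P
  W_tors := W_tors P
  W_card := W_card P
  eps_add_left := epsR_add_left S.e
  eps_add_right := epsR_add_right S.e
  eps_self := epsR_self S.e
  perf := epsR_perf S.e
  span := S.span
  one_mem := GG_one S.D S.e
  mul_mem := GG_mul S.D S.e
  fin := S.fin
  dim_le := fun _ hn => (GG_fin_le S.D S.e hn).2
  dim_eq := S.dim_eq
  irr := S.irr
  tr := GG_tr S.D S.e
  per := GG_per S.D S.e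
  mul := GG_mulc S.D S.e
  inj := S.inj
  bpf := S.bpf
  law := S.law
  dup := S.dup
  sV_lam := fun _ => rho_mem_TA _
  eps_s := S.eps_s ht
  fr := S.fr ht
  norm := GG_norm S.D S.e

/-- The results of the theory in characteristic `p`. -/
structure Outs {k : Type} [Field k] {p : ℕ} {V W ι : Type} [AddCommGroup V] [Module ℚ V]
    [AddCommGroup W] [Fintype ι] (T : CP.TD k p V W ι) : Prop where
  sep : ∀ (z u : V × W) (c : k), (∀ i, T.X i (z + u) = c * T.X i z) → u.1 ∈ T.Lam ∧ u.2 ∈ T.C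
  card : T.Ord → ∀ j, Nat.card {y : W // p ^ j • y = 0 ∧ y ∈ T.C} = p ^ (4 * j)
  main : T.Ord → ∀ (δ : ℤ[X]) (m j d : ℕ), δ.natDegree ≤ m → ¬ p ∣ d →
    T.polV (δ * CP.recip p m δ) = T.polV (C ((p : ℤ) ^ (2 * j) * d) * X ^ m) →
    (∀ y, p ^ j • y = 0 → T.polW δ y ∈ T.C) →
    (∀ y, p ^ j • y = 0 → T.polW (CP.recip p m δ) y ∈ T.C) →
    ∃ t : ℕ, ∀ n, ¬ p ∣ n → ∀ f ∈ T.G n, ∃ g ∈ T.G (n * d * 4 ^ t), ∀ x : V,
      g (x, 0) = f (((p : ℚ) ^ j)⁻¹ • T.polV δ (2 ^ t • x), 0)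
  weil : ∃ h : ℤ[X] → ℕ, (∀ a b, h (a + b) + h (a - b) = 2 * h a + 2 * h b) ∧
    (∀ a, h (X * a) = p * h a) ∧ (∀ a, h a = 0 ↔ T.polV a = 0) ∧
    (∀ (N : ℕ) (a : ℤ[X]), ¬ p ∣ N → (∀ x ∈ T.Lam, ∃ y ∈ T.Lam, T.polV a x = N • y) →
      N ^ 2 ∣ h a) ∧
    (T.Ord → ∀ (n : ℕ) (a : ℤ[X]), (∀ y, p ^ n • y = 0 → T.polW a y ∈ T.C) → p ^ n ∣ h a)

end

end M4.B2
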